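import Pool.Agent.H29.Stable

/-!
# Segments with virtually abelian stabiliser
-/

open Set Filter Topology Metric

set_option linter.unusedSectionVars false

namespace Pool.Agent.H29

universe u

section Rank

variable {A : Type*} [CommGroup A]

/-- the rank of a subgroup of a commutative group -/
noncomputable def rk (H : Subgroup A) : ℕ :=
  Module.finrank ℤ (AddSubgroup.toIntSubmodule (Subgroup.toAddSubgroup H))

variable [Group.FG A]

lemma finite_int_additive : Module.Finite ℤ (Additive A) :=
  Module.Finite.iff_addGroup_fg.mpr (GroupFG.iff_add_fg.mp inferInstance)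

lemma rk_mono {H K : Subgroup A} (h : H ≤ K) : rk H ≤ rk K := by
  have := finite_int_additive (A := A)
  exact Submodule.finrank_mono (fun x hx => h hx)

lemma relIndex_of_rk {H K : Subgroup A} (h : H ≤ K) (hrk : rk H = rk K) : H.relIndex K ≠ 0 := by
  have hfin := finite_int_additive (A := A)
  set N1 := AddSubgroup.toIntSubmodule (Subgroup.toAddSubgroup H) with hN1
  set N2 := AddSubgroup.toIntSubmodule (Subgroup.toAddSubgroup K) with hN2
  have hle : N1 ≤ N2 := fun x hx => h hx
  set L := N1.submoduleOf N2 with hL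
  have e1 : Module.finrank ℤ L = Module.finrank ℤ N1 :=
    (Submodule.submoduleOfEquivOfLe hle).finrank_eq
  have e2 := Submodule.finrank_quotient_add_finrank L
  have e3 : Module.finrank ℤ N1 = Module.finrank ℤ N2 := hrk
  have e4 : Module.finrank ℤ (N2 ⧸ L) = 0 := by omega
  rw [Module.finrank_eq_zero_iff_isTorsion] at e4
  have hF : Finite (N2 ⧸ L) := Module.finite_of_fg_torsion _ e4
  have hF2 : Finite (K ⧸ H.subgroupOf K) := by
    apply Finite.of_injective (fun q : K ⧸ H.subgroupOf K =>
      (Submodule.Quotient.mk (p := L) ⟨Additive.ofMul (Quotient.out q).1, (Quotient.out q).2⟩))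
    intro q q' hqq
    have h1 := (Submodule.Quotient.eq L).mp hqq
    have h2 : Additive.ofMul (Quotient.out q).1 - Additive.ofMul (Quotient.out q').1 ∈ N1 := h1
    have h3 : (Quotient.out q).1 / (Quotient.out q').1 ∈ H := h2
    rw [← QuotientGroup.out_eq' q, ← QuotientGroup.out_eq' q', QuotientGroup.eq]
    show ((Quotient.out q).1)⁻¹ * (Quotient.out q').1 ∈ H
    have h4 := H.inv_mem h3
    rwa [inv_div, div_eq_inv_mul] at h4
  exact Subgroup.index_ne_zero_of_finite

end Rank

section Min

variable {G V : Type*} [Group G] [MulAction G V] {d : V → V → ℕ} {τ : G} {x y : V}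

/-- Segments with virtually finitely generated abelian stabiliser contain stable segments in
their extensions. -/
theorem exists_minAx_of_abelian (h : TAx d τ x y) (A : Subgroup G)
    (hA : ∀ a ∈ A, ∀ b ∈ A, a * b = b * a) (hfg : A.FG)
    (hrel : A.relIndex (MulAction.stabilizer G x ⊓ MulAction.stabilizer G y) ≠ 0) :
    ∃ (σ : G) (z w : V), MinAx d σ z w ∧
      A.relIndex (MulAction.stabilizer G z ⊓ MulAction.stabilizer G w) ≠ 0 := by
  classical
  let iA : CommGroup A :=
    { (inferInstance : Group A) with mul_comm := fun a b => Subtype.ext (hA a.1 a.2 b.1 b.2) }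
  have hfgA : @Group.FG A iA.toGroup := (Group.fg_iff_subgroup_fg A).mpr hfg
  set K := MulAction.stabilizer G x ⊓ MulAction.stabilizer G y with hK
  -- the possible ranks
  let P : ℕ → Prop := fun n => ∃ (σ : G) (z w : V), TAx d σ z w ∧
    MulAction.stabilizer G z ⊓ MulAction.stabilizer G w ≤ K ∧
    @rk A iA ((MulAction.stabilizer G z ⊓ MulAction.stabilizer G w).subgroupOf A) = n
  have hP : ∃ n, P n := ⟨_, τ, x, y, h, le_refl _, rfl⟩
  obtain ⟨σ, z, w, hzw, hle, hn⟩ := Nat.find_spec hP
  refine ⟨σ, z, w, ⟨hzw, fun σ' z' w' hzw' hle' => ?_⟩, relIndex_mono_right hle hrel⟩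
  set K1 := MulAction.stabilizer G z ⊓ MulAction.stabilizer G w with hK1
  set K2 := MulAction.stabilizer G z' ⊓ MulAction.stabilizer G w' with hK2
  have hsub : K2.subgroupOf A ≤ K1.subgroupOf A := fun a ha => hle' ha
  have h1 : Nat.find hP ≤ @rk A iA (K2.subgroupOf A) :=
    Nat.find_min' hP ⟨σ', z', w', hzw', hle'.trans hle, rfl⟩
  have h2 : @rk A iA (K2.subgroupOf A) ≤ @rk A iA (K1.subgroupOf A) :=
    @rk_mono A iA hfgA _ _ hsub
  have h3 : @rk A iA (K2.subgroupOf A) = @rk A iA (K1.subgroupOf A) := le_antisymm h2 (hn ▸ h1)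
  have h4 := @relIndex_of_rk A iA hfgA _ _ hsub h3
  -- translate back
  have h5 : (K2 ⊓ A).relIndex (K1 ⊓ A) ≠ 0 := by
    rw [← Subgroup.relIndex_subgroupOf (L := A) inf_le_right]
    rwa [Subgroup.inf_subgroupOf_right, Subgroup.inf_subgroupOf_right]
  have h6 : (K1 ⊓ A).relIndex K1 ≠ 0 := by
    rw [Subgroup.inf_relIndex_left]
    exact relIndex_mono_right hle hrel
  exact relIndex_mono_left inf_le_left (Subgroup.relIndex_ne_zero_trans h5 h6)

end Min

section Main

variable {G : Type*} {X : Type u} [Group G] [MetricSpace X] [IsCAT0 X] [ProperSpace X]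
  [MulAction G X] [IsIsometricSMul G X] [ProperlyDiscontinuousSMul G X]

/-- An infinite subgroup contains an element acting nontrivially. -/
lemma exists_moving {S : Set G} (hS : S.Infinite) (p : X) : ∃ g ∈ S, g • p ≠ p := by
  by_contra hcon
  push Not at hcon
  exact hS ((finite_stab (G := G) p).subset hcon)

/-- Rank rigidity for translations with a segment whose stabiliser is virtually finitely
generated abelian. -/
theorem rankOne_of_abelian [Nonempty X] {V : Type*} [MulAction G V] {d : V → V → ℕ}
    (hgc : GeodesicallyComplete X) (hcoc : Cocompact G X)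
    (hirr : MetricIrreducible X) (hd : TreeLike d)
    (hiso : ∀ (g : G) v w, d (g • v) (g • w) = d v w)
    (hfin : ∀ (σ : G) (z w : V), TAx d σ z w → {g : G | g • z = z ∧ g • w = w}.Finite →
      IsRankOne (X := X) σ)
    {τ : G} {x y : V} (h : TAx d τ x y) (A : Subgroup G)
    (hA : ∀ a ∈ A, ∀ b ∈ A, a * b = b * a) (hfg : A.FG)
    (hrel : A.relIndex (MulAction.stabilizer G x ⊓ MulAction.stabilizer G y) ≠ 0) :
    ∃ g : G, IsRankOne (X := X) g := by
  obtain ⟨σ, z, w, hmin, hrel'⟩ := exists_minAx_of_abelian h A hA hfg hrel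
  by_cases hf : {g : G | g • z = z ∧ g • w = w}.Finite
  · exact ⟨σ, hfin σ z w hmin.ax hf⟩
  · have hinf : ((MulAction.stabilizer G z ⊓ MulAction.stabilizer G w : Subgroup G) :
        Set G).Infinite := hf
    have hinf2 := infinite_inf_of_relIndex hrel' hinf
    obtain ⟨p⟩ := (inferInstance : Nonempty X)
    obtain ⟨b, hb, hbp⟩ := exists_moving hinf2 p
    apply rankOne_of_minAx hgc hcoc hirr hd hiso hfin hmin (b := b) ⟨p, hbp⟩
    apply relIndex_mono_left _ hrel'
    intro a ha
    rw [Subgroup.mem_centralizer_singleton_iff]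
    exact hA a ha b hb.2

end Main

end Pool.Agent.H29
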