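import Pool.Agent.H29.Line

/-!
# Proper cocompact actions and extremal points for families of functions
-/

open Set Filter Topology Metric

set_option linter.unusedSectionVars false

namespace Pool.Agent.H29

/-! ### the potential of a locally finite family of functions -/

section Potential

variable {Y ι : Type*} [TopologicalSpace Y] {d : ι → Y → ℝ}

/-- the truncated sum -/
noncomputable def trunc (d : ι → Y → ℝ) (k : ℕ) (y : Y) : ℝ := ∑ᶠ i, max 0 ((k : ℝ) - d i y)

lemma trunc_support (k : ℕ) (y : Y) :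
    Function.support (fun i => max 0 ((k : ℝ) - d i y)) = {i | d i y < k} := by
  ext i
  simp only [Function.mem_support, ne_eq, mem_ofPred_eq]
  constructor
  · intro h
    by_contra hcon
    push Not at hcon
    exact h (max_eq_left (by linarith))
  · intro h
    rw [max_eq_right (by linarith)]
    intro h0
    linarith

lemma trunc_fin (hlf : ∀ (z : Y) (r : ℝ), ∃ U ∈ 𝓝 z, {i | ∃ y ∈ U, d i y < r}.Finite)
    (k : ℕ) (y : Y) : {i | d i y < k}.Finite := by
  obtain ⟨U, hU, hfin⟩ := hlf y k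
  exact hfin.subset (fun i hi => ⟨y, mem_of_mem_nhds hU, hi⟩)

lemma trunc_continuous (hcont : ∀ i, Continuous (d i))
    (hlf : ∀ (z : Y) (r : ℝ), ∃ U ∈ 𝓝 z, {i | ∃ y ∈ U, d i y < r}.Finite) (k : ℕ) :
    Continuous (trunc d k) := by
  apply continuous_finsum
  · intro i
    exact continuous_const.max (continuous_const.sub (hcont i))
  · intro z
    obtain ⟨U, hU, hfin⟩ := hlf z k
    refine ⟨U, hU, hfin.subset ?_⟩
    rintro i ⟨y, hy, hyU⟩
    refine ⟨y, hyU, ?_⟩
    by_contra hcon
    push Not at hcon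
    exact hy (max_eq_left (by linarith))

lemma trunc_mono (hlf : ∀ (z : Y) (r : ℝ), ∃ U ∈ 𝓝 z, {i | ∃ y ∈ U, d i y < r}.Finite)
    (k : ℕ) {x y : Y} (h : ∀ i, d i x ≤ d i y) :
    trunc d k y ≤ trunc d k x ∧
      (trunc d k y = trunc d k x → ∀ i, d i x < k → d i x = d i y) := by
  have hx : Function.support (fun i => max 0 ((k : ℝ) - d i x)) ⊆
      ((trunc_fin hlf k x).toFinset : Set ι) := by
    rw [trunc_support]; simp
  have hy : Function.support (fun i => max 0 ((k : ℝ) - d i y)) ⊆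
      ((trunc_fin hlf k x).toFinset : Set ι) := by
    rw [trunc_support]
    intro i hi
    simp only [Finite.coe_toFinset, mem_ofPred_eq] at hi ⊢
    exact lt_of_le_of_lt (h i) hi
  have hle : ∀ i ∈ (trunc_fin hlf k x).toFinset,
      max 0 ((k : ℝ) - d i y) ≤ max 0 ((k : ℝ) - d i x) := by
    intro i _
    exact max_le_max (le_refl _) (by linarith [h i])
  rw [trunc, trunc, finsum_eq_sum_of_support_subset _ hx, finsum_eq_sum_of_support_subset _ hy]
  refine ⟨Finset.sum_le_sum hle, ?_⟩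
  intro heq i hi
  have := (Finset.sum_eq_sum_iff_of_le hle).mp heq i (by simpa using hi)
  rw [max_eq_right (a := (0 : ℝ)) (b := (k : ℝ) - d i x) (by linarith)] at this
  rcases le_total 0 ((k : ℝ) - d i y) with h0 | h0
  · rw [max_eq_right h0] at this
    linarith
  · rw [max_eq_left h0] at this
    linarith

lemma trunc_equiv (k : ℕ) {x y : Y} (σ : ι ≃ ι) (h : ∀ i, d i x = d (σ i) y) :
    trunc d k x = trunc d k y := by
  unfold trunc
  rw [← finsum_comp_equiv σ (f := fun i => max 0 ((k : ℝ) - d i y))]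
  apply finsum_congr
  intro i
  rw [h i]

lemma trunc_nonneg (k : ℕ) (y : Y) : 0 ≤ trunc d k y :=
  finsum_nonneg (fun _ => le_max_left _ _)

/-- A continuous potential measuring a locally finite family of functions. -/
theorem exists_potential (hcont : ∀ i, Continuous (d i))
    (hlf : ∀ (z : Y) (r : ℝ), ∃ U ∈ 𝓝 z, {i | ∃ y ∈ U, d i y < r}.Finite)
    {K : Set Y} (hK : IsCompact K)
    (hcoc : ∀ y, ∃ k ∈ K, ∃ σ : ι ≃ ι, ∀ i, d i y = d (σ i) k) :
    ∃ S : Y → ℝ, Continuous S ∧
      (∀ x y, (∀ i, d i x ≤ d i y) → S y ≤ S x ∧ (S y = S x → ∀ i, d i x = d i y)) ∧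
      (∀ x y (σ : ι ≃ ι), (∀ i, d i x = d (σ i) y) → S x = S y) := by
  have hb : ∀ k : ℕ, ∃ M : ℝ, 0 ≤ M ∧ ∀ y, trunc d k y ≤ M := by
    intro k
    obtain ⟨M, hM⟩ := (hK.image (trunc_continuous hcont hlf k)).bddAbove
    refine ⟨max M 0, le_max_right _ _, fun y => ?_⟩
    obtain ⟨z, hz, σ, hσ⟩ := hcoc y
    rw [trunc_equiv k σ hσ]
    exact (hM ⟨z, hz, rfl⟩).trans (le_max_left _ _)
  choose M hM0 hM using hb
  set c : ℕ → ℝ := fun k => (1 / 2) ^ k / (1 + M k) with hc
  have hcpos : ∀ k, 0 < c k := fun k => by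
    have := hM0 k
    simp only [hc]
    positivity
  have hbound : ∀ k y, c k * trunc d k y ≤ (1 / 2) ^ k := by
    intro k y
    have h0 := hM0 k
    simp only [hc]
    rw [div_mul_eq_mul_div, div_le_iff₀ (by linarith)]
    apply mul_le_mul_of_nonneg_left _ (by positivity)
    linarith [hM k y]
  have hnn : ∀ k y, 0 ≤ c k * trunc d k y := fun k y =>
    mul_nonneg (hcpos k).le (trunc_nonneg k y)
  have hsum : ∀ y, Summable (fun k => c k * trunc d k y) := fun y =>
    Summable.of_nonneg_of_le (fun k => hnn k y) (fun k => hbound k y) summable_geometric_two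
  refine ⟨fun y => ∑' k, c k * trunc d k y, ?_, ?_, ?_⟩
  · apply continuous_tsum (u := fun k => (1 / 2 : ℝ) ^ k)
    · intro k
      exact continuous_const.mul (trunc_continuous hcont hlf k)
    · exact summable_geometric_two
    · intro k y
      rw [Real.norm_of_nonneg (hnn k y)]
      exact hbound k y
  · intro x y h
    have hle : ∀ k, c k * trunc d k y ≤ c k * trunc d k x := fun k =>
      mul_le_mul_of_nonneg_left (trunc_mono hlf k h).1 (hcpos k).le
    refine ⟨Summable.tsum_le_tsum hle (hsum y) (hsum x), ?_⟩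
    intro heq
    have heach : ∀ k, trunc d k y = trunc d k x := by
      intro k
      by_contra hne
      have hlt : trunc d k y < trunc d k x := lt_of_le_of_ne (trunc_mono hlf k h).1 hne
      have := Summable.tsum_lt_tsum (i := k) hle (mul_lt_mul_of_pos_left hlt (hcpos k))
        (hsum y) (hsum x)
      exact absurd heq this.ne
    intro i
    obtain ⟨k, hk⟩ := exists_nat_gt (d i x)
    exact (trunc_mono hlf k h).2 (heach k) i hk
  · intro x y σ h
    show (∑' k, c k * trunc d k x) = ∑' k, c k * trunc d k y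
    congr 1
    funext k
    rw [trunc_equiv k σ h]

/-- Existence of a point that is minimal for the family. -/
theorem exists_min_point (hcont : ∀ i, Continuous (d i))
    (hlf : ∀ (z : Y) (r : ℝ), ∃ U ∈ 𝓝 z, {i | ∃ y ∈ U, d i y < r}.Finite)
    {K : Set Y} (hK : IsCompact K)
    (hcoc : ∀ y, ∃ k ∈ K, ∃ σ : ι ≃ ι, ∀ i, d i y = d (σ i) k) [Nonempty Y] :
    ∃ x : Y, ∀ y, (∀ i, d i x ≤ d i y) → ∀ i, d i y = d i x := by
  obtain ⟨S, hS, hmono, hequiv⟩ := exists_potential hcont hlf hK hcoc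
  have hKne : K.Nonempty := by
    obtain ⟨k, hk, _⟩ := hcoc (Classical.arbitrary Y)
    exact ⟨k, hk⟩
  obtain ⟨x, hx, hmin⟩ := hK.exists_isMinOn hKne hS.continuousOn
  refine ⟨x, fun y hy i => ?_⟩
  have h1 := (hmono x y hy).1
  obtain ⟨z, hz, σ, hσ⟩ := hcoc y
  have h2 : S x ≤ S y := by
    rw [hequiv y z σ hσ]
    exact hmin hz
  exact ((hmono x y hy).2 (le_antisymm h1 h2) i).symm

/-- Existence of a point that is maximal for the family. -/
theorem exists_max_point (hcont : ∀ i, Continuous (d i))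
    (hlf : ∀ (z : Y) (r : ℝ), ∃ U ∈ 𝓝 z, {i | ∃ y ∈ U, d i y < r}.Finite)
    {K : Set Y} (hK : IsCompact K)
    (hcoc : ∀ y, ∃ k ∈ K, ∃ σ : ι ≃ ι, ∀ i, d i y = d (σ i) k) [Nonempty Y] :
    ∃ x : Y, ∀ y, (∀ i, d i y ≤ d i x) → ∀ i, d i y = d i x := by
  obtain ⟨S, hS, hmono, hequiv⟩ := exists_potential hcont hlf hK hcoc
  have hKne : K.Nonempty := by
    obtain ⟨k, hk, _⟩ := hcoc (Classical.arbitrary Y)
    exact ⟨k, hk⟩
  obtain ⟨x, hx, hmax⟩ := hK.exists_isMaxOn hKne hS.continuousOn
  refine ⟨x, fun y hy i => ?_⟩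
  have h1 := (hmono y x hy).1
  obtain ⟨z, hz, σ, hσ⟩ := hcoc y
  have h2 : S y ≤ S x := by
    rw [hequiv y z σ hσ]
    exact hmax hz
  exact (hmono y x hy).2 (le_antisymm h1 h2) i

end Potential

/-! ### cocompact and properly discontinuous actions -/

section Actions

variable {G X : Type*} [Group G] [MetricSpace X] [MulAction G X]

variable [IsIsometricSMul G X]

lemma finite_displace [ProperSpace X] [ProperlyDiscontinuousSMul G X] {K : Set X}
    (hK : IsCompact K) (r : ℝ) : {g : G | ∃ y ∈ K, dist y (g • y) < r}.Finite := by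
  rcases K.eq_empty_or_nonempty with rfl | hne
  · simp
  have hL : IsCompact (Metric.cthickening r K) := hK.cthickening
  apply (ProperlyDiscontinuousSMul.finite_disjoint_inter_image (Γ := G) hK hL).subset
  rintro g ⟨y, hy, hd⟩
  refine ⟨g • y, ⟨y, hy, rfl⟩, ?_⟩
  apply Metric.mem_cthickening_of_dist_le (g • y) y r K hy
  rw [dist_comm]
  exact hd.le

lemma finite_near [ProperSpace X] [ProperlyDiscontinuousSMul G X] (p q : X) (r : ℝ) :
    {g : G | dist p (g • q) ≤ r}.Finite := by
  apply (ProperlyDiscontinuousSMul.finite_disjoint_inter_image (Γ := G)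
    (isCompact_singleton (x := q)) (isCompact_closedBall p r)).subset
  intro g hg
  refine ⟨g • q, ⟨q, rfl, rfl⟩, ?_⟩
  rw [mem_closedBall, dist_comm]
  exact hg

/-- an invariant real function on a cocompact space bounded on compacta is bounded -/
lemma Cocompact.bdd {f : X → ℝ} (h : Cocompact G X) (hf : Continuous f)
    (hinv : ∀ (g : G) x, f (g • x) = f x) : ∃ M, ∀ x, f x ≤ M := by
  obtain ⟨K, hK, hcov⟩ := h
  obtain ⟨M, hM⟩ := (hK.image hf).bddAbove
  refine ⟨M, fun x => ?_⟩
  obtain ⟨g, hg⟩ := hcov x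
  rw [← hinv g x]
  exact hM ⟨_, hg, rfl⟩

/-- the orbit of any point is cobounded -/
lemma Cocompact.orbit (h : Cocompact G X) (p : X) : ∃ R, ∀ x, ∃ g : G, dist x (g • p) ≤ R := by
  obtain ⟨K, hK, hcov⟩ := h
  obtain ⟨R, hR⟩ := hK.isBounded.subset_closedBall p
  refine ⟨R, fun x => ?_⟩
  obtain ⟨g, hg⟩ := hcov x
  refine ⟨g⁻¹, ?_⟩
  have := hR hg
  rw [mem_closedBall] at this
  rw [← dist_smul g x (g⁻¹ • p), smul_inv_smul]
  exact this

/-- displacement functions: conjugation formula -/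
lemma disp_conj (g h : G) (x : X) :
    dist (g • x) (h • g • x) = dist x ((g⁻¹ * h * g) • x) := by
  rw [← dist_smul g x, smul_smul, smul_smul]
  congr 2
  group

/-- Points that are extremal for the displacement functions of a normal subgroup. -/
theorem exists_extremal_min [IsCAT0 X] [ProperSpace X] [ProperlyDiscontinuousSMul G X] [Nonempty X]
    (h : Cocompact G X) (N : Subgroup G) [N.Normal] :
    ∃ x : X, ∀ y : X, (∀ n ∈ N, dist x (n • x) ≤ dist y (n • y)) →
      ∀ n ∈ N, dist y (n • y) = dist x (n • x) := by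
  obtain ⟨K, hK, hcov⟩ := h
  have hlf : ∀ (z : X) (r : ℝ), ∃ U ∈ 𝓝 z, {i : N | ∃ y ∈ U, dist y ((i : G) • y) < r}.Finite := by
    intro z r
    refine ⟨closedBall z 1, closedBall_mem_nhds z one_pos, ?_⟩
    have hfin := finite_displace (G := G) (isCompact_closedBall z 1) r
    have : {i : N | ∃ y ∈ closedBall z 1, dist y ((i : G) • y) < r} =
        Subtype.val ⁻¹' {g : G | ∃ y ∈ closedBall z 1, dist y (g • y) < r} := rfl
    rw [this]
    exact hfin.preimage Subtype.val_injective.injOn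
  have hc : ∀ y : X, ∃ k ∈ K, ∃ σ : N ≃ N, ∀ i : N,
      dist y ((i : G) • y) = dist k ((σ i : G) • k) := by
    intro y
    obtain ⟨g, hg⟩ := hcov y
    refine ⟨g • y, hg, (MulAut.conjNormal g).toEquiv, fun i => ?_⟩
    show dist y ((i : G) • y) = dist (g • y) (((MulAut.conjNormal g i : N) : G) • g • y)
    rw [disp_conj, MulAut.conjNormal_apply]
    congr 2
    group
  obtain ⟨x, hx⟩ := exists_min_point (ι := N) (Y := X)
    (d := fun (n : N) (x : X) => dist x ((n : G) • x))
    (fun n => continuous_disp (n : G)) hlf hK hc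
  exact ⟨x, fun y hy n hn => hx y (fun i => hy i i.2) ⟨n, hn⟩⟩

end Actions

end Pool.Agent.H29
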