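import Pool.Agent.H29.Infinity

/-!
# Axes, rank one isometries, properness
-/

open Set Filter Topology Metric

set_option linter.unusedSectionVars false

namespace Pool.Agent.H29

/-! ### properness -/

section HopfRinow

variable {G X : Type*} [Group G] [MetricSpace X] [IsCAT0 X] [MulAction G X]
  [IsIsometricSMul G X]

lemma Cocompact.uniform_balls [LocallyCompactSpace X] (h : Cocompact G X) :
    ∃ ε > 0, ∀ x : X, IsCompact (closedBall x ε) := by
  obtain ⟨K, hK, hcov⟩ := h
  -- near each point of K there are compact balls of uniform size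
  have key : ∃ ε > 0, ∀ x ∈ K, IsCompact (closedBall x ε) := by
    have hr : ∀ x : X, ∃ r > 0, IsCompact (closedBall x r) := by
      intro x
      obtain ⟨L, hL, hLx⟩ := exists_compact_mem_nhds x
      obtain ⟨r, hr, hsub⟩ := Metric.nhds_basis_closedBall.mem_iff.mp hLx
      exact ⟨r, hr, hL.of_isClosed_subset isClosed_closedBall hsub⟩
    choose r hr hrc using hr
    obtain ⟨t, ht, hcover⟩ := hK.elim_nhds_subcover (fun x => ball x (r x / 2))
      (fun x _ => ball_mem_nhds x (by linarith [hr x]))
    rcases t.eq_empty_or_nonempty with rfl | hne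
    · refine ⟨1, one_pos, fun x hx => ?_⟩
      have := hcover hx
      simp at this
    · refine ⟨t.inf' hne (fun x => r x / 2), ?_, ?_⟩
      · rw [gt_iff_lt, Finset.lt_inf'_iff]
        intro x _
        linarith [hr x]
      · intro x hx
        have := hcover hx
        simp only [mem_iUnion] at this
        obtain ⟨y, hy, hxy⟩ := this
        apply (hrc y).of_isClosed_subset isClosed_closedBall
        apply closedBall_subset_closedBall'
        have h1 : t.inf' hne (fun x => r x / 2) ≤ r y / 2 := Finset.inf'_le _ hy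
        rw [mem_ball] at hxy
        linarith
  obtain ⟨ε, hε, hc⟩ := key
  refine ⟨ε, hε, fun x => ?_⟩
  obtain ⟨g, hg⟩ := hcov x
  have h1 := (hc _ hg).image (isometry_smul X g⁻¹).continuous
  have h2 : (fun y : X => g⁻¹ • y) '' closedBall (g • x) ε = closedBall x ε := by
    ext y
    constructor
    · rintro ⟨z, hz, rfl⟩
      rw [mem_closedBall] at hz ⊢
      show dist (g⁻¹ • z) x ≤ ε
      rw [← dist_smul g (g⁻¹ • z) x, smul_inv_smul]
      exact hz
    · intro hy
      refine ⟨g • y, ?_, inv_smul_smul g y⟩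
      rw [mem_closedBall] at hy ⊢
      rw [dist_smul]; exact hy
  rw [h2] at h1
  exact h1

/-- **Hopf-Rinow** for cocompact locally compact CAT(0) spaces -/
theorem Cocompact.properSpace [LocallyCompactSpace X] (h : Cocompact G X) : ProperSpace X := by
  obtain ⟨ε, hε, hc⟩ := h.uniform_balls
  have key : ∀ (x : X) (n : ℕ), IsCompact (closedBall x (n * (ε / 2))) := by
    intro x n
    induction n with
    | zero => simp
    | succ n ih =>
      obtain ⟨t, _, htf, hcover⟩ := ih.finite_cover_balls (e := ε / 2) (by linarith)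
      have hU : IsCompact (⋃ y ∈ t, closedBall y ε) := htf.isCompact_biUnion (fun y _ => hc y)
      apply hU.of_isClosed_subset isClosed_closedBall
      intro z hz
      rw [mem_closedBall] at hz
      push_cast at hz
      -- a point of the ball of radius n ε/2 near z
      have hy : ∃ y ∈ closedBall x (n * (ε / 2)), dist y z ≤ ε / 2 := by
        by_cases hle : dist x z ≤ n * (ε / 2)
        · refine ⟨z, ?_, ?_⟩
          · rw [mem_closedBall, dist_comm]; exact hle
          · rw [dist_self]; linarith
        · push Not at hle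
          have hpos : 0 < dist x z := lt_of_le_of_lt (by positivity) hle
          have hl : (n * (ε / 2)) / dist x z ∈ Icc (0 : ℝ) 1 := by
            constructor
            · positivity
            · rw [div_le_one hpos]; exact hle.le
          refine ⟨pt x z ((n * (ε / 2)) / dist x z), ?_, ?_⟩
          · rw [mem_closedBall, dist_comm, dist_left_pt _ _ hl, div_mul_cancel₀ _ hpos.ne']
          · rw [dist_pt_right _ _ hl, sub_mul, div_mul_cancel₀ _ hpos.ne', one_mul]
            rw [dist_comm] at hz
            linarith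
      obtain ⟨y, hy1, hy2⟩ := hy
      have := hcover hy1
      simp only [mem_iUnion, mem_ball] at this
      obtain ⟨w, hw, hyw⟩ := this
      simp only [mem_iUnion, mem_closedBall]
      refine ⟨w, hw, ?_⟩
      have := dist_triangle z y w
      rw [dist_comm z y] at this
      linarith
  refine ⟨fun x r => ?_⟩
  obtain ⟨n, hn⟩ := exists_nat_gt (r / (ε / 2))
  apply (key x n).of_isClosed_subset isClosed_closedBall
  apply closedBall_subset_closedBall
  rw [div_lt_iff₀ (by linarith)] at hn
  exact hn.le

end HopfRinow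

/-! ### lines through integer sequences -/

section Lines

variable {X : Type*} [MetricSpace X] [IsCAT0 X]

lemma line_unique {c c' : ℝ → X} (hc : Isometry c) (hc' : Isometry c') {δ : ℝ} (hδ : 0 < δ)
    (h : ∀ i : ℤ, c (i * δ) = c' (i * δ)) (t : ℝ) : c t = c' t := by
  obtain ⟨n, hn⟩ := exists_nat_gt (|t| / δ)
  rw [div_lt_iff₀ hδ] at hn
  have h1 := neg_abs_le t
  have h2 := le_abs_self t
  have hpos : 0 < (n : ℝ) * δ := lt_of_le_of_lt (abs_nonneg t) hn
  have hl : (t + n * δ) / (2 * (n * δ)) ∈ Icc (0 : ℝ) 1 := by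
    constructor
    · apply div_nonneg <;> linarith
    · rw [div_le_one (by linarith)]; linarith
  have e : (1 - (t + n * δ) / (2 * (n * δ))) * (-(n * δ)) + (t + n * δ) / (2 * (n * δ)) * (n * δ)
      = t := by
    generalize (n : ℝ) * δ = w at hpos
    field_simp
    ring
  have a1 := line_pt hc (-(n * δ)) (n * δ) hl
  have a2 := line_pt hc' (-(n * δ)) (n * δ) hl
  rw [e] at a1 a2
  rw [a1, a2]
  have b1 := h n
  have b2 := h (-n)
  push_cast at b1 b2
  rw [neg_mul] at b2
  rw [b1, b2]

/-- a line through a geodesic integer sequence -/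
lemma exists_line_of_seq {u : ℤ → X} {δ : ℝ} (hδ : 0 < δ)
    (hu : ∀ i j : ℤ, dist (u i) (u j) = |(i : ℝ) - j| * δ) :
    ∃ c : ℝ → X, Isometry c ∧ ∀ i : ℤ, c (i * δ) = u i := by
  -- points at level n
  set P : ℕ → ℝ → X := fun n t => pt (u (-n)) (u n) ((t + n * δ) / (2 * (n * δ))) with hP
  have hmem : ∀ (n : ℕ) (t : ℝ), 0 < n → |t| ≤ n * δ →
      (t + n * δ) / (2 * (n * δ)) ∈ Icc (0 : ℝ) 1 := by
    intro n t hn ht
    have hn' : (0 : ℝ) < n := by exact_mod_cast hn
    have h1 := neg_abs_le t
    have h2 := le_abs_self t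
    have hpos : 0 < (n : ℝ) * δ := by positivity
    constructor
    · apply div_nonneg <;> linarith
    · rw [div_le_one (by linarith)]; linarith
  have hlen : ∀ n : ℕ, dist (u (-n)) (u n) = 2 * (n * δ) := by
    intro n
    rw [hu]
    push_cast
    have : |-(n : ℝ) - n| = 2 * n := by
      rw [← neg_add', abs_neg, abs_of_nonneg (by positivity)]; ring
    rw [this]; ring
  have hle : ∀ (n m : ℕ) (t : ℝ), 0 < n → n ≤ m → |t| ≤ n * δ → P n t = P m t := by
    intro n m t hn hnm ht
    have hn' : (0 : ℝ) < n := by exact_mod_cast hn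
    have hnm' : (n : ℝ) ≤ m := by exact_mod_cast hnm
    have hm' : (0 : ℝ) < m := by linarith
    have ha : ((m : ℝ) - n) / (2 * m) ∈ Icc (0 : ℝ) 1 := by
      constructor
      · apply div_nonneg <;> linarith
      · rw [div_le_one (by linarith)]; linarith
    have hb : ((m : ℝ) + n) / (2 * m) ∈ Icc (0 : ℝ) 1 := by
      constructor
      · apply div_nonneg <;> linarith
      · rw [div_le_one (by linarith)]; linarith
    have e1 : u (-n) = pt (u (-m)) (u m) (((m : ℝ) - n) / (2 * m)) := by
      apply eq_pt ha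
      · rw [hlen, hu]
        push_cast
        have : |-(m : ℝ) - -(n : ℝ)| = m - n := by
          rw [abs_of_nonpos (by linarith)]; ring
        rw [this]
        field_simp
      · rw [hlen, hu]
        push_cast
        have : |-(n : ℝ) - (m : ℝ)| = m + n := by
          rw [abs_of_nonpos (by linarith)]; ring
        rw [this]
        field_simp
        ring
    have e2 : u n = pt (u (-m)) (u m) (((m : ℝ) + n) / (2 * m)) := by
      apply eq_pt hb
      · rw [hlen, hu]
        push_cast
        have : |-(m : ℝ) - (n : ℝ)| = m + n := by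
          rw [abs_of_nonpos (by linarith)]; ring
        rw [this]
        field_simp
      · rw [hlen, hu]
        push_cast
        have : |(n : ℝ) - (m : ℝ)| = m - n := by
          rw [abs_of_nonpos (by linarith)]; ring
        rw [this]
        field_simp
        ring
    show pt (u (-n)) (u n) _ = pt (u (-m)) (u m) _
    rw [e1, e2, pt_pt_pt _ _ ha hb (hmem n t hn ht)]
    congr 1
    field_simp
    ring
  -- the line
  have hN : ∀ t : ℝ, ∃ n : ℕ, 0 < n ∧ |t| ≤ n * δ := by
    intro t
    obtain ⟨n, hn⟩ := exists_nat_gt (|t| / δ)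
    rw [div_lt_iff₀ hδ] at hn
    refine ⟨n, ?_, hn.le⟩
    have : 0 < (n : ℝ) * δ := lt_of_le_of_lt (abs_nonneg t) hn
    have h2 : (0 : ℝ) < n := pos_of_mul_pos_left this hδ.le
    exact_mod_cast h2
  choose N hN0 hN1 using hN
  have hcP : ∀ (t : ℝ) (m : ℕ), 0 < m → |t| ≤ m * δ → P (N t) t = P m t := by
    intro t m hm ht
    rcases le_total (N t) m with h | h
    · exact hle _ _ t (hN0 t) h (hN1 t)
    · exact (hle _ _ t hm h ht).symm
  refine ⟨fun t => P (N t) t, ?_, ?_⟩
  · apply Isometry.of_dist_eq
    intro s t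
    set m := max (N s) (N t) with hm
    have hm0 : 0 < m := lt_of_lt_of_le (hN0 s) (le_max_left _ _)
    have hm0' : (0 : ℝ) < m := by exact_mod_cast hm0
    have hs : |s| ≤ m * δ := by
      have h1 : (N s : ℝ) ≤ m := by exact_mod_cast le_max_left _ _
      have := hN1 s
      nlinarith
    have ht : |t| ≤ m * δ := by
      have h1 : (N t : ℝ) ≤ m := by exact_mod_cast le_max_right _ _
      have := hN1 t
      nlinarith
    show dist (P (N s) s) (P (N t) t) = dist s t
    rw [hcP s m hm0 hs, hcP t m hm0 ht]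
    show dist (pt _ _ _) (pt _ _ _) = _
    rw [dist_pt_pt _ _ (hmem m s hm0 hs) (hmem m t hm0 ht), hlen, ← sub_div, abs_div,
      abs_of_pos (show 0 < 2 * ((m : ℝ) * δ) by positivity),
      div_mul_cancel₀ _ (by positivity), Real.dist_eq]
    congr 1
    ring
  · intro i
    set m := max (N (i * δ)) (i.natAbs + 1) with hm
    have hm0 : 0 < m := lt_of_lt_of_le (hN0 _) (le_max_left _ _)
    have hm0' : (0 : ℝ) < m := by exact_mod_cast hm0
    have hi : (i.natAbs : ℝ) ≤ m := by
      have : i.natAbs ≤ m := (Nat.le_succ _).trans (le_max_right _ _)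
      exact_mod_cast this
    have hi' : |(i : ℝ)| ≤ m := by
      have h1 : ((i.natAbs : ℤ) : ℝ) = |(i : ℝ)| := by
        rw [Int.natCast_natAbs]; push_cast; rfl
      rw [← h1]
      exact_mod_cast hi
    have him : |(i : ℝ) * δ| ≤ m * δ := by
      rw [abs_mul, abs_of_pos hδ]
      exact mul_le_mul_of_nonneg_right hi' hδ.le
    show P (N (i * δ)) (i * δ) = u i
    rw [hcP _ m hm0 him]
    symm
    have habs := abs_le.mp hi'
    apply eq_pt (hmem m _ hm0 him)
    · rw [hlen, hu]
      push_cast
      have : |-(m : ℝ) - (i : ℝ)| = m + i := by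
        rw [abs_of_nonpos (by linarith)]; ring
      rw [this]
      field_simp
      ring
    · rw [hlen, hu]
      push_cast
      have : |(i : ℝ) - (m : ℝ)| = m - i := by
        rw [abs_of_nonpos (by linarith)]; ring
      rw [this]
      field_simp
      ring

end Lines

/-! ### axes -/

section Axis

variable {G X : Type*} [Group G] [MetricSpace X] [IsCAT0 X] [ProperSpace X]
  [MulAction G X] [IsIsometricSMul G X] [ProperlyDiscontinuousSMul G X]

lemma exists_min_disp [Nonempty X] (hcoc : Cocompact G X) (g : G) :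
    ∃ x : X, ∀ y : X, dist x (g • x) ≤ dist y (g • y) := by
  obtain ⟨K, hK, hcov⟩ := hcoc
  obtain ⟨x0⟩ := (inferInstance : Nonempty X)
  set r := dist x0 (g • x0) + 1 with hr
  set S : Set G := {g' | (∃ h, g' = h * g * h⁻¹) ∧ ∃ y ∈ K, dist y (g' • y) < r} with hS
  have hSfin : S.Finite := (finite_displace (G := G) hK r).subset (fun g' h => h.2)
  have hconj : ∀ (h : G) (x : X), dist (h • x) ((h * g * h⁻¹) • h • x) = dist x (g • x) := by
    intro h x
    rw [smul_smul, inv_mul_cancel_right, mul_smul, dist_smul]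
  have hSne : S.Nonempty := by
    obtain ⟨h, hh⟩ := hcov x0
    refine ⟨h * g * h⁻¹, ⟨h, rfl⟩, h • x0, hh, ?_⟩
    rw [hconj]
    linarith
  have hKne : K.Nonempty := by
    obtain ⟨h, hh⟩ := hcov x0
    exact ⟨_, hh⟩
  have hmin : ∀ g' : G, ∃ y ∈ K, ∀ z ∈ K, dist y (g' • y) ≤ dist z (g' • z) := by
    intro g'
    obtain ⟨y, hy, hym⟩ := hK.exists_isMinOn hKne (continuous_disp g').continuousOn
    exact ⟨y, hy, fun z hz => hym hz⟩
  choose y hyK hym using hmin
  obtain ⟨g', hg', hg'min⟩ := hSfin.exists_minimalFor (fun g' => dist (y g') (g' • y g')) S hSne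
  obtain ⟨⟨h, hh⟩, z, hz, hzr⟩ := hg'
  refine ⟨h⁻¹ • y g', fun x => ?_⟩
  have e1 : dist (h⁻¹ • y g') (g • h⁻¹ • y g') = dist (y g') (g' • y g') := by
    rw [← hconj h (h⁻¹ • y g'), smul_inv_smul, ← hh]
  rw [e1]
  obtain ⟨k, hk⟩ := hcov x
  rw [← hconj k x]
  by_cases hlt : dist (k • x) ((k * g * k⁻¹) • k • x) < r
  · have hmem : k * g * k⁻¹ ∈ S := ⟨⟨k, rfl⟩, _, hk, hlt⟩
    have h1 : dist (y g') (g' • y g') ≤ dist (y (k * g * k⁻¹)) ((k * g * k⁻¹) • y (k * g * k⁻¹)) := by
      by_contra hcon
      push Not at hcon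
      have := hg'min hmem hcon.le
      linarith
    exact h1.trans (hym _ _ hk)
  · push Not at hlt
    have h1 := hym g' z hz
    linarith

lemma finite_stab (x : X) : {g : G | g • x = x}.Finite := by
  apply (finite_near (G := G) x x 0).subset
  intro g hg
  show dist x (g • x) ≤ 0
  have hg' : g • x = x := hg
  rw [hg', dist_self]

/-- elements of infinite order have axes -/
theorem exists_axis [Nonempty X] (hcoc : Cocompact G X) {g : G}
    (hg : ∀ n : ℕ, 0 < n → g ^ n ≠ 1) :
    ∃ c : ℝ → X, Isometry c ∧ ∃ l : ℝ, 0 < l ∧ ∀ t, g • c t = c (t + l) := by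
  obtain ⟨x, hx⟩ := exists_min_disp hcoc g
  set δ := dist x (g • x) with hδ
  have hδpos : 0 < δ := by
    by_contra hcon
    push Not at hcon
    have h0 : dist x (g • x) = 0 := le_antisymm hcon dist_nonneg
    have hfix : g • x = x := (dist_eq_zero.mp h0).symm
    have hfixn : ∀ n : ℕ, g ^ n • x = x := by
      intro n
      induction n with
      | zero => simp
      | succ n ih => rw [pow_succ, mul_smul, hfix, ih]
    have hfin := finite_stab (G := G) x
    have hinf : (range (fun n : ℕ => g ^ n)).Infinite := by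
      apply infinite_range_of_injective
      intro m n hmn
      by_contra hne
      rcases lt_or_gt_of_ne hne with h | h
      · have h1 : g ^ (n - m) = 1 := by
          have h2 : g ^ m * g ^ (n - m) = g ^ m := by
            rw [← pow_add, Nat.add_sub_cancel' h.le]; exact hmn.symm
          exact mul_eq_left.mp h2
        exact hg _ (Nat.sub_pos_of_lt h) h1
      · have h1 : g ^ (m - n) = 1 := by
          have h2 : g ^ n * g ^ (m - n) = g ^ n := by
            rw [← pow_add, Nat.add_sub_cancel' h.le]; exact hmn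
          exact mul_eq_left.mp h2
        exact hg _ (Nat.sub_pos_of_lt h) h1
    exact hinf (hfin.subset (by rintro _ ⟨n, rfl⟩; exact hfixn n))
  -- the orbit sequence
  set u : ℕ → X := fun n => g ^ n • x with hu
  have hsucc : ∀ n, u (n + 1) = g • u n := by
    intro n; simp only [hu]; rw [pow_succ', mul_smul]
  have h1 : ∀ i, dist (u i) (u (i + 1)) = δ := by
    intro i
    simp only [hu]
    rw [pow_succ, mul_smul, dist_smul]
  have h2 : ∀ i, dist (u i) (u (i + 2)) = 2 * δ := by
    intro i
    apply le_antisymm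
    · have := dist_triangle (u i) (u (i + 1)) (u (i + 2))
      rw [h1 i, h1 (i + 1)] at this
      linarith
    · have e1 : g • pt (u i) (u (i + 1)) (1 / 2) = pt (u (i + 1)) (u (i + 2)) (1 / 2) := by
        rw [smul_pt _ _ _ half_mem_I, ← hsucc, ← hsucc]
      have e2 := hx (pt (u i) (u (i + 1)) (1 / 2))
      rw [e1, pt_comm (u i) (u (i + 1)) half_mem_I] at e2
      have e5 : (1 : ℝ) - 1 / 2 = 1 / 2 := by norm_num
      rw [e5] at e2
      have e6 := dist_pt_pt_left_le (u (i + 1)) (u i) (u (i + 2)) half_mem_I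
      linarith
  have hDR := seq_isDR h1 h2
  set v : ℤ → X := fun i => g ^ i • x with hv
  have hvd : ∀ i j : ℤ, dist (v i) (v j) = |(i : ℝ) - j| * δ := by
    have key : ∀ (i : ℤ) (k : ℕ), dist (v i) (v (i + k)) = k * δ := by
      intro i k
      simp only [hv]
      rw [zpow_add, mul_smul, dist_smul, zpow_natCast]
      have := hDR 0 k
      simp only [hu, pow_zero, one_smul] at this
      rw [this]
      have e : |((0 : ℕ) : ℝ) - (k : ℝ)| = k := by
        rw [Nat.cast_zero, zero_sub, abs_neg, abs_of_nonneg (Nat.cast_nonneg k)]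
      rw [e, mul_comm]
    intro i j
    rcases le_total i j with h | h
    · obtain ⟨k, rfl⟩ := Int.exists_add_of_le h
      rw [key]
      push_cast
      have : (i : ℝ) - (i + k) = -k := by ring
      rw [this, abs_neg, abs_of_nonneg (Nat.cast_nonneg k)]
    · obtain ⟨k, rfl⟩ := Int.exists_add_of_le h
      rw [dist_comm, key]
      push_cast
      have : ((j : ℝ) + k) - j = k := by ring
      rw [this, abs_of_nonneg (Nat.cast_nonneg k)]
  obtain ⟨c, hc, hcv⟩ := exists_line_of_seq hδpos hvd
  refine ⟨c, hc, δ, hδpos, ?_⟩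
  intro t
  have hgc : Isometry (fun t => g • c t) := (isometry_smul X g).comp hc
  have hadd := isometry_comp_add hc δ
  apply line_unique hgc hadd hδpos
  intro i
  show g • c (i * δ) = c (i * δ + δ)
  rw [hcv]
  have e : (i : ℝ) * δ + δ = ((i + 1 : ℤ) : ℝ) * δ := by push_cast; ring
  rw [e, hcv]
  simp only [hv]
  rw [add_comm, zpow_add, zpow_one, mul_smul]

/-- In a line no line bounds a flat half-plane. -/
lemma not_boundsHalfPlane_of_surjective {X : Type*} [MetricSpace X] {c : ℝ → X}
    (hc : Isometry c) (hs : Function.Surjective c) (c' : ℝ → X) : ¬ BoundsHalfPlane c' := by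
  rintro ⟨F, _, hF⟩
  obtain ⟨a, ha⟩ := hs (F 0 0)
  obtain ⟨b, hb⟩ := hs (F 1 0)
  obtain ⟨d, hd⟩ := hs (F 0 1)
  have h1 := hF 0 0 1 0 (le_refl _) (le_refl _)
  have h2 := hF 0 0 0 1 (le_refl _) zero_le_one
  have h3 := hF 1 0 0 1 (le_refl _) zero_le_one
  rw [← ha, ← hb, hc.dist_eq, Real.dist_eq, sq_abs] at h1
  rw [← ha, ← hd, hc.dist_eq, Real.dist_eq, sq_abs] at h2
  rw [← hb, ← hd, hc.dist_eq, Real.dist_eq, sq_abs] at h3
  -- (a-b)^2 = 1, (a-d)^2=1, (b-d)^2 = 2
  have h4 : (a - b) * (a - b) = 1 := by nlinarith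
  have h5 : (a - d) * (a - d) = 1 := by nlinarith
  rcases mul_self_eq_one_iff.mp h4 with h | h <;> rcases mul_self_eq_one_iff.mp h5 with h' | h' <;>
    · have e : b - d = (a - d) - (a - b) := by ring
      rw [e, h, h'] at h3
      norm_num at h3

end Axis

end Pool.Agent.H29
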