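import Pool.Agent.H29.Defs

/-!
# CAT(0) spaces: elementary facts derived from the CN inequality of Bruhat and Tits
-/

open Set Filter Topology

namespace Pool.Agent.H29

lemma midconvex_bound {g : ℝ → ℝ} (hc : ContinuousOn g (Icc 0 1))
    (hm : ∀ s ∈ Icc (0 : ℝ) 1, ∀ t ∈ Icc (0 : ℝ) 1, g ((s + t) / 2) ≤ (g s + g t) / 2)
    {t : ℝ} (ht : t ∈ Icc (0 : ℝ) 1) : g t ≤ (1 - t) * g 0 + t * g 1 := by
  set φ : ℝ → ℝ := fun t => g t - ((1 - t) * g 0 + t * g 1) with hφ
  have hφc : ContinuousOn φ (Icc 0 1) := by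
    apply hc.sub
    fun_prop
  have hφm : ∀ s ∈ Icc (0 : ℝ) 1, ∀ t ∈ Icc (0 : ℝ) 1, φ ((s + t) / 2) ≤ (φ s + φ t) / 2 := by
    intro s hs t ht
    have := hm s hs t ht
    simp only [hφ]
    linarith
  by_contra hcon
  push Not at hcon
  have hpos : 0 < φ t := by simp only [hφ]; linarith
  obtain ⟨m, hmI, hmax⟩ := isCompact_Icc.exists_isMaxOn ⟨t, ht⟩ hφc
  set M := φ m with hM
  have hMpos : 0 < M := lt_of_lt_of_le hpos (hmax ht)
  set S : Set ℝ := {s | s ∈ Icc (0 : ℝ) 1 ∧ φ s = M} with hS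
  have hSclosed : IsClosed S := by
    have : S = Icc (0 : ℝ) 1 ∩ φ ⁻¹' {M} := by
      ext s; simp [hS]
    rw [this]
    exact hφc.preimage_isClosed_of_isClosed isClosed_Icc isClosed_singleton
  have hSne : S.Nonempty := ⟨m, hmI, rfl⟩
  have hSbdd : BddBelow S := ⟨0, fun s hs => hs.1.1⟩
  have hs0 : sInf S ∈ S := hSclosed.csInf_mem hSne hSbdd
  set s0 := sInf S with hs0def
  have h0 : φ 0 = 0 := by simp [hφ]
  have h1 : φ 1 = 0 := by simp [hφ]
  have hs0ne0 : s0 ≠ 0 := by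
    intro h
    have := hs0.2
    rw [h, h0] at this
    linarith
  have hs0ne1 : s0 ≠ 1 := by
    intro h
    have := hs0.2
    rw [h, h1] at this
    linarith
  have hs0pos : 0 < s0 := lt_of_le_of_ne hs0.1.1 (Ne.symm hs0ne0)
  have hs0lt : s0 < 1 := lt_of_le_of_ne hs0.1.2 hs0ne1
  set δ := min s0 (1 - s0) with hδ
  have hδpos : 0 < δ := lt_min hs0pos (by linarith)
  have hδ1 : δ ≤ s0 := min_le_left _ _
  have hδ2 : δ ≤ 1 - s0 := min_le_right _ _
  have hA : s0 - δ ∈ Icc (0 : ℝ) 1 := ⟨by linarith, by linarith⟩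
  have hB : s0 + δ ∈ Icc (0 : ℝ) 1 := ⟨by linarith, by linarith⟩
  have hmid := hφm _ hA _ hB
  have e : (s0 - δ + (s0 + δ)) / 2 = s0 := by ring
  rw [e, hs0.2] at hmid
  have hAlt : φ (s0 - δ) < M := by
    have hle : φ (s0 - δ) ≤ M := hmax hA
    refine lt_of_le_of_ne hle ?_
    intro h
    have : s0 - δ ∈ S := ⟨hA, h⟩
    have := csInf_le hSbdd this
    linarith
  have hBle : φ (s0 + δ) ≤ M := hmax hB
  linarith

section

variable {X : Type*} [MetricSpace X] [IsCAT0 X]

/-- auxiliary: points on a geodesic at a given fraction, with the CN inequality for that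
fraction -/
lemma exists_pt_aux (x y : X) : ∃ γ : ℝ → X,
    (∀ t ∈ Icc (0 : ℝ) 1, dist x (γ t) = t * dist x y ∧ dist (γ t) y = (1 - t) * dist x y) ∧
    (∀ s ∈ Icc (0 : ℝ) 1, ∀ t ∈ Icc (0 : ℝ) 1, dist (γ s) (γ t) = |s - t| * dist x y) ∧
    (∀ p : X, ∀ t ∈ Icc (0 : ℝ) 1, dist p (γ t) ^ 2 ≤
      (1 - t) * dist p x ^ 2 + t * dist p y ^ 2 - t * (1 - t) * dist x y ^ 2) := by
  obtain ⟨γ, h0, h1, hγ⟩ := IsCAT0.geodesic x y
  set L := dist x y with hL
  have hLnn : 0 ≤ L := dist_nonneg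
  have hmem : ∀ t ∈ Icc (0 : ℝ) 1, t * L ∈ Icc (0 : ℝ) L := by
    intro t ht
    exact ⟨mul_nonneg ht.1 hLnn, mul_le_of_le_one_left hLnn ht.2⟩
  have hd : ∀ s ∈ Icc (0 : ℝ) 1, ∀ t ∈ Icc (0 : ℝ) 1,
      dist (γ (s * L)) (γ (t * L)) = |s - t| * L := by
    intro s hs t ht
    rw [hγ _ (hmem s hs) _ (hmem t ht), ← sub_mul, abs_mul, abs_of_nonneg hLnn]
  have z0 : (0 : ℝ) ∈ Icc (0 : ℝ) 1 := ⟨le_refl _, zero_le_one⟩
  have z1 : (1 : ℝ) ∈ Icc (0 : ℝ) 1 := ⟨zero_le_one, le_refl _⟩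
  have e0 : γ (0 * L) = x := by rw [zero_mul, h0]
  have e1 : γ (1 * L) = y := by rw [one_mul, h1]
  refine ⟨fun t => γ (t * L), ?_, hd, ?_⟩
  · intro t ht
    constructor
    · have := hd 0 z0 t ht
      rw [e0] at this
      rw [this, zero_sub, abs_neg, abs_of_nonneg ht.1]
    · have := hd t ht 1 z1
      rw [e1] at this
      rw [this, abs_sub_comm, abs_of_nonneg (by linarith [ht.2])]
  · intro p t ht
    set g : ℝ → ℝ := fun t => dist p (γ (t * L)) ^ 2 - t ^ 2 * L ^ 2 with hg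
    have hgc : ContinuousOn g (Icc 0 1) := by
      have h1 : ContinuousOn (fun t => γ (t * L)) (Icc 0 1) := by
        have : LipschitzOnWith (Real.toNNReal L) (fun t => γ (t * L)) (Icc 0 1) := by
          apply LipschitzOnWith.of_dist_le_mul
          intro s hs t ht
          rw [hd s hs t ht, Real.coe_toNNReal _ hLnn, Real.dist_eq, mul_comm]
        exact this.continuousOn
      have h2 : ContinuousOn (fun t => dist p (γ (t * L))) (Icc 0 1) :=
          (continuous_const.dist continuous_id).comp_continuousOn h1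
      exact (h2.pow 2).sub (by fun_prop)
    have hgm : ∀ s ∈ Icc (0 : ℝ) 1, ∀ t ∈ Icc (0 : ℝ) 1,
        g ((s + t) / 2) ≤ (g s + g t) / 2 := by
      intro s hs t ht
      have hmm : (s + t) / 2 ∈ Icc (0 : ℝ) 1 := by
        constructor
        · linarith [hs.1, ht.1]
        · linarith [hs.2, ht.2]
      have q1 : dist (γ (s * L)) (γ ((s + t) / 2 * L)) = dist (γ (s * L)) (γ (t * L)) / 2 := by
        rw [hd s hs _ hmm, hd s hs t ht]
        have : s - (s + t) / 2 = (s - t) / 2 := by ring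
        rw [this, abs_div, abs_of_pos (by norm_num : (0:ℝ) < 2)]
        ring
      have q2 : dist (γ ((s + t) / 2 * L)) (γ (t * L)) = dist (γ (s * L)) (γ (t * L)) / 2 := by
        rw [hd _ hmm t ht, hd s hs t ht]
        have : (s + t) / 2 - t = (s - t) / 2 := by ring
        rw [this, abs_div, abs_of_pos (by norm_num : (0:ℝ) < 2)]
        ring
      have := IsCAT0.cn p _ _ _ q1 q2
      rw [hd s hs t ht] at this
      have habs : (|s - t| * L) ^ 2 = (s - t) ^ 2 * L ^ 2 := by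
        rw [mul_pow, sq_abs]
      rw [habs] at this
      simp only [hg]
      nlinarith [this]
    have := midconvex_bound hgc hgm ht
    simp only [hg] at this
    rw [e0, e1] at this
    nlinarith [this]

lemma uniq_pt {x y z z' : X} {t : ℝ} (ht : t ∈ Icc (0 : ℝ) 1)
    (h1 : dist x z = t * dist x y) (h2 : dist z y = (1 - t) * dist x y)
    (h1' : dist x z' = t * dist x y) (h2' : dist z' y = (1 - t) * dist x y) : z = z' := by
  obtain ⟨γ, hγ1, _, hγ3⟩ := exists_pt_aux x y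
  have key : ∀ w : X, dist x w = t * dist x y → dist w y = (1 - t) * dist x y → w = γ t := by
    intro w hw1 hw2
    have := hγ3 w t ht
    rw [dist_comm w x, hw1, hw2] at this
    have h0 : dist w (γ t) ^ 2 ≤ 0 := by
      nlinarith [this]
    have h0' : dist w (γ t) = 0 := by
      have := sq_nonneg (dist w (γ t))
      exact pow_eq_zero_iff (two_ne_zero) |>.mp (le_antisymm h0 this)
    exact dist_eq_zero.mp h0'
  rw [key z h1 h2, key z' h1' h2']

open Classical in
/-- The point of the geodesic segment `[x,y]` at the fraction `t` of the way (for `t ∈ [0,1]`). -/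
noncomputable def pt (x y : X) (t : ℝ) : X := (exists_pt_aux x y).choose t

lemma dist_left_pt (x y : X) {t : ℝ} (ht : t ∈ Icc (0 : ℝ) 1) :
    dist x (pt x y t) = t * dist x y :=
  ((exists_pt_aux x y).choose_spec.1 t ht).1

lemma dist_pt_right (x y : X) {t : ℝ} (ht : t ∈ Icc (0 : ℝ) 1) :
    dist (pt x y t) y = (1 - t) * dist x y :=
  ((exists_pt_aux x y).choose_spec.1 t ht).2

lemma dist_pt_pt (x y : X) {s t : ℝ} (hs : s ∈ Icc (0 : ℝ) 1) (ht : t ∈ Icc (0 : ℝ) 1) :
    dist (pt x y s) (pt x y t) = |s - t| * dist x y :=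
  (exists_pt_aux x y).choose_spec.2.1 s hs t ht

lemma cn_pt (p x y : X) {t : ℝ} (ht : t ∈ Icc (0 : ℝ) 1) :
    dist p (pt x y t) ^ 2 ≤
      (1 - t) * dist p x ^ 2 + t * dist p y ^ 2 - t * (1 - t) * dist x y ^ 2 :=
  (exists_pt_aux x y).choose_spec.2.2 p t ht

lemma eq_pt {x y z : X} {t : ℝ} (ht : t ∈ Icc (0 : ℝ) 1)
    (h1 : dist x z = t * dist x y) (h2 : dist z y = (1 - t) * dist x y) : z = pt x y t :=
  uniq_pt ht h1 h2 (dist_left_pt x y ht) (dist_pt_right x y ht)

lemma zero_mem_I : (0 : ℝ) ∈ Icc (0 : ℝ) 1 := ⟨le_refl _, zero_le_one⟩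
lemma one_mem_I : (1 : ℝ) ∈ Icc (0 : ℝ) 1 := ⟨zero_le_one, le_refl _⟩
lemma half_mem_I : (1 / 2 : ℝ) ∈ Icc (0 : ℝ) 1 := ⟨by norm_num, by norm_num⟩
lemma symm_mem_I {t : ℝ} (ht : t ∈ Icc (0 : ℝ) 1) : 1 - t ∈ Icc (0 : ℝ) 1 :=
  ⟨by linarith [ht.2], by linarith [ht.1]⟩

@[simp] lemma pt_zero (x y : X) : pt x y 0 = x := by
  have := dist_left_pt x y zero_mem_I
  rw [zero_mul] at this
  exact (dist_eq_zero.mp this).symm

@[simp] lemma pt_one (x y : X) : pt x y 1 = y := by
  have := dist_pt_right x y one_mem_I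
  rw [sub_self, zero_mul] at this
  exact dist_eq_zero.mp this

lemma pt_self (x : X) {t : ℝ} (ht : t ∈ Icc (0 : ℝ) 1) : pt x x t = x := by
  have := dist_left_pt x x ht
  rw [dist_self, mul_zero] at this
  exact (dist_eq_zero.mp this).symm

lemma pt_comm (x y : X) {t : ℝ} (ht : t ∈ Icc (0 : ℝ) 1) : pt x y t = pt y x (1 - t) := by
  apply eq_pt (symm_mem_I ht)
  · rw [dist_comm y, dist_pt_right x y ht, dist_comm y x]
  · rw [dist_comm _ x, dist_left_pt x y ht, dist_comm y x]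
    ring

/-- If `z` lies between `x` and `y` metrically, it is a point of the geodesic. -/
lemma eq_pt_of_dist_add {x y z : X} (h : dist x z + dist z y = dist x y) (hxy : x ≠ y) :
    z = pt x y (dist x z / dist x y) := by
  have hpos : 0 < dist x y := dist_pos.mpr hxy
  have ht : dist x z / dist x y ∈ Icc (0 : ℝ) 1 := by
    constructor
    · positivity
    · rw [div_le_one hpos]
      have := dist_nonneg (x := z) (y := y)
      linarith
  apply eq_pt ht
  · field_simp
  · field_simp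
    linarith

/-- sub-segment: the fraction `s` of the segment from `x` to `pt x y t` -/
lemma pt_pt (x y : X) {s t : ℝ} (hs : s ∈ Icc (0 : ℝ) 1) (ht : t ∈ Icc (0 : ℝ) 1) :
    pt x (pt x y t) s = pt x y (s * t) := by
  have hst : s * t ∈ Icc (0 : ℝ) 1 :=
    ⟨mul_nonneg hs.1 ht.1, mul_le_one₀ hs.2 ht.1 ht.2⟩
  symm
  apply eq_pt hs
  · rw [dist_left_pt x y hst, dist_left_pt x y ht]
    ring
  · rw [dist_pt_pt x y hst ht, dist_left_pt x y ht]
    have : |s * t - t| = (1 - s) * t := by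
      have h : s * t - t = -((1 - s) * t) := by ring
      rw [h, abs_neg, abs_of_nonneg (mul_nonneg (by linarith [hs.2]) ht.1)]
    rw [this]
    ring

/-- affine reparametrisation of a segment -/
lemma pt_pt_pt (x y : X) {a b s : ℝ} (ha : a ∈ Icc (0 : ℝ) 1) (hb : b ∈ Icc (0 : ℝ) 1)
    (hs : s ∈ Icc (0 : ℝ) 1) :
    pt (pt x y a) (pt x y b) s = pt x y ((1 - s) * a + s * b) := by
  have hm : (1 - s) * a + s * b ∈ Icc (0 : ℝ) 1 := by
    constructor
    · have := ha.1; have := hb.1; have := hs.1; have := hs.2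
      nlinarith [mul_nonneg (by linarith : (0:ℝ) ≤ 1 - s) ha.1, mul_nonneg hs.1 hb.1]
    · have h1 : (1 - s) * a ≤ (1 - s) * 1 :=
        mul_le_mul_of_nonneg_left ha.2 (by linarith [hs.2])
      have h2 : s * b ≤ s * 1 := mul_le_mul_of_nonneg_left hb.2 hs.1
      linarith
  symm
  apply eq_pt hs
  · rw [dist_pt_pt x y ha hm, dist_pt_pt x y ha hb]
    have : a - ((1 - s) * a + s * b) = s * (a - b) := by ring
    rw [this, abs_mul, abs_of_nonneg hs.1]
    ring
  · rw [dist_pt_pt x y hm hb, dist_pt_pt x y ha hb]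
    have : ((1 - s) * a + s * b) - b = (1 - s) * (a - b) := by ring
    rw [this, abs_mul, abs_of_nonneg (by linarith [hs.2] : (0:ℝ) ≤ 1 - s)]
    ring

lemma sq_le_of_cauchy {A B u v : ℝ} (hA : 0 < A) (hB : 0 < B) :
    (u + v) ^ 2 ≤ (A + B) * (u ^ 2 / A + v ^ 2 / B) := by
  have h : (A + B) * (u ^ 2 / A + v ^ 2 / B) - (u + v) ^ 2 = (u * B - v * A) ^ 2 / (A * B) := by
    field_simp
    ring
  have : 0 ≤ (u * B - v * A) ^ 2 / (A * B) := by positivity
  linarith

/-- Reshetnyak's quadrilateral inequality (quasi Cauchy-Schwarz inequality of Berg-Nikolaev). -/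
lemma quad (a b c d : X) :
    dist a c ^ 2 + dist b d ^ 2 ≤ dist a d ^ 2 + dist b c ^ 2 + 2 * dist a b * dist c d := by
  by_cases hab : a = b
  · subst hab
    rw [dist_self]
    linarith
  by_cases hcd : c = d
  · subst hcd
    rw [dist_self]
    linarith
  have hA : 0 < dist a b := dist_pos.mpr hab
  have hB : 0 < dist c d := dist_pos.mpr hcd
  set A := dist a b with hAdef
  set B := dist c d with hBdef
  set s := A / (A + B) with hs
  have hsI : s ∈ Icc (0 : ℝ) 1 := by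
    constructor
    · positivity
    · rw [hs, div_le_one (by linarith)]
      linarith
  set z := pt b d s with hz
  have h1 := cn_pt a b d hsI
  have h2 := cn_pt c b d hsI
  rw [← hz] at h1 h2
  have h3 : dist a c ≤ dist a z + dist z c := dist_triangle _ _ _
  have h4 : dist a c ^ 2 ≤ (dist a z + dist z c) ^ 2 :=
    pow_le_pow_left₀ dist_nonneg h3 2
  have h5 := sq_le_of_cauchy (u := dist a z) (v := dist z c) hA hB
  have e1 : 1 - s = B / (A + B) := by
    rw [hs]; field_simp; ring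
  rw [e1] at h1 h2
  rw [dist_comm c z, dist_comm c b] at h2
  have hAB : 0 < A + B := by linarith
  have k1 : (A + B) * (dist a z ^ 2 / A) ≤
      B * A + dist a d ^ 2 - B / (A + B) * dist b d ^ 2 := by
    have := mul_le_mul_of_nonneg_left h1 (le_of_lt (div_pos hAB hA))
    have e2 : (A + B) / A * dist a z ^ 2 = (A + B) * (dist a z ^ 2 / A) := by ring
    rw [e2] at this
    refine this.trans (le_of_eq ?_)
    rw [hs, ← hAdef]
    field_simp
  have k2 : (A + B) * (dist z c ^ 2 / B) ≤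
      dist b c ^ 2 + A * B - A / (A + B) * dist b d ^ 2 := by
    have := mul_le_mul_of_nonneg_left h2 (le_of_lt (div_pos hAB hB))
    have e2 : (A + B) / B * dist z c ^ 2 = (A + B) * (dist z c ^ 2 / B) := by ring
    rw [e2] at this
    refine this.trans (le_of_eq ?_)
    rw [hs, ← hBdef]
    field_simp
  have e3 : B / (A + B) * dist b d ^ 2 + A / (A + B) * dist b d ^ 2 = dist b d ^ 2 := by
    field_simp
    ring
  have h6 : (A + B) * (dist a z ^ 2 / A + dist z c ^ 2 / B) =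
    (A + B) * (dist a z ^ 2 / A) + (A + B) * (dist z c ^ 2 / B) := by ring
  nlinarith [h4, h5, k1, k2, e3, h6]

lemma dist_pt_pt_left_le (x y y' : X) {t : ℝ} (ht : t ∈ Icc (0 : ℝ) 1) :
    dist (pt x y t) (pt x y' t) ≤ t * dist y y' := by
  have h1 := cn_pt (pt x y t) x y' ht
  have h2 := cn_pt y' x y ht
  have e1 : dist (pt x y t) x = t * dist x y := by rw [dist_comm, dist_left_pt x y ht]
  rw [e1, dist_comm (pt x y t) y'] at h1
  rw [dist_comm y' x, dist_comm y' y] at h2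
  have h3 : dist (pt x y t) (pt x y' t) ^ 2 ≤ (t * dist y y') ^ 2 := by
    have ht0 := ht.1
    nlinarith [h1, mul_le_mul_of_nonneg_left h2 ht0]
  exact le_of_sq_le_sq h3 (mul_nonneg ht.1 dist_nonneg)

/-- convexity of the metric -/
lemma dist_pt_pt_le (x y x' y' : X) {t : ℝ} (ht : t ∈ Icc (0 : ℝ) 1) :
    dist (pt x y t) (pt x' y' t) ≤ (1 - t) * dist x x' + t * dist y y' := by
  have h1 := dist_pt_pt_left_le x y y' ht
  have h2 : dist (pt x y' t) (pt x' y' t) ≤ (1 - t) * dist x x' := by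
    rw [pt_comm x y' ht, pt_comm x' y' ht]
    exact dist_pt_pt_left_le y' x x' (symm_mem_I ht)
  have h3 := dist_triangle (pt x y t) (pt x y' t) (pt x' y' t)
  linarith

lemma dist_pt_le_right (p x y : X) {t : ℝ} (ht : t ∈ Icc (0 : ℝ) 1) :
    dist p (pt x y t) ≤ (1 - t) * dist p x + t * dist p y := by
  have := dist_pt_pt_le p p x y ht
  rwa [pt_self p ht] at this

end

/-- isometric embeddings commute with `pt` -/
lemma map_pt {X Y : Type*} [MetricSpace X] [IsCAT0 X] [MetricSpace Y] [IsCAT0 Y]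
    {f : X → Y} (hf : Isometry f) (x y : X) {t : ℝ} (ht : t ∈ Icc (0 : ℝ) 1) :
    f (pt x y t) = pt (f x) (f y) t := by
  apply eq_pt ht
  · rw [hf.dist_eq, hf.dist_eq, dist_left_pt x y ht]
  · rw [hf.dist_eq, hf.dist_eq, dist_pt_right x y ht]

end Pool.Agent.H29
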