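import Mathlib

/-!
# Integer valued tree-like metrics and virtually centralising translations
-/

open Set

set_option linter.unusedSectionVars false

namespace Pool.Agent.H29

/-! ### subgroups up to finite index -/

section Grp

variable {G : Type*} [Group G]

lemma infinite_inf_of_relIndex {P H : Subgroup G} (h : H.relIndex P ≠ 0)
    (hP : (P : Set G).Infinite) : ((P ⊓ H : Subgroup G) : Set G).Infinite := by
  intro hfin
  apply hP
  have h1 : Nat.card (H.subgroupOf P) * (H.subgroupOf P).index = Nat.card P :=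
    Subgroup.card_mul_index _
  have hfin' : Finite (H.subgroupOf P) := by
    have hf : Finite ((P ⊓ H : Subgroup G) : Set G) := hfin
    apply Finite.of_injective
      (fun x : H.subgroupOf P => (⟨x.1.1, x.1.2, x.2⟩ : ((P ⊓ H : Subgroup G) : Set G)))
    intro a b hab
    have : a.1.1 = b.1.1 := congrArg (fun z : ((P ⊓ H : Subgroup G) : Set G) => (z : G)) hab
    exact Subtype.ext (Subtype.ext this)
  have h2 : Nat.card (H.subgroupOf P) ≠ 0 := Nat.card_pos.ne'
  have h3 : Nat.card P ≠ 0 := by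
    rw [← h1]
    exact mul_ne_zero h2 h
  have : Finite P := Nat.finite_of_card_ne_zero h3
  exact this

lemma centralizer_conj_mem (g r h : G) :
    h ∈ Subgroup.centralizer {g * r * g⁻¹} ↔ g⁻¹ * h * g ∈ Subgroup.centralizer {r} := by
  rw [Subgroup.mem_centralizer_singleton_iff, Subgroup.mem_centralizer_singleton_iff]
  constructor
  · intro e
    calc g⁻¹ * h * g * r = g⁻¹ * (h * (g * r * g⁻¹)) * g := by group
      _ = g⁻¹ * ((g * r * g⁻¹) * h) * g := by rw [e]
      _ = r * (g⁻¹ * h * g) := by group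
  · intro e
    calc h * (g * r * g⁻¹) = g * (g⁻¹ * h * g * r) * g⁻¹ := by group
      _ = g * (r * (g⁻¹ * h * g)) * g⁻¹ := by rw [e]
      _ = g * r * g⁻¹ * h := by group

/-- virtual containment is invariant under conjugation -/
lemma relIndex_conj (g : G) (H K : Subgroup G) :
    (H.map (MulAut.conj g).toMonoidHom).relIndex (K.map (MulAut.conj g).toMonoidHom) =
      H.relIndex K :=
  Subgroup.relIndex_map_map_of_injective H K (MulAut.conj g).injective

lemma mem_map_conj (g h : G) (H : Subgroup G) :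
    h ∈ H.map (MulAut.conj g).toMonoidHom ↔ g⁻¹ * h * g ∈ H := by
  rw [Subgroup.mem_map]
  constructor
  · rintro ⟨k, hk, rfl⟩
    have : g⁻¹ * (MulAut.conj g).toMonoidHom k * g = k := by
      show g⁻¹ * (g * k * g⁻¹) * g = k
      group
    rwa [this]
  · intro hk
    refine ⟨_, hk, ?_⟩
    show g * (g⁻¹ * h * g) * g⁻¹ = h
    group

lemma map_centralizer (g r : G) : (Subgroup.centralizer {r}).map (MulAut.conj g).toMonoidHom =
    Subgroup.centralizer {g * r * g⁻¹} := by
  ext k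
  rw [mem_map_conj, centralizer_conj_mem]

lemma relIndex_mono_left {H H' K : Subgroup G} (hle : H ≤ H') (h : H.relIndex K ≠ 0) :
    H'.relIndex K ≠ 0 := fun h0 => h (Subgroup.relIndex_eq_zero_of_le_left hle h0)

lemma relIndex_mono_right {H K K' : Subgroup G} (hle : K' ≤ K) (h : H.relIndex K ≠ 0) :
    H.relIndex K' ≠ 0 := fun h0 => h (Subgroup.relIndex_eq_zero_of_le_right hle h0)

lemma relIndex_centralizer_finset [DecidableEq G] (P : Subgroup G) (R : Finset G)
    (h : ∀ ρ ∈ R, (Subgroup.centralizer {ρ}).relIndex P ≠ 0) :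
    (Subgroup.centralizer (R : Set G)).relIndex P ≠ 0 := by
  induction R using Finset.induction_on with
  | empty =>
    have : Subgroup.centralizer (((∅ : Finset G)) : Set G) = ⊤ := by
      ext k
      simp [Subgroup.mem_centralizer_iff]
    rw [this, Subgroup.relIndex_top_left]
    exact one_ne_zero
  | insert ρ R _ ih =>
    have hcz : Subgroup.centralizer ((insert ρ R : Finset G) : Set G) =
        Subgroup.centralizer {ρ} ⊓ Subgroup.centralizer (R : Set G) := by
      ext k
      simp only [Finset.coe_insert, Subgroup.mem_inf, Subgroup.mem_centralizer_iff,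
        mem_insert_iff, forall_eq_or_imp, mem_singleton_iff, forall_eq]
    rw [hcz]
    exact Subgroup.relIndex_inf_ne_zero (h ρ (Finset.mem_insert_self _ _))
      (ih (fun x hx => h x (Finset.mem_insert_of_mem hx)))

end Grp

/-! ### tree-like metrics -/

section TL

variable {V : Type*} {d : V → V → ℕ}

/-- integer valued metrics satisfying the four point condition -/
structure TreeLike (d : V → V → ℕ) : Prop where
  self : ∀ x, d x x = 0
  symm : ∀ x y, d x y = d y x
  eq_of : ∀ x y, d x y = 0 → x = y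
  tri : ∀ x y z, d x z ≤ d x y + d y z
  four : ∀ x y z w, d x y + d z w ≤ max (d x z + d y w) (d x w + d y z)

/-- betweenness -/
def Bt (d : V → V → ℕ) (x y z : V) : Prop := d x y + d y z = d x z

lemma Bt.symm (hd : TreeLike d) {x y z : V} (h : Bt d x y z) : Bt d z y x := by
  unfold Bt at *
  rw [hd.symm z y, hd.symm y x, hd.symm z x]
  omega

lemma TreeLike.pos (hd : TreeLike d) {x y : V} (h : x ≠ y) : 0 < d x y :=
  Nat.pos_of_ne_zero (fun h0 => h (hd.eq_of x y h0))

/-- a point at given distance on a segment is unique -/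
lemma Bt.unique (hd : TreeLike d) {x y z z' : V} (h : Bt d x z y) (h' : Bt d x z' y)
    (he : d x z = d x z') : z = z' := by
  unfold Bt at *
  have h4 := hd.four x y z z'
  rw [hd.symm y z', hd.symm y z] at h4
  apply hd.eq_of
  omega

/-- concatenation of overlapping segments -/
lemma Bt.concat (hd : TreeLike d) {x y z w : V} (h1 : Bt d x y z) (h2 : Bt d y z w)
    (hne : y ≠ z) : d x w = d x y + d y z + d z w := by
  unfold Bt at *
  have h4 := hd.four x z y w
  have hpos := hd.pos hne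
  have t1 := hd.tri x y w
  rw [hd.symm z y] at h4
  omega

lemma Bt.trans_left (hd : TreeLike d) {a b c e : V} (h1 : Bt d a b c) (h2 : Bt d a c e) :
    Bt d a b e := by
  have t := hd.tri b c e
  have t2 := hd.tri a b e
  unfold Bt at *
  omega

end TL

section Act

variable {G V : Type*} [Group G] [MulAction G V] {d : V → V → ℕ}

lemma Bt.smul (hiso : ∀ (g : G) v w, d (g • v) (g • w) = d v w)
    {x y z : V} (h : Bt d x y z) (g : G) : Bt d (g • x) (g • y) (g • z) := by
  unfold Bt at *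
  rw [hiso, hiso, hiso]
  exact h

/-- an element fixing the end points fixes the segment -/
lemma Bt.fix (hd : TreeLike d) (hiso : ∀ (g : G) v w, d (g • v) (g • w) = d v w)
    {x y z : V} (h : Bt d x y z) {g : G} (hx : g • x = x) (hz : g • z = z) : g • y = y := by
  have h1 := h.smul hiso g
  rw [hx, hz] at h1
  apply Bt.unique hd h1 h
  have := hiso g x y
  rw [hx] at this
  exact this

lemma map_stab (g : G) (x y : V) :
    (MulAction.stabilizer G x ⊓ MulAction.stabilizer G y).map (MulAut.conj g).toMonoidHom =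
      MulAction.stabilizer G (g • x) ⊓ MulAction.stabilizer G (g • y) := by
  ext k
  rw [mem_map_conj, Subgroup.mem_inf, Subgroup.mem_inf, MulAction.mem_stabilizer_iff,
    MulAction.mem_stabilizer_iff, MulAction.mem_stabilizer_iff, MulAction.mem_stabilizer_iff,
    mul_smul, mul_smul, mul_smul, mul_smul, inv_smul_eq_iff, inv_smul_eq_iff]

/-- `τ` translates along an axis on which `x, y, τ x, τ y` appear in this order. -/
structure TAx (d : V → V → ℕ) (τ : G) (x y : V) : Prop where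
  ne : x ≠ y
  ne' : y ≠ τ • x
  a1 : Bt d x y (τ • x)
  a2 : Bt d y (τ • x) (τ • y)

variable {τ : G} {x y : V}

lemma TAx.zpow (hiso : ∀ (g : G) v w, d (g • v) (g • w) = d v w)
    (h : TAx d τ x y) (j : ℤ) : TAx d τ (τ ^ j • x) (τ ^ j • y) := by
  have e : ∀ v : V, τ • τ ^ j • v = τ ^ j • τ • v := by
    intro v
    rw [smul_smul, smul_smul, ← zpow_one_add, ← zpow_add_one, add_comm]
  refine ⟨fun he => h.ne (MulAction.injective _ he), ?_, ?_, ?_⟩
  · rw [e]; exact fun he => h.ne' (MulAction.injective _ he)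
  · rw [e]; exact h.a1.smul hiso _
  · rw [e, e]; exact h.a2.smul hiso _

lemma TAx.rev (hd : TreeLike d) (hiso : ∀ (g : G) v w, d (g • v) (g • w) = d v w)
    (h : TAx d τ x y) : TAx d τ⁻¹ y x := by
  refine ⟨h.ne.symm, ?_, ?_, ?_⟩
  · intro he
    apply h.ne'
    rw [he, smul_inv_smul]
  · have := (h.a2.smul hiso τ⁻¹).symm hd
    rwa [inv_smul_smul, inv_smul_smul] at this
  · have := (h.a1.smul hiso τ⁻¹).symm hd
    rwa [inv_smul_smul] at this

/-- the negative side grows -/
lemma TAx.step (hd : TreeLike d) (h : TAx d τ x y) {z : V} (hz : Bt d z x y) :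
    Bt d z (τ • x) (τ • y) ∧ d z (τ • x) = d z x + d x y + d y (τ • x) := by
  have c1 := Bt.concat hd hz h.a1 h.ne
  have e1 := h.a1
  have e2 := h.a2
  have c2 : Bt d z y (τ • x) := by
    unfold Bt at *
    omega
  have c3 := Bt.concat hd c2 h.a2 h.ne'
  unfold Bt at *
  omega

lemma TAx.step_zpow (hd : TreeLike d) (hiso : ∀ (g : G) v w, d (g • v) (g • w) = d v w)
    (h : TAx d τ x y) (j : ℤ) {z : V} (hz : Bt d z (τ ^ j • x) (τ ^ j • y)) :
    Bt d z (τ ^ (j + 1) • x) (τ ^ (j + 1) • y) ∧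
      d z (τ ^ j • x) < d z (τ ^ (j + 1) • x) := by
  have h1 := (h.zpow hiso j).step hd hz
  have e : ∀ v : V, τ • τ ^ j • v = τ ^ (j + 1) • v := by
    intro v
    rw [smul_smul, ← zpow_one_add, add_comm]
  rw [e, e] at h1
  have hpos := hd.pos h.ne
  rw [hiso] at h1
  exact ⟨h1.1, by omega⟩

/-- distances grow linearly along the axis -/
lemma TAx.dist_pow (hd : TreeLike d) (hiso : ∀ (g : G) v w, d (g • v) (g • w) = d v w)
    (h : TAx d τ x y) (n : ℕ) : Bt d x (τ ^ n • x) (τ ^ n • y) ∧ n ≤ d x (τ ^ n • x) := by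
  induction n with
  | zero =>
    refine ⟨?_, Nat.zero_le _⟩
    simp only [pow_zero, one_smul]
    unfold Bt
    rw [hd.self]; omega
  | succ n ih =>
    have h1 := h.step_zpow hd hiso n (z := x) (by simpa using ih.1)
    have e : ∀ v : V, τ ^ ((n : ℤ) + 1) • v = τ ^ (n + 1) • v := by
      intro v
      rw [← zpow_natCast]
      norm_cast
    rw [e, e, zpow_natCast] at h1
    exact ⟨h1.1, by omega⟩

lemma TAx.pow_ne_one (hd : TreeLike d) (hiso : ∀ (g : G) v w, d (g • v) (g • w) = d v w)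
    (h : TAx d τ x y) (n : ℕ) (hn : 0 < n) : τ ^ n ≠ 1 := by
  intro he
  have := (h.dist_pow hd hiso n).2
  rw [he, one_smul, hd.self] at this
  omega

/-- every vertex is eventually on the negative side -/
lemma TAx.exists_neg (hd : TreeLike d) (hiso : ∀ (g : G) v w, d (g • v) (g • w) = d v w)
    (h : TAx d τ x y) (z : V) : ∃ n : ℕ, Bt d z (τ ^ n • x) (τ ^ n • y) := by
  by_contra hcon
  push Not at hcon
  have key : ∀ n : ℕ, d z (τ ^ (n + 1) • x) < d z (τ ^ n • x) := by
    intro n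
    have hn := h.zpow hiso n
    have e : ∀ v : V, τ • τ ^ (n : ℤ) • v = τ ^ (n + 1) • v := by
      intro v
      rw [zpow_natCast, smul_smul, ← pow_succ']
    obtain ⟨h1, h2, h3, h4⟩ := hn
    rw [e] at h2 h3
    rw [e, e] at h4
    rw [zpow_natCast] at h1 h2 h3 h4
    have c1 := hcon (n + 1)
    set a := τ ^ n • x
    set b := τ ^ n • y
    set a' := τ ^ (n + 1) • x
    set b' := τ ^ (n + 1) • y
    have pos1 := hd.pos h1
    have pos2 := hd.pos h2
    have f1 := hd.four z a' b b'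
    have f2 := hd.four z b a a'
    have t1 := hd.tri z a' b'
    have t2 := hd.tri z a' b
    rw [hd.symm a' b] at f1 t2
    rw [hd.symm b a] at f2
    unfold Bt at *
    omega
  have hlin : ∀ n : ℕ, d z (τ ^ n • x) + n ≤ d z x := by
    intro n
    induction n with
    | zero => simp
    | succ n ih =>
      have := key n
      omega
  have := hlin (d z x + 1)
  omega

/-! ### vertices on an axis -/

/-- `x` lies on an axis of `τ` -/
lemma axis_lin (hd : TreeLike d) (hiso : ∀ (g : G) v w, d (g • v) (g • w) = d v w)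
    (h : d x (τ • τ • x) = 2 * d x (τ • x)) (hne : τ • x ≠ x) (m : ℕ) :
    d x (τ ^ m • x) = m * d x (τ • x) ∧ d x (τ ^ (m + 1) • x) = (m + 1) * d x (τ • x) := by
  induction m with
  | zero => simp [hd.self]
  | succ m ih =>
    refine ⟨ih.2, ?_⟩
    have e1 : τ ^ (m + 1) • x = τ ^ m • τ • x := by rw [pow_succ, mul_smul]
    have e2 : τ ^ (m + 1 + 1) • x = τ ^ m • τ • τ • x := by
      rw [pow_succ, pow_succ, mul_smul, mul_smul]
    have b1 : Bt d x (τ ^ m • x) (τ ^ (m + 1) • x) := by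
      unfold Bt
      rw [ih.1, ih.2, e1, hiso]; ring
    have b2 : Bt d (τ ^ m • x) (τ ^ (m + 1) • x) (τ ^ (m + 1 + 1) • x) := by
      have a1 : d (τ ^ m • x) (τ ^ m • τ • x) = d x (τ • x) := hiso _ _ _
      have a2 : d (τ ^ m • τ • x) (τ ^ m • τ • τ • x) = d x (τ • x) :=
        (hiso _ _ _).trans (hiso _ _ _)
      have a3 : d (τ ^ m • x) (τ ^ m • τ • τ • x) = 2 * d x (τ • x) := (hiso _ _ _).trans h
      unfold Bt
      rw [e1, e2, a1, a2, a3]; ring
    have hne' : τ ^ m • x ≠ τ ^ (m + 1) • x := by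
      rw [e1]
      intro he
      exact hne (MulAction.injective _ he).symm
    have c := Bt.concat hd b1 b2 hne'
    rw [c, ih.1, e1, hiso, e2, hiso, hiso]
    ring

lemma axis_dist (hd : TreeLike d) (hiso : ∀ (g : G) v w, d (g • v) (g • w) = d v w)
    (h : d x (τ • τ • x) = 2 * d x (τ • x)) (hne : τ • x ≠ x) (i : ℤ) (k : ℕ) :
    d (τ ^ i • x) (τ ^ (i + k) • x) = k * d x (τ • x) := by
  rw [zpow_add, mul_smul, hiso, zpow_natCast]
  exact (axis_lin hd hiso h hne k).1

lemma axis_tax (hd : TreeLike d) (hiso : ∀ (g : G) v w, d (g • v) (g • w) = d v w)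
    (h : d x (τ • τ • x) = 2 * d x (τ • x)) (hne : τ • x ≠ x) : TAx d (τ * τ) x (τ • x) := by
  have a1 : d (τ • x) (τ • τ • x) = d x (τ • x) := hiso _ _ _
  have a2 : d (τ • τ • x) (τ • τ • τ • x) = d x (τ • x) := (hiso _ _ _).trans a1
  have a3 : d (τ • x) (τ • τ • τ • x) = 2 * d x (τ • x) := (hiso _ _ _).trans h
  refine ⟨hne.symm, ?_, ?_, ?_⟩
  · rw [mul_smul]
    intro he
    exact hne (MulAction.injective _ he).symm
  · unfold Bt
    rw [mul_smul, a1, h]; ring
  · unfold Bt
    rw [mul_smul, mul_smul, a1, a2, a3]; ring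

lemma axis_pair_aux (hd : TreeLike d) {σ : G} {x y P P' : V} {W : ℕ} (hW : 0 < W) (hxy : x ≠ y)
    (h1 : d y P + d y P' = 2 * W) (h2 : d x P = W) (h3 : d x P' = W) (h4 : d P' P = 2 * W)
    (h5 : d y (σ • x) = d y P + W) (h6 : d x (σ • y) = d y P' + W) (h7 : d x (σ • x) = 2 * W)
    (h8 : d y (σ • y) = 2 * W) (h9 : d (σ • x) (σ • y) = d x y) :
    TAx d σ x y ∨ TAx d σ y x := by
  have f := hd.four P' P x y
  rw [h4, hd.symm P' x, h3, hd.symm P y, hd.symm P' y, hd.symm P x, h2] at f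
  have t1 := hd.tri y x P
  have t2 := hd.tri y x P'
  have s0 := hd.symm y x
  have s1 := hd.symm (σ • y) (σ • x)
  rcases le_total (d y P) W with hc | hc
  · left
    refine ⟨hxy, ?_, ?_, ?_⟩
    · intro he
      have : d y (σ • x) = 0 := by rw [← he, hd.self]
      omega
    · unfold Bt
      omega
    · unfold Bt
      omega
  · right
    refine ⟨hxy.symm, ?_, ?_, ?_⟩
    · intro he
      have : d x (σ • y) = 0 := by rw [← he, hd.self]
      omega
    · unfold Bt
      omega
    · unfold Bt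
      omega

/-- Two different vertices of the axis of `τ` are in good position for a power of `τ`. -/
lemma axis_pair (hd : TreeLike d) (hiso : ∀ (g : G) v w, d (g • v) (g • w) = d v w)
    (hx : d x (τ • τ • x) = 2 * d x (τ • x)) (hne : τ • x ≠ x)
    (hy : d y (τ • τ • y) = 2 * d y (τ • y)) (hxy : x ≠ y) :
    ∃ m : ℕ, TAx d (τ ^ m) x y ∨ TAx d (τ ^ m) y x := by
  set L := d x (τ • x) with hL
  have hLpos : 0 < L := hd.pos hne.symm
  have hdist := axis_dist hd hiso hx hne
  rw [← hL] at hdist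
  -- far points in both directions
  obtain ⟨N, hN⟩ := (axis_tax hd hiso hx hne).exists_neg hd hiso y
  have hneinv : τ⁻¹ • x ≠ x := by
    intro he
    apply hne
    rw [inv_smul_eq_iff] at he
    exact he.symm
  have hLinv : d x (τ⁻¹ • x) = L := by
    rw [← hiso τ, smul_inv_smul, hd.symm]
  have hxinv : d x (τ⁻¹ • τ⁻¹ • x) = 2 * d x (τ⁻¹ • x) := by
    rw [hLinv, ← hx, ← hiso (τ * τ) x, mul_smul, mul_smul, smul_inv_smul, smul_inv_smul, hd.symm]
  obtain ⟨N', hN'⟩ := (axis_tax hd hiso hxinv hneinv).exists_neg hd hiso y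
  set A : ℕ := 2 * N with hA
  set B : ℕ := 2 * N' with hB
  have eN : (τ * τ) ^ N • x = τ ^ (A : ℤ) • x := by
    rw [← sq, ← pow_mul, zpow_natCast]
  have eN1 : (τ * τ) ^ N • τ • x = τ ^ ((A : ℤ) + (1 : ℕ)) • x := by
    rw [← sq, ← pow_mul, smul_smul, ← pow_succ]
    norm_cast
  have eN' : (τ⁻¹ * τ⁻¹) ^ N' • x = τ ^ (-(B : ℤ)) • x := by
    rw [← sq, ← pow_mul, inv_pow, zpow_neg, zpow_natCast]
  have eN1' : (τ⁻¹ * τ⁻¹) ^ N' • τ⁻¹ • x = τ ^ (-((B : ℤ) + 1)) • x := by
    rw [← sq, ← pow_mul, smul_smul, ← pow_succ, inv_pow, zpow_neg]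
    norm_cast
  rw [eN, eN1] at hN
  rw [eN', eN1'] at hN'
  have hstep : ∀ i : ℤ, τ ^ i • x ≠ τ ^ (i + (1 : ℕ)) • x := by
    intro i he
    have := hdist i 1
    rw [← he, hd.self] at this
    omega
  -- growth on the right
  have right : ∀ k : ℕ, d y (τ ^ ((A : ℤ) + k) • x) = d y (τ ^ (A : ℤ) • x) + k * L := by
    intro k
    rcases Nat.eq_zero_or_pos k with rfl | hk
    · simp
    · obtain ⟨k', rfl⟩ := Nat.exists_eq_add_of_le' hk
      have b2 : Bt d (τ ^ (A : ℤ) • x) (τ ^ ((A : ℤ) + (1 : ℕ)) • x)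
          (τ ^ ((A : ℤ) + ((k' + 1 : ℕ))) • x) := by
        unfold Bt
        rw [hdist, hdist]
        have e : (A : ℤ) + ((k' + 1 : ℕ) : ℤ) = (A : ℤ) + (1 : ℕ) + (k' : ℕ) := by push_cast; ring
        rw [e, hdist]; ring
      have c := Bt.concat hd hN b2 (hstep A)
      rw [c, hdist]
      have e : (A : ℤ) + ((k' + 1 : ℕ) : ℤ) = (A : ℤ) + (1 : ℕ) + (k' : ℕ) := by push_cast; ring
      rw [e, hdist]; ring
  -- growth on the left
  have hdist' : ∀ (i : ℤ) (k : ℕ), d (τ ^ i • x) (τ ^ (i - k) • x) = k * L := by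
    intro i k
    rw [hd.symm]
    have := hdist (i - k) k
    rwa [sub_add_cancel] at this
  have left : ∀ k : ℕ, d y (τ ^ (-(B : ℤ) - k) • x) = d y (τ ^ (-(B : ℤ)) • x) + k * L := by
    intro k
    rcases Nat.eq_zero_or_pos k with rfl | hk
    · simp
    · obtain ⟨k', rfl⟩ := Nat.exists_eq_add_of_le' hk
      have e0 : -((B : ℤ) + 1) = -(B : ℤ) - (1 : ℕ) := by push_cast; ring
      rw [e0] at hN'
      have e : -(B : ℤ) - ((k' + 1 : ℕ) : ℤ) = -(B : ℤ) - (1 : ℕ) - (k' : ℕ) := by push_cast; ring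
      have hne1 : τ ^ (-(B : ℤ)) • x ≠ τ ^ (-(B : ℤ) - (1 : ℕ)) • x := by
        intro he
        have := hdist' (-(B : ℤ)) 1
        rw [← he, hd.self] at this
        omega
      have b2 : Bt d (τ ^ (-(B : ℤ)) • x) (τ ^ (-(B : ℤ) - (1 : ℕ)) • x)
          (τ ^ (-(B : ℤ) - ((k' + 1 : ℕ))) • x) := by
        unfold Bt
        rw [hdist', hdist', e, hdist']; ring
      have c := Bt.concat hd hN' b2 hne1
      rw [c, hdist', e, hdist']; ring
  set fA := d y (τ ^ (A : ℤ) • x) with hfA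
  set fB := d y (τ ^ (-(B : ℤ)) • x) with hfB
  -- distance from y to its translates
  have htrans : ∀ (m : ℕ) (i : ℤ), d (τ ^ i • x) (τ ^ m • y) = d y (τ ^ (i - m) • x) := by
    intro m i
    rw [hd.symm, ← hiso (τ ^ m) y, smul_smul, ← zpow_natCast τ m, ← zpow_add, add_sub_cancel]
  have hlen : ∀ k : ℕ, 0 < k → d y (τ ^ (A + B + k) • y) = fA + k * L + fB := by
    intro k hk
    have b1 : Bt d y (τ ^ (A : ℤ) • x) (τ ^ ((A : ℤ) + k) • x) := by
      unfold Bt
      rw [← hfA, hdist, right]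
    have e1 : d (τ ^ ((A : ℤ) + k) • x) (τ ^ (A + B + k) • y) = fB := by
      rw [htrans, hfB]
      congr 3
      push_cast; ring
    have e2 : d (τ ^ (A : ℤ) • x) (τ ^ (A + B + k) • y) = fB + k * L := by
      rw [htrans]
      have : (A : ℤ) - ((A + B + k : ℕ) : ℤ) = -(B : ℤ) - k := by push_cast; ring
      rw [this, left]
    have b2 : Bt d (τ ^ (A : ℤ) • x) (τ ^ ((A : ℤ) + k) • x) (τ ^ (A + B + k) • y) := by
      unfold Bt
      rw [hdist, e1, e2]; ring
    have hne1 : τ ^ (A : ℤ) • x ≠ τ ^ ((A : ℤ) + k) • x := by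
      intro he
      have := hdist (A : ℤ) k
      rw [← he, hd.self] at this
      have : 0 < k * L := Nat.mul_pos hk hLpos
      omega
    have c := Bt.concat hd b1 b2 hne1
    rw [c, ← hfA, hdist, e1]
  have hyne : τ • y ≠ y := by
    intro he
    have hfix : ∀ m : ℕ, τ ^ m • y = y := by
      intro m
      induction m with
      | zero => simp
      | succ m ih => rw [pow_succ, mul_smul, he, ih]
    have := hlen 1 one_pos
    rw [hfix, hd.self] at this
    omega
  have hylin : ∀ m : ℕ, d y (τ ^ m • y) = m * d y (τ • y) := fun m =>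
    (axis_lin hd hiso hy hyne m).1
  set L' := d y (τ • y) with hL'
  have q1 := hlen 1 one_pos
  have q2 := hlen 2 two_pos
  rw [hylin] at q1 q2
  have hLL : L' = L := by
    have : (A + B + 2) * L' = (A + B + 1) * L' + L' := by ring
    omega
  have hsum : fA + fB = (A + B) * L := by
    rw [hLL] at q1
    have : (A + B + 1) * L = (A + B) * L + L := by ring
    omega
  -- choose K
  obtain ⟨K, hK⟩ : ∃ K : ℕ, K = A + B + 1 := ⟨_, rfl⟩
  have fK : d y (τ ^ (K : ℤ) • x) = fA + (B + 1) * L := by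
    have := right (B + 1)
    have e : (A : ℤ) + ((B + 1 : ℕ) : ℤ) = (K : ℤ) := by rw [hK]; push_cast; ring
    rwa [e] at this
  have fK' : d y (τ ^ (-(K : ℤ)) • x) = fB + (A + 1) * L := by
    have := left (A + 1)
    have e : -(B : ℤ) - ((A + 1 : ℕ) : ℤ) = -(K : ℤ) := by rw [hK]; push_cast; ring
    rwa [e] at this
  have f2K : d y (τ ^ ((2 * K : ℕ) : ℤ) • x) = fA + (A + 2 * B + 2) * L := by
    have := right (A + 2 * B + 2)
    have e : (A : ℤ) + ((A + 2 * B + 2 : ℕ) : ℤ) = ((2 * K : ℕ) : ℤ) := by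
      rw [hK]; push_cast; ring
    rwa [e] at this
  have f2K' : d y (τ ^ (-((2 * K : ℕ) : ℤ)) • x) = fB + (2 * A + B + 2) * L := by
    have := left (2 * A + B + 2)
    have e : -(B : ℤ) - ((2 * A + B + 2 : ℕ) : ℤ) = -((2 * K : ℕ) : ℤ) := by
      rw [hK]; push_cast; ring
    rwa [e] at this
  have c1 : d y (τ ^ (K : ℤ) • x) + d y (τ ^ (-(K : ℤ)) • x) = 2 * (K * L) := by
    rw [fK, fK', hK]
    have : fA + (B + 1) * L + (fB + (A + 1) * L) = (fA + fB) + (A + B + 2) * L := by ring
    rw [this, hsum]; ring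
  have c2 : d x (τ ^ (K : ℤ) • x) = K * L := by
    have := hdist 0 K
    rwa [zpow_zero, one_smul, zero_add] at this
  have c3 : d x (τ ^ (-(K : ℤ)) • x) = K * L := by
    have := hdist' 0 K
    rwa [zpow_zero, one_smul, zero_sub] at this
  have c4 : d (τ ^ (-(K : ℤ)) • x) (τ ^ (K : ℤ) • x) = 2 * (K * L) := by
    have := hdist (-(K : ℤ)) (2 * K)
    have e : -(K : ℤ) + ((2 * K : ℕ) : ℤ) = K := by push_cast; ring
    rw [e] at this
    rw [this]; ring
  have c5 : d y (τ ^ (2 * K) • x) = d y (τ ^ (K : ℤ) • x) + K * L := by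
    rw [zpow_natCast (n := 2 * K)] at f2K
    rw [f2K, fK, hK]; ring
  have c6 : d x (τ ^ (2 * K) • y) = d y (τ ^ (-(K : ℤ)) • x) + K * L := by
    have := htrans (2 * K) 0
    rw [zpow_zero, one_smul, zero_sub] at this
    rw [this, f2K', fK', hK]; ring
  have c7 : d x (τ ^ (2 * K) • x) = 2 * (K * L) := by
    have := hdist 0 (2 * K)
    rw [zpow_zero, one_smul, zero_add, zpow_natCast] at this
    rw [this]; ring
  have c8 : d y (τ ^ (2 * K) • y) = 2 * (K * L) := by
    rw [hylin, hLL]; ring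
  have c9 : d (τ ^ (2 * K) • x) (τ ^ (2 * K) • y) = d x y := hiso _ _ _
  have hW : 0 < K * L := Nat.mul_pos (by rw [hK]; exact Nat.succ_pos _) hLpos
  exact ⟨2 * K, axis_pair_aux hd hW hxy c1 c2 c3 c4 c5 c6 c7 c8 c9⟩

/-! ### translations virtually centralising a segment stabiliser -/

/-- `τ` translates along an axis containing the segment from `x` to `y` and commutes with a finite
index subgroup of the pointwise stabiliser of that segment. -/
structure GoodAx (d : V → V → ℕ) (τ : G) (x y : V) : Prop where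
  ax : TAx d τ x y
  cent : (Subgroup.centralizer {τ}).relIndex
    (MulAction.stabilizer G x ⊓ MulAction.stabilizer G y) ≠ 0

lemma GoodAx.rev (hd : TreeLike d) (hiso : ∀ (g : G) v w, d (g • v) (g • w) = d v w)
    (h : GoodAx d τ x y) : GoodAx d τ⁻¹ y x := by
  refine ⟨h.ax.rev hd hiso, ?_⟩
  rw [inf_comm]
  apply relIndex_mono_left _ h.cent
  intro k hk
  rw [Subgroup.mem_centralizer_singleton_iff] at hk ⊢
  have hc : Commute k τ := hk
  exact hc.inv_right

lemma GoodAx.conj (hd : TreeLike d) (hiso : ∀ (g : G) v w, d (g • v) (g • w) = d v w)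
    (h : GoodAx d τ x y) (g : G) : GoodAx d (g * τ * g⁻¹) (g • x) (g • y) := by
  have e : ∀ v : V, (g * τ * g⁻¹) • g • v = g • τ • v := by
    intro v
    rw [mul_smul, mul_smul, inv_smul_smul]
  refine ⟨⟨fun he => h.ax.ne (MulAction.injective _ he), ?_, ?_, ?_⟩, ?_⟩
  · rw [e]; exact fun he => h.ax.ne' (MulAction.injective _ he)
  · rw [e]; exact h.ax.a1.smul hiso _
  · rw [e, e]; exact h.ax.a2.smul hiso _
  · have h1 := h.cent
    rwa [← relIndex_conj g, map_centralizer, map_stab] at h1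

/-- the part of the stabiliser commuting with the translation -/
def core (τ : G) (x y : V) : Subgroup G :=
  Subgroup.centralizer {τ} ⊓ (MulAction.stabilizer G x ⊓ MulAction.stabilizer G y)

lemma core_comm {k : G} (hk : k ∈ core τ x y) (j : ℤ) : k * τ ^ j = τ ^ j * k := by
  rw [core, Subgroup.mem_inf] at hk
  obtain ⟨hk1, _⟩ := hk
  rw [Subgroup.mem_centralizer_singleton_iff] at hk1
  have hc : Commute k τ := hk1
  exact hc.zpow_right j

lemma core_fix {k : G} (hk : k ∈ core τ x y) (j : ℤ) :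
    k • τ ^ j • x = τ ^ j • x ∧ k • τ ^ j • y = τ ^ j • y := by
  have hc := core_comm hk j
  rw [core, Subgroup.mem_inf] at hk
  obtain ⟨_, hk1, hk2⟩ := hk
  have hk1' : k • x = x := hk1
  have hk2' : k • y = y := hk2
  rw [smul_smul, smul_smul, hc, mul_smul, mul_smul, hk1', hk2']
  exact ⟨rfl, rfl⟩

lemma GoodAx.core_relIndex (h : GoodAx d τ x y) :
    (core τ x y).relIndex (MulAction.stabilizer G x ⊓ MulAction.stabilizer G y) ≠ 0 :=
  Subgroup.relIndex_inf_ne_zero h.cent (by rw [Subgroup.relIndex_self]; exact one_ne_zero)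

lemma core_map (τ : G) (x y : V) (j : ℤ) :
    (core τ x y).map (MulAut.conj (τ ^ j)).toMonoidHom = core τ x y := by
  ext k
  rw [mem_map_conj]
  constructor
  · intro hk
    have h1 := core_comm hk j
    have h2 : k = (τ ^ j)⁻¹ * k * τ ^ j := by
      have h3 : (τ ^ j)⁻¹ * k * τ ^ j * τ ^ j = k * τ ^ j := by
        rw [h1]; group
      exact (mul_right_cancel h3).symm
    rw [h2]; exact hk
  · intro hk
    have h1 := core_comm hk j
    have h2 : (τ ^ j)⁻¹ * k * τ ^ j = k := by
      rw [mul_assoc, h1, inv_mul_cancel_left]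
    rw [h2]; exact hk

/-- stabilisers of translated segments are virtually contained in the core -/
lemma GoodAx.core_relIndex_zpow (h : GoodAx d τ x y) (j : ℤ) :
    (core τ x y).relIndex
      (MulAction.stabilizer G (τ ^ j • x) ⊓ MulAction.stabilizer G (τ ^ j • y)) ≠ 0 := by
  rw [← map_stab, ← core_map τ x y j, relIndex_conj]
  exact h.core_relIndex

/-- points of the axis -/
def OnAx (τ : G) (x y q : V) : Prop := ∃ k : ℤ, q = τ ^ k • x ∨ q = τ ^ k • y

lemma core_fix_onAx {k : G} (hk : k ∈ core τ x y) {q : V} (hq : OnAx τ x y q) : k • q = q := by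
  obtain ⟨j, rfl | rfl⟩ := hq
  · exact (core_fix hk j).1
  · exact (core_fix hk j).2

lemma OnAx.rev {q : V} (hq : OnAx τ x y q) : OnAx τ⁻¹ y x q := by
  obtain ⟨j, rfl | rfl⟩ := hq
  · exact ⟨-j, Or.inr (by rw [inv_zpow', neg_neg])⟩
  · exact ⟨-j, Or.inl (by rw [inv_zpow', neg_neg])⟩

/-- **Dichotomy at one end.** Either all of the first axis lies on the positive side of some
translate of the second segment, or the first segment stabiliser is virtually contained in the
second. -/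
lemma GoodAx.ends (hd : TreeLike d) (hiso : ∀ (g : G) v w, d (g • v) (g • w) = d v w)
    (h : GoodAx d τ x y) {τ' : G} {x' y' : V} (h' : GoodAx d τ' x' y') :
    (∃ j : ℤ, ∀ q, OnAx τ x y q → Bt d q (τ' ^ j • y') (τ' ^ j • x')) ∨
      (MulAction.stabilizer G x' ⊓ MulAction.stabilizer G y').relIndex
        (MulAction.stabilizer G x ⊓ MulAction.stabilizer G y) ≠ 0 := by
  obtain ⟨M, hM⟩ := (h'.ax.rev hd hiso).exists_neg hd hiso x
  have eM : ∀ v : V, τ'⁻¹ ^ M • v = τ' ^ (-(M : ℤ)) • v := by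
    intro v
    rw [zpow_neg, zpow_natCast, inv_pow]
  rw [eM, eM] at hM
  set j : ℤ := -((M : ℤ) + 1) with hj
  have hjM : j + 1 = -(M : ℤ) := by rw [hj]; ring
  by_cases hcase : ∀ q, OnAx τ x y q → Bt d q (τ' ^ j • y') (τ' ^ j • x')
  · exact Or.inl ⟨j, hcase⟩
  · right
    push Not at hcase
    obtain ⟨q, hq, hk⟩ := hcase
    obtain ⟨n1, n2, n3, n4⟩ := h'.ax.zpow hiso j
    have e : ∀ v : V, τ' • τ' ^ j • v = τ' ^ (j + 1) • v := by
      intro v
      rw [smul_smul, ← zpow_one_add, add_comm]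
    rw [e] at n2 n3
    rw [e, e] at n4
    rw [hjM] at n2 n3 n4
    set a := τ' ^ j • x'
    set b := τ' ^ j • y'
    set a' := τ' ^ (-(M : ℤ)) • x'
    set b' := τ' ^ (-(M : ℤ)) • y'
    have hne2 : a' ≠ b' := fun he => h'.ax.ne (MulAction.injective _ he)
    have f1 : Bt d q b a' := by
      have f := hd.four q b a a'
      have t1 := hd.tri q b a'
      have t2 := hd.tri q b a
      rw [hd.symm b a] at f t2
      unfold Bt at *
      rw [hd.symm b a] at hk
      omega
    have f2 := Bt.concat hd f1 n4 n2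
    have f3 : Bt d q a' b' := by
      unfold Bt at *
      omega
    have hM' := hM.symm hd
    have f4 := Bt.concat hd f3 hM' hne2
    have g1 : Bt d q a' x := by
      unfold Bt at *
      omega
    have g2 : Bt d q b' x := by
      unfold Bt at *
      omega
    have hle : core τ x y ≤ MulAction.stabilizer G a' ⊓ MulAction.stabilizer G b' := by
      intro k hk
      have q1 := core_fix_onAx hk hq
      have q0 := (core_fix hk 0).1
      rw [zpow_zero, one_smul] at q0
      exact ⟨g1.fix hd hiso q1 q0, g2.fix hd hiso q1 q0⟩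
    have h1 := relIndex_mono_left hle h.core_relIndex
    exact Subgroup.relIndex_ne_zero_trans
      (relIndex_mono_left inf_le_right (h'.core_relIndex_zpow (-(M : ℤ)))) h1

/-- **Merging two good translations.** -/
lemma GoodAx.merge (hd : TreeLike d) (hiso : ∀ (g : G) v w, d (g • v) (g • w) = d v w)
    {τ1 τ2 : G} {x1 y1 x2 y2 : V}
    (h1 : GoodAx d τ1 x1 y1) (h2 : GoodAx d τ2 x2 y2) :
    ∃ (τ3 : G) (x3 y3 : V), GoodAx d τ3 x3 y3 ∧
      (MulAction.stabilizer G x1 ⊓ MulAction.stabilizer G y1).relIndex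
        (MulAction.stabilizer G x3 ⊓ MulAction.stabilizer G y3) ≠ 0 ∧
      (MulAction.stabilizer G x2 ⊓ MulAction.stabilizer G y2).relIndex
        (MulAction.stabilizer G x3 ⊓ MulAction.stabilizer G y3) ≠ 0 := by
  by_cases c12 : (MulAction.stabilizer G x2 ⊓ MulAction.stabilizer G y2).relIndex
      (MulAction.stabilizer G x1 ⊓ MulAction.stabilizer G y1) ≠ 0
  · exact ⟨τ1, x1, y1, h1, by rw [Subgroup.relIndex_self]; exact one_ne_zero, c12⟩
  by_cases c21 : (MulAction.stabilizer G x1 ⊓ MulAction.stabilizer G y1).relIndex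
      (MulAction.stabilizer G x2 ⊓ MulAction.stabilizer G y2) ≠ 0
  · exact ⟨τ2, x2, y2, h2, c21, by rw [Subgroup.relIndex_self]; exact one_ne_zero⟩
  obtain ⟨j2, hj2⟩ := (h1.ends hd hiso h2).resolve_right c12
  obtain ⟨i2, hi2⟩ := (h1.ends hd hiso (h2.rev hd hiso)).resolve_right (by
    rw [inf_comm (MulAction.stabilizer G y2)]; exact c12)
  obtain ⟨j1, hj1⟩ := (h2.ends hd hiso h1).resolve_right c21
  obtain ⟨i1, hi1⟩ := (h2.ends hd hiso (h1.rev hd hiso)).resolve_right (by
    rw [inf_comm (MulAction.stabilizer G y1)]; exact c21)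
  have einv : ∀ (τ : G) (i : ℤ) (v : V), τ⁻¹ ^ i • v = τ ^ (-i) • v := by
    intro τ i v
    rw [inv_zpow']
  simp only [einv] at hi1 hi2
  set u2 := τ2 ^ j2 • x2 with hu2
  set v2 := τ2 ^ j2 • y2 with hv2
  set u2' := τ2 ^ (-i2 + 1) • x2 with hu2'
  set v2' := τ2 ^ (-i2 + 1) • y2 with hv2'
  set u1 := τ1 ^ j1 • x1 with hu1
  set v1 := τ1 ^ j1 • y1 with hv1
  set u1' := τ1 ^ (-i1) • x1 with hu1'
  set v1' := τ1 ^ (-i1) • y1 with hv1'
  have o1 : OnAx τ1 x1 y1 v1 := ⟨j1, Or.inr rfl⟩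
  have o2 : OnAx τ1 x1 y1 u1' := ⟨-i1, Or.inl rfl⟩
  have o3 : OnAx τ1 x1 y1 v1' := ⟨-i1, Or.inr rfl⟩
  have o4 : OnAx τ2 x2 y2 u2 := ⟨j2, Or.inl rfl⟩
  have o5 : OnAx τ2 x2 y2 u2' := ⟨-i2 + 1, Or.inl rfl⟩
  have F1 : Bt d u2 u1' v1' := hi1 u2 o4
  have F2 : Bt d v1' v2 u2 := hj2 v1' o3
  have F2' : Bt d u1' v2 u2 := hj2 u1' o2
  have F3 : Bt d u2' v1 u1 := hj1 u2' o5
  have F4 := h2.ax.step_zpow hd hiso (-i2) (hi2 v1 o1)
  rw [← hu2', ← hv2'] at F4
  obtain ⟨F4, F4'⟩ := F4
  -- the new translation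
  set n : ℤ := -i1 - j1 with hn
  set m : ℤ := -i2 + 1 - j2 with hm
  set τ3 := τ1 ^ n * τ2 ^ m with hτ3
  have t1 : ∀ v : V, τ1 ^ n • τ1 ^ j1 • v = τ1 ^ (-i1) • v := by
    intro v
    rw [smul_smul, ← zpow_add, hn, sub_add_cancel]
  have t2 : ∀ v : V, τ2 ^ m • τ2 ^ j2 • v = τ2 ^ (-i2 + 1) • v := by
    intro v
    rw [smul_smul, ← zpow_add, hm, sub_add_cancel]
  have e1 : τ1 ^ n • u1 = u1' := t1 x1
  have e2 : τ1 ^ n • v1 = v1' := t1 y1
  have e3 : τ3 • u2 = τ1 ^ n • u2' := by rw [hτ3, mul_smul, hu2, t2]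
  have e4 : τ3 • v2 = τ1 ^ n • v2' := by rw [hτ3, mul_smul, hv2, t2]
  have hne1 : u1' ≠ v1' := fun he => h1.ax.ne (MulAction.injective _ he)
  have hne2 : u2 ≠ v2 := fun he => h2.ax.ne (MulAction.injective _ he)
  have hne3 : τ3 • u2 ≠ τ3 • v2 := fun he => hne2 (MulAction.injective _ he)
  have G3 : Bt d (τ3 • u2) v1' u1' := by
    have := F3.smul hiso (τ1 ^ n)
    rwa [e1, e2, ← e3] at this
  have G3' := G3.symm hd
  have G4 : Bt d v1' (τ3 • u2) (τ3 • v2) := by
    have := F4.smul hiso (τ1 ^ n)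
    rwa [e2, ← e3, ← e4] at this
  have K1 := Bt.concat hd F1 G3' hne1
  have F2s := F2.symm hd
  have G2 : Bt d (τ3 • u2) (τ3 • v2) (τ3 • v1') := F2s.smul hiso τ3
  have K2 := Bt.concat hd G4 G2 hne3
  have hd21 : d v1' (τ3 • u2) = d v1 u2' := by rw [e3, ← e2, hiso]
  have hax3 : TAx d τ3 u2 v1' := by
    refine ⟨?_, ?_, ?_, ?_⟩
    · intro he
      have hpos := hd.pos hne2
      rw [he] at F2
      unfold Bt at F2
      rw [hd.self] at F2
      rw [he, hd.symm] at hpos
      omega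
    · intro he
      have : d v1' (τ3 • u2) = 0 := by rw [← he, hd.self]
      omega
    · unfold Bt at *
      omega
    · unfold Bt at *
      omega
  set P3 := MulAction.stabilizer G u2 ⊓ MulAction.stabilizer G v1' with hP3
  have hc2 : (core τ2 x2 y2).relIndex P3 ≠ 0 := by
    apply relIndex_mono_right _ (h2.core_relIndex_zpow j2)
    rintro k ⟨hk1, hk2⟩
    exact ⟨hk1, F2s.fix hd hiso hk1 hk2⟩
  have hc1 : (core τ1 x1 y1).relIndex P3 ≠ 0 := by
    apply relIndex_mono_right _ (h1.core_relIndex_zpow (-i1))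
    rintro k ⟨hk1, hk2⟩
    exact ⟨F1.fix hd hiso hk1 hk2, hk2⟩
  refine ⟨τ3, u2, v1', ⟨hax3, ?_⟩, relIndex_mono_left inf_le_right hc1,
    relIndex_mono_left inf_le_right hc2⟩
  apply relIndex_mono_left _ (Subgroup.relIndex_inf_ne_zero hc1 hc2)
  intro k hk
  rw [Subgroup.mem_inf] at hk
  rw [Subgroup.mem_centralizer_singleton_iff]
  have q1 : Commute k (τ1 ^ n) := core_comm hk.1 n
  have q2 : Commute k (τ2 ^ m) := core_comm hk.2 m
  exact q1.mul_right q2

/-- **Directedness.** -/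
lemma GoodAx.directed (hd : TreeLike d) (hiso : ∀ (g : G) v w, d (g • v) (g • w) = d v w)
    (h : GoodAx d τ x y) (Z : Finset G) :
    ∃ (σ : G) (z w : V), GoodAx d σ z w ∧ ∀ g ∈ Z,
      (MulAction.stabilizer G (g • x) ⊓ MulAction.stabilizer G (g • y)).relIndex
        (MulAction.stabilizer G z ⊓ MulAction.stabilizer G w) ≠ 0 := by
  classical
  induction Z using Finset.induction_on with
  | empty => exact ⟨τ, x, y, h, fun g hg => absurd hg (Finset.notMem_empty g)⟩
  | insert g Z _ ih =>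
    obtain ⟨σ, z, w, hzw, hZ⟩ := ih
    obtain ⟨σ1, z1, w1, h1, h2, h3⟩ := hzw.merge hd hiso (h.conj hd hiso g)
    refine ⟨σ1, z1, w1, h1, fun g' hg' => ?_⟩
    rcases Finset.mem_insert.mp hg' with rfl | hg'
    · exact h3
    · exact Subgroup.relIndex_ne_zero_trans (hZ g' hg') h2

/-- For every finite set of conjugates of `τ` there is a good translation whose segment stabiliser
virtually centralises the finite set. -/
lemma GoodAx.exists_centralizing (hd : TreeLike d)
    (hiso : ∀ (g : G) v w, d (g • v) (g • w) = d v w) (h : GoodAx d τ x y) (R : Finset G)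
    (hR : ∀ ρ ∈ R, ∃ g, ρ = g * τ * g⁻¹) :
    ∃ (σ : G) (z w : V), GoodAx d σ z w ∧ (Subgroup.centralizer (R : Set G)).relIndex
      (MulAction.stabilizer G z ⊓ MulAction.stabilizer G w) ≠ 0 := by
  classical
  choose! f hf using hR
  obtain ⟨σ, z, w, hzw, hdir⟩ := h.directed hd hiso (R.image f)
  refine ⟨σ, z, w, hzw, relIndex_centralizer_finset _ R (fun ρ hρ => ?_)⟩
  have h1 := hdir (f ρ) (Finset.mem_image_of_mem f hρ)
  have h4 : (Subgroup.centralizer {ρ}).relIndex
      (MulAction.stabilizer G (f ρ • x) ⊓ MulAction.stabilizer G (f ρ • y)) ≠ 0 := by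
    have h5 := h.cent
    rwa [← relIndex_conj (f ρ), map_centralizer, map_stab, ← hf ρ hρ] at h5
  exact Subgroup.relIndex_ne_zero_trans h4 h1

end Act

end Pool.Agent.H29
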