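import Pool.Agent.H29.Axis
import Pool.Agent.H29.TreeLike

/-!
# Conjugates with large common centralisers
-/

open Set Filter Topology Metric

set_option linter.unusedSectionVars false

namespace Pool.Agent.H29

universe u

section Main

variable {G : Type*} {X : Type u} [Group G] [MetricSpace X] [IsCAT0 X] [ProperSpace X]
  [MulAction G X] [IsIsometricSMul G X] [ProperlyDiscontinuousSMul G X]

/-- elements of infinite sets move points arbitrarily far -/
lemma exists_far {S : Set G} (hS : S.Infinite) (p : X) (k : ℝ) :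
    ∃ g ∈ S, k ≤ dist p (g • p) := by
  by_contra hcon
  push Not at hcon
  exact hS ((finite_near (G := G) p p k).subset (fun g hg => (hcon g hg).le))

/-- If all finite sets of conjugates of `b` have infinite centraliser then `b` acts trivially or
the space is a line. -/
theorem line_of_centralizers [Nonempty X] (hgc : GeodesicallyComplete X) (hcoc : Cocompact G X)
    (hirr : MetricIrreducible X) {b : G} (hb : ∃ x : X, b • x ≠ x)
    (h : ∀ R : Finset G, (∀ ρ ∈ R, ∃ g, ρ = g * b * g⁻¹) →
      (Subgroup.centralizer (R : Set G) : Set G).Infinite) :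
    ∃ c : ℝ → X, Isometry c ∧ Function.Surjective c := by
  classical
  obtain ⟨p⟩ := (inferInstance : Nonempty X)
  let I := {ρ : G // ∃ g, ρ = g * b * g⁻¹}
  obtain ⟨ρ, _, hρ, hbd⟩ := exists_ray (I := I) (fun i x => dist x ((i : G) • x))
    (fun i => gconvexFun_disp (i : G)) (fun i => continuous_disp (i : G)) p (by
      intro S k
      obtain ⟨g, hg, hgk⟩ := exists_far (X := X) (h (S.image Subtype.val) (by
        intro ρ hρ
        obtain ⟨i, _, rfl⟩ := Finset.mem_image.mp hρ
        exact i.2)) p k
      refine ⟨g • p, hgk, fun i hi => ?_⟩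
      have hc : (i : G) * g = g * (i : G) := by
        have := Subgroup.mem_centralizer_iff.mp hg (i : G) (by
          exact_mod_cast Finset.mem_image_of_mem _ hi)
        exact this
      have e : dist (g • p) ((i : G) • g • p) = dist p ((i : G) • p) := by
        rw [smul_smul, hc, mul_smul, dist_smul]
      show dist (g • p) ((i : G) • g • p) ≤ _
      rw [e]
      have : 0 ≤ dist p (g • p) / ((k : ℝ) + 1) := by positivity
      linarith)
  have hN : ∀ n ∈ Subgroup.normalClosure {b}, ∃ M : ℝ, ∀ t, 0 ≤ t → dist (ρ t) (n • ρ t) ≤ M := by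
    apply bdd_closure
    intro r hr
    rw [Group.mem_conjugatesOfSet_iff] at hr
    obtain ⟨a, ha, hconj⟩ := hr
    rw [mem_singleton_iff] at ha
    subst ha
    obtain ⟨g, hg⟩ := isConj_iff.mp hconj
    exact ⟨_, fun t ht => hbd ⟨r, g, hg.symm⟩ t ht⟩
  exact line_of_ray hgc hcoc hirr (Subgroup.normalClosure {b})
    ⟨b, Subgroup.subset_normalClosure (mem_singleton b), hb⟩ hρ hN

/-- The abstract criterion: a translation of a tree-like metric virtually centralising a segment
stabiliser. -/
theorem rankOne_of_goodAx [Nonempty X] {V : Type*} [MulAction G V] {d : V → V → ℕ}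
    (hgc : GeodesicallyComplete X) (hcoc : Cocompact G X)
    (hirr : MetricIrreducible X) (hd : TreeLike d)
    (hiso : ∀ (g : G) v w, d (g • v) (g • w) = d v w)
    (hfin : ∀ (σ : G) (z w : V), GoodAx d σ z w → {g : G | g • z = z ∧ g • w = w}.Finite →
      IsRankOne (X := X) σ)
    {τ : G} {x y : V} (h : GoodAx d τ x y) :
    ∃ g : G, IsRankOne (X := X) g := by
  by_contra hcon
  push Not at hcon
  have hinf : ∀ (σ : G) (z w : V), GoodAx d σ z w →
      ((MulAction.stabilizer G z ⊓ MulAction.stabilizer G w : Subgroup G) : Set G).Infinite := by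
    intro σ z w hzw hf
    exact hcon _ (hfin σ z w hzw hf)
  obtain ⟨c, hc, l, hl, hcl⟩ := exists_axis (X := X) hcoc (h.ax.pow_ne_one hd hiso)
  have hb : ∃ p : X, τ • p ≠ p := by
    refine ⟨c 0, fun he => ?_⟩
    have h4 := hcl 0
    rw [he] at h4
    have h5 := hc.injective h4
    linarith
  obtain ⟨c', hc', hsurj⟩ := line_of_centralizers hgc hcoc hirr hb (by
    intro R hR
    obtain ⟨σ, z, w, hzw, hcent⟩ := h.exists_centralizing hd hiso R hR
    exact (infinite_inf_of_relIndex hcent (hinf σ z w hzw)).mono (fun k hk => hk.2))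
  exact hcon _ ⟨c, hc, ⟨l, hl.ne', hcl⟩, not_boundsHalfPlane_of_surjective hc' hsurj c⟩

end Main

end Pool.Agent.H29
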