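import Pool.Agent.H29.Basic

/-!
# Convex sets, projections and convex functions in CAT(0) spaces
-/

open Set Filter Topology Metric

set_option linter.unusedSectionVars false

namespace Pool.Agent.H29

variable {X : Type*} [MetricSpace X] [IsCAT0 X]

/-- geodesically convex subset -/
def GConvex (C : Set X) : Prop :=
  ∀ x ∈ C, ∀ y ∈ C, ∀ t ∈ Icc (0 : ℝ) 1, pt x y t ∈ C

/-- geodesically convex function -/
def GConvexFun (f : X → ℝ) : Prop :=
  ∀ x y : X, ∀ t ∈ Icc (0 : ℝ) 1, f (pt x y t) ≤ (1 - t) * f x + t * f y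

lemma gconvex_univ : GConvex (univ : Set X) := fun _ _ _ _ _ _ => mem_univ _

lemma GConvex.inter {C D : Set X} (hC : GConvex C) (hD : GConvex D) : GConvex (C ∩ D) :=
  fun x hx y hy t ht => ⟨hC x hx.1 y hy.1 t ht, hD x hx.2 y hy.2 t ht⟩

lemma GConvex.sInter {S : Set (Set X)} (h : ∀ C ∈ S, GConvex C) : GConvex (⋂₀ S) :=
  fun x hx y hy t ht C hC => h C hC x (hx C hC) y (hy C hC) t ht

lemma GConvexFun.sublevel {f : X → ℝ} (hf : GConvexFun f) (r : ℝ) : GConvex {x | f x ≤ r} := by
  intro x hx y hy t ht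
  have h := hf x y t ht
  have h1 : (1 - t) * f x ≤ (1 - t) * r := mul_le_mul_of_nonneg_left hx (by linarith [ht.2])
  have h2 : t * f y ≤ t * r := mul_le_mul_of_nonneg_left hy ht.1
  show f (pt x y t) ≤ r
  linarith

lemma GConvexFun.add {f g : X → ℝ} (hf : GConvexFun f) (hg : GConvexFun g) :
    GConvexFun (fun x => f x + g x) := by
  intro x y t ht
  have h1 := hf x y t ht
  have h2 := hg x y t ht
  show f _ + g _ ≤ _
  linarith

lemma gconvexFun_dist (p : X) : GConvexFun (fun x => dist p x) :=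
  fun x y _ ht => dist_pt_le_right p x y ht

/-- a closed set containing midpoints is convex -/
lemma gconvex_of_midpoint {C : Set X} (hc : IsClosed C)
    (hm : ∀ x ∈ C, ∀ y ∈ C, pt x y (1 / 2) ∈ C) : GConvex C := by
  intro x hx y hy t ht
  set S : Set ℝ := {s | s ∈ Icc (0 : ℝ) 1 ∧ pt x y s ∈ C} with hS
  have hcont : ContinuousOn (fun s => pt x y s) (Icc (0 : ℝ) 1) := by
    have : LipschitzOnWith (Real.toNNReal (dist x y)) (fun s => pt x y s) (Icc 0 1) := by
      apply LipschitzOnWith.of_dist_le_mul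
      intro s hs t ht
      rw [dist_pt_pt x y hs ht, Real.coe_toNNReal _ dist_nonneg, Real.dist_eq, mul_comm]
    exact this.continuousOn
  have hSclosed : IsClosed S := by
    have : S = Icc (0 : ℝ) 1 ∩ (fun s => pt x y s) ⁻¹' C := by
      ext s; simp [hS]
    rw [this]
    exact hcont.preimage_isClosed_of_isClosed isClosed_Icc hc
  by_contra hcon
  have htS : t ∉ S := fun h => hcon h.2
  -- a = sup of S below t, b = inf of S above t
  set A := S ∩ Iic t with hA
  set B := S ∩ Ici t with hB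
  have hA0 : (0 : ℝ) ∈ A := ⟨⟨zero_mem_I, by simpa using hx⟩, ht.1⟩
  have hB1 : (1 : ℝ) ∈ B := ⟨⟨one_mem_I, by simpa using hy⟩, ht.2⟩
  have hAb : BddAbove A := ⟨t, fun s hs => hs.2⟩
  have hBb : BddBelow B := ⟨t, fun s hs => hs.2⟩
  have ha : sSup A ∈ A := (hSclosed.inter isClosed_Iic).csSup_mem ⟨0, hA0⟩ hAb
  have hb : sInf B ∈ B := (hSclosed.inter isClosed_Ici).csInf_mem ⟨1, hB1⟩ hBb
  set a := sSup A with hadef
  set b := sInf B with hbdef
  have hat : a < t := lt_of_le_of_ne ha.2 (fun h => htS (h ▸ ha.1))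
  have htb : t < b := lt_of_le_of_ne hb.2 (fun h => htS (h ▸ hb.1))
  have hmid : pt (pt x y a) (pt x y b) (1 / 2) ∈ C := hm _ ha.1.2 _ hb.1.2
  rw [pt_pt_pt x y ha.1.1 hb.1.1 half_mem_I] at hmid
  set m := (1 - 1 / 2) * a + 1 / 2 * b with hmdef
  have hmI : m ∈ Icc (0 : ℝ) 1 := by
    constructor
    · rw [hmdef]; linarith [ha.1.1.1, hb.1.1.1]
    · rw [hmdef]; linarith [ha.1.1.2, hb.1.1.2]
  have hmS : m ∈ S := ⟨hmI, hmid⟩
  rcases le_total m t with h | h
  · have : m ≤ a := le_csSup hAb ⟨hmS, h⟩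
    rw [hmdef] at this
    linarith
  · have : b ≤ m := csInf_le hBb ⟨hmS, h⟩
    rw [hmdef] at this
    linarith

section Nearest

/-- the obtuse angle inequality at a nearest point -/
lemma obtuse {C : Set X} (hC : GConvex C) {x y : X} (hy : y ∈ C)
    (hmin : ∀ z ∈ C, dist x y ≤ dist x z) {z : X} (hz : z ∈ C) :
    dist x y ^ 2 + dist y z ^ 2 ≤ dist x z ^ 2 := by
  have key : ∀ t ∈ Ioc (0 : ℝ) 1, dist x y ^ 2 + (1 - t) * dist y z ^ 2 ≤ dist x z ^ 2 := by
    intro t ht
    have htI : t ∈ Icc (0 : ℝ) 1 := ⟨ht.1.le, ht.2⟩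
    have h1 := cn_pt x y z htI
    have h2 := hmin _ (hC y hy z hz t htI)
    have h3 : dist x y ^ 2 ≤ dist x (pt y z t) ^ 2 := pow_le_pow_left₀ dist_nonneg h2 2
    have h4 : t * (dist x y ^ 2 + (1 - t) * dist y z ^ 2) ≤ t * dist x z ^ 2 := by
      nlinarith [h1, h3]
    exact le_of_mul_le_mul_left h4 ht.1
  have hlim : Tendsto (fun t : ℝ => dist x y ^ 2 + (1 - t) * dist y z ^ 2) (𝓝[>] 0)
      (𝓝 (dist x y ^ 2 + (1 - 0) * dist y z ^ 2)) := by
    apply Tendsto.mono_left _ nhdsWithin_le_nhds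
    apply Continuous.tendsto
    fun_prop
  have hle : dist x y ^ 2 + (1 - 0) * dist y z ^ 2 ≤ dist x z ^ 2 := by
    apply le_of_tendsto hlim
    filter_upwards [Ioc_mem_nhdsGT (zero_lt_one : (0:ℝ) < 1)] with t ht
    exact key t ht
  linarith

/-- nearest point maps to convex sets are 1-Lipschitz -/
lemma nearest_lipschitz {C : Set X} (hC : GConvex C) {x x' y y' : X}
    (hx' : x' ∈ C) (hxmin : ∀ z ∈ C, dist x x' ≤ dist x z)
    (hy' : y' ∈ C) (hymin : ∀ z ∈ C, dist y y' ≤ dist y z) : dist x' y' ≤ dist x y := by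
  have h1 := obtuse hC hx' hxmin hy'
  have h2 := obtuse hC hy' hymin hx'
  have h3 := quad x y y' x'
  rw [dist_comm y' x'] at h2 h3
  have h4 : dist x' y' ^ 2 ≤ dist x y * dist x' y' := by nlinarith
  by_cases h0 : dist x' y' = 0
  · rw [h0]; exact dist_nonneg
  · have hpos : 0 < dist x' y' := lt_of_le_of_ne dist_nonneg (Ne.symm h0)
    have : dist x' y' * dist x' y' ≤ dist x y * dist x' y' := by nlinarith
    exact le_of_mul_le_mul_right this hpos

lemma nearest_unique {C : Set X} (hC : GConvex C) {x y y' : X}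
    (hy : y ∈ C) (hmin : ∀ z ∈ C, dist x y ≤ dist x z)
    (hy' : y' ∈ C) (hle : dist x y' ≤ dist x y) : y' = y := by
  have h1 := obtuse hC hy hmin hy'
  have h2 : dist x y' ^ 2 ≤ dist x y ^ 2 := pow_le_pow_left₀ dist_nonneg hle 2
  have h3 : dist y y' ^ 2 ≤ 0 := by linarith
  have h4 : dist y y' = 0 := pow_eq_zero_iff (two_ne_zero) |>.mp (le_antisymm h3 (sq_nonneg _))
  exact (dist_eq_zero.mp h4).symm

end Nearest

section Proj

variable [ProperSpace X]

open Classical in
/-- nearest point projection -/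
noncomputable def proj (C : Set X) (x : X) : X :=
  if h : ∃ y ∈ C, infDist x C = dist x y then h.choose else x

lemma proj_spec {C : Set X} (hc : IsClosed C) (hne : C.Nonempty) (x : X) :
    proj C x ∈ C ∧ infDist x C = dist x (proj C x) := by
  have h : ∃ y ∈ C, infDist x C = dist x y := hc.exists_infDist_eq_dist hne x
  rw [proj, dif_pos h]
  exact h.choose_spec

lemma proj_mem {C : Set X} (hc : IsClosed C) (hne : C.Nonempty) (x : X) : proj C x ∈ C :=
  (proj_spec hc hne x).1

lemma dist_proj {C : Set X} (hc : IsClosed C) (hne : C.Nonempty) (x : X) :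
    dist x (proj C x) = infDist x C :=
  (proj_spec hc hne x).2.symm

lemma proj_min {C : Set X} (hc : IsClosed C) (hne : C.Nonempty) (x : X) {z : X} (hz : z ∈ C) :
    dist x (proj C x) ≤ dist x z := by
  rw [dist_proj hc hne]
  exact infDist_le_dist_of_mem hz

lemma proj_lipschitz {C : Set X} (hc : IsClosed C) (hne : C.Nonempty) (hC : GConvex C)
    (x y : X) : dist (proj C x) (proj C y) ≤ dist x y :=
  nearest_lipschitz hC (proj_mem hc hne x) (fun _ hz => proj_min hc hne x hz)
    (proj_mem hc hne y) (fun _ hz => proj_min hc hne y hz)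

lemma eq_proj {C : Set X} (hc : IsClosed C) (hne : C.Nonempty) (hC : GConvex C)
    {x y : X} (hy : y ∈ C) (h : dist x y ≤ infDist x C) : y = proj C x :=
  nearest_unique hC (proj_mem hc hne x) (fun _ hz => proj_min hc hne x hz) hy
    (h.trans (le_of_eq (dist_proj hc hne x).symm))

lemma proj_of_mem {C : Set X} (hc : IsClosed C) (hC : GConvex C) {x : X} (hx : x ∈ C) :
    proj C x = x := by
  have hne : C.Nonempty := ⟨x, hx⟩
  symm
  apply eq_proj hc hne hC hx
  rw [dist_self]
  exact infDist_nonneg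

lemma proj_obtuse {C : Set X} (hc : IsClosed C) (hne : C.Nonempty) (hC : GConvex C)
    (x : X) {z : X} (hz : z ∈ C) :
    dist x (proj C x) ^ 2 + dist (proj C x) z ^ 2 ≤ dist x z ^ 2 :=
  obtuse hC (proj_mem hc hne x) (fun _ hz => proj_min hc hne x hz) hz

lemma gconvexFun_infDist {C : Set X} (hc : IsClosed C) (hne : C.Nonempty) (hC : GConvex C) :
    GConvexFun (fun x => infDist x C) := by
  intro x y t ht
  show infDist (pt x y t) C ≤ (1 - t) * infDist x C + t * infDist y C
  rw [← dist_proj hc hne x, ← dist_proj hc hne y]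
  calc infDist (pt x y t) C ≤ dist (pt x y t) (pt (proj C x) (proj C y) t) :=
        infDist_le_dist_of_mem (hC _ (proj_mem hc hne x) _ (proj_mem hc hne y) t ht)
    _ ≤ _ := dist_pt_pt_le x y _ _ ht

end Proj

section Action

variable {G : Type*} [Group G] [MulAction G X] [IsIsometricSMul G X]

lemma smul_pt (g : G) (x y : X) {t : ℝ} (ht : t ∈ Icc (0 : ℝ) 1) :
    g • pt x y t = pt (g • x) (g • y) t :=
  map_pt (isometry_smul X g) x y ht

lemma gconvexFun_disp (g : G) : GConvexFun (fun x : X => dist x (g • x)) := by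
  intro x y t ht
  show dist (pt x y t) (g • pt x y t) ≤ _
  rw [smul_pt g x y ht]
  exact dist_pt_pt_le x y _ _ ht

lemma continuous_disp (g : G) : Continuous (fun x : X => dist x (g • x)) :=
  continuous_id.dist (isometry_smul X g).continuous

/-- closed convex sets invariant under a subgroup -/
structure IsNC (N : Subgroup G) (D : Set X) : Prop where
  closed : IsClosed D
  convex : GConvex D
  inv : ∀ n ∈ N, ∀ x ∈ D, n • x ∈ D

lemma IsNC.smul_mem_iff {N : Subgroup G} {D : Set X} (h : IsNC N D) {n : G} (hn : n ∈ N) {x : X} :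
    n • x ∈ D ↔ x ∈ D := by
  constructor
  · intro hx
    have := h.inv n⁻¹ (N.inv_mem hn) _ hx
    rwa [inv_smul_smul] at this
  · exact h.inv n hn x

lemma IsNC.inter {N : Subgroup G} {C D : Set X} (hC : IsNC N C) (hD : IsNC N D) :
    IsNC N (C ∩ D) :=
  ⟨hC.closed.inter hD.closed, hC.convex.inter hD.convex,
    fun n hn x hx => ⟨hC.inv n hn x hx.1, hD.inv n hn x hx.2⟩⟩

lemma isNC_univ (N : Subgroup G) : IsNC N (univ : Set X) :=
  ⟨isClosed_univ, gconvex_univ, fun _ _ _ _ => mem_univ _⟩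

/-- sublevel sets of invariant continuous convex functions -/
lemma isNC_sublevel {N : Subgroup G} {f : X → ℝ} (hf : GConvexFun f) (hc : Continuous f)
    (hinv : ∀ n ∈ N, ∀ x, f (n • x) = f x) (r : ℝ) : IsNC N {x | f x ≤ r} := by
  refine ⟨isClosed_le hc continuous_const, hf.sublevel r, ?_⟩
  intro n hn x hx
  show f (n • x) ≤ r
  rw [hinv n hn x]
  exact hx

lemma IsNC.infDist_smul {N : Subgroup G} {D : Set X} (h : IsNC N D) {n : G} (hn : n ∈ N)
    (x : X) : infDist (n • x) D = infDist x D := by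
  have himg : (fun y => n • y) '' D = D := by
    ext y
    constructor
    · rintro ⟨z, hz, rfl⟩
      exact h.inv n hn z hz
    · intro hy
      exact ⟨n⁻¹ • y, h.inv _ (N.inv_mem hn) y hy, smul_inv_smul n y⟩
  have := Metric.infDist_image (isometry_smul X n) (x := x) (t := D)
  rw [himg] at this
  exact this

variable [ProperSpace X]

lemma IsNC.proj_smul {N : Subgroup G} {D : Set X} (h : IsNC N D) (hne : D.Nonempty) {n : G}
    (hn : n ∈ N) (x : X) : proj D (n • x) = n • proj D x := by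
  symm
  apply eq_proj h.closed hne h.convex (h.inv n hn _ (proj_mem h.closed hne x))
  rw [dist_smul, dist_proj h.closed hne, h.infDist_smul hn]

/-- the closed convex invariant hull of a point -/
def nhull (N : Subgroup G) (x : X) : Set X := ⋂₀ {D : Set X | IsNC N D ∧ x ∈ D}

omit [ProperSpace X] in
lemma isNC_nhull (N : Subgroup G) (x : X) : IsNC N (nhull N x) := by
  refine ⟨isClosed_sInter (fun D hD => hD.1.closed), GConvex.sInter (fun D hD => hD.1.convex), ?_⟩
  intro n hn y hy D hD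
  exact hD.1.inv n hn y (hy D hD)

omit [ProperSpace X] in
lemma mem_nhull (N : Subgroup G) (x : X) : x ∈ nhull N x := fun _ hD => hD.2

omit [ProperSpace X] in
lemma nhull_subset {N : Subgroup G} {D : Set X} (hD : IsNC N D) {x : X} (hx : x ∈ D) :
    nhull N x ⊆ D := fun _ hy => hy D ⟨hD, hx⟩

end Action

end Pool.Agent.H29
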