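import Mathlib

/-!
# Definitions: CAT(0) spaces, geometric actions, rank one isometries
-/

open Set

namespace Pool.Agent.H29

universe u

/-- A metric space is CAT(0) when any two points are joined by a geodesic segment and the
Bruhat-Tits inequality (the CN inequality) holds: for every midpoint `m` of `q` and `r` and every
`p`, `d(p,m)^2 ≤ (d(p,q)^2 + d(p,r)^2)/2 - d(q,r)^2/4`. For geodesic spaces this is equivalent
to the definition by comparison triangles (Bridson-Haefliger, Exercise II.1.9(1)(c)). -/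
class IsCAT0 (X : Type*) [MetricSpace X] : Prop where
  geodesic : ∀ x y : X, ∃ γ : ℝ → X, γ 0 = x ∧ γ (dist x y) = y ∧
    ∀ s ∈ Icc (0 : ℝ) (dist x y), ∀ t ∈ Icc (0 : ℝ) (dist x y), dist (γ s) (γ t) = |s - t|
  cn : ∀ p q r m : X, dist q m = dist q r / 2 → dist m r = dist q r / 2 →
    dist p m ^ 2 ≤ (dist p q ^ 2 + dist p r ^ 2) / 2 - dist q r ^ 2 / 4

/-- Geodesic completeness: every (nondegenerate) geodesic segment extends to a geodesic line. -/
def GeodesicallyComplete (X : Type*) [MetricSpace X] : Prop :=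
  ∀ (a : ℝ) (γ : ℝ → X), 0 < a →
    (∀ s ∈ Icc (0 : ℝ) a, ∀ t ∈ Icc (0 : ℝ) a, dist (γ s) (γ t) = |s - t|) →
    ∃ c : ℝ → X, Isometry c ∧ ∀ s ∈ Icc (0 : ℝ) a, c s = γ s

/-- A metric space is irreducible when it is not isometric to the Euclidean product of two metric
spaces each having at least two points. -/
def MetricIrreducible (X : Type u) [MetricSpace X] : Prop :=
  ¬ ∃ (Y Z : Type u) (_ : MetricSpace Y) (_ : MetricSpace Z) (φ : X ≃ Y × Z),
    Nontrivial Y ∧ Nontrivial Z ∧
      ∀ x x' : X, dist x x' ^ 2 = dist (φ x).1 (φ x').1 ^ 2 + dist (φ x).2 (φ x').2 ^ 2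

/-- The action is cocompact: some compact set meets every orbit. -/
def Cocompact (G X : Type*) [Group G] [MetricSpace X] [MulAction G X] : Prop :=
  ∃ K : Set X, IsCompact K ∧ ∀ x : X, ∃ g : G, g • x ∈ K

/-- The line `c` bounds a flat half-plane: there is an isometric embedding `F` of the half-plane
`{(t,s) : s ≥ 0}` of the Euclidean plane with `F (t,0) = c t`. -/
def BoundsHalfPlane {X : Type*} [MetricSpace X] (c : ℝ → X) : Prop :=
  ∃ F : ℝ → ℝ → X, (∀ t, F t 0 = c t) ∧
    ∀ t s t' s' : ℝ, 0 ≤ s → 0 ≤ s' →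
      dist (F t s) (F t' s') ^ 2 = (t - t') ^ 2 + (s - s') ^ 2

/-- `g` acts as a rank-one isometry: it has an axis (a geodesic line on which it acts by a
nontrivial translation) which does not bound a flat half-plane. -/
def IsRankOne {G X : Type*} [MetricSpace X] [SMul G X] (g : G) : Prop :=
  ∃ c : ℝ → X, Isometry c ∧ (∃ l : ℝ, l ≠ 0 ∧ ∀ t, g • c t = c (t + l)) ∧ ¬ BoundsHalfPlane c

end Pool.Agent.H29
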