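import Pool.Agent.H29.WallFam
import Pool.Agent.H29.Central

/-!
# Elements moving a point across a displacement set
-/

open Set Filter Topology Metric

set_option linter.unusedSectionVars false

namespace Pool.Agent.H29

universe u

section Conj

variable {G : Type*} [Group G]

/-- the conjugacy class of `f` -/
def Cj (f : G) : Type _ := {ρ : G // ∃ g, ρ = g * f * g⁻¹}

instance (f : G) : MulAction G (Cj f) where
  smul g ρ := ⟨g * ρ.1 * g⁻¹, by
    obtain ⟨h, hh⟩ := ρ.2
    exact ⟨g * h, by rw [hh]; group⟩⟩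
  one_smul ρ := Subtype.ext (by
    show 1 * ρ.1 * 1⁻¹ = ρ.1
    group)
  mul_smul g h ρ := Subtype.ext (by
    show g * h * ρ.1 * (g * h)⁻¹ = g * (h * ρ.1 * h⁻¹) * g⁻¹
    group)

lemma Cj.smul_val {f : G} (g : G) (ρ : Cj f) : (g • ρ).1 = g * ρ.1 * g⁻¹ := rfl

lemma Cj.self_smul {f : G} (ρ : Cj f) : ρ.1 • ρ = ρ :=
  Subtype.ext (by rw [Cj.smul_val]; group)

lemma Cj.comm_of_fix {f : G} {g : G} {ρ : Cj f} (h : g • ρ = ρ) : g * ρ.1 = ρ.1 * g := by
  have h1 := congrArg Subtype.val h
  rw [Cj.smul_val] at h1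
  calc g * ρ.1 = g * ρ.1 * g⁻¹ * g := by group
    _ = ρ.1 * g := by rw [h1]

end Conj

section Refl

variable {G : Type*} {X : Type u} [Group G] [MetricSpace X] [IsCAT0 X] [ProperSpace X]
  [MulAction G X] [IsIsometricSMul G X] [ProperlyDiscontinuousSMul G X]

/-- a displacement sublevel set of an element of the conjugacy class -/
def DispS (X : Type*) [MetricSpace X] [MulAction G X] (r : ℝ) {f : G} (ρ : Cj f) : Set X :=
  {x | dist x (ρ.1 • x) ≤ r}

variable {r : ℝ}

lemma DispS_smul {f : G} (g : G) (ρ : Cj f) (x : X) :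
    g • x ∈ DispS X r (g • ρ) ↔ x ∈ DispS X r ρ := by
  show dist (g • x) ((g • ρ).1 • g • x) ≤ r ↔ dist x (ρ.1 • x) ≤ r
  rw [Cj.smul_val, mul_smul, mul_smul, inv_smul_smul, dist_smul]

lemma gconvex_disp (g : G) (r : ℝ) : GConvex {x : X | dist x (g • x) ≤ r} :=
  (gconvexFun_disp g).sublevel r

lemma isClosed_disp (g : G) (r : ℝ) : IsClosed {x : X | dist x (g • x) ≤ r} :=
  isClosed_le (continuous_disp g) continuous_const

lemma wallFam_disp {f : G} (hne : ∃ x : X, dist x (f • x) ≤ r)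
    (hD : ∀ g : G, (∃ x : X, dist x (f • x) ≤ r ∧ dist x ((g * f * g⁻¹) • x) ≤ r) →
      g * f * g⁻¹ = f) :
    WallFam (fun ρ : Cj f => DispS X r ρ) where
  conv := fun ρ => gconvex_disp ρ.1 r
  ne := fun ρ => by
    obtain ⟨g, hg⟩ := ρ.2
    obtain ⟨x, hx⟩ := hne
    refine ⟨g • x, ?_⟩
    show dist (g • x) (ρ.1 • g • x) ≤ r
    rw [hg, mul_smul, mul_smul, inv_smul_smul, dist_smul]
    exact hx
  disj := fun ρ ρ' x hx hx' => by
    obtain ⟨g, hg⟩ := ρ.2
    obtain ⟨g', hg'⟩ := ρ'.2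
    have hx1 : dist x (ρ.1 • x) ≤ r := hx
    have hx2 : dist x (ρ'.1 • x) ≤ r := hx'
    have h := hD (g⁻¹ * g') ⟨g⁻¹ • x, by
      rw [hg, mul_smul, mul_smul] at hx1
      rw [← dist_smul g, smul_inv_smul]; exact hx1, by
      rw [hg', mul_smul, mul_smul] at hx2
      have e : (g⁻¹ * g' * f * (g⁻¹ * g')⁻¹) • g⁻¹ • x = g⁻¹ • g' • f • g'⁻¹ • x := by
        rw [smul_smul, smul_smul, smul_smul, smul_smul]
        congr 1
        group
      rw [e, ← dist_smul g, smul_inv_smul, smul_inv_smul]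
      exact hx2⟩
    apply Subtype.ext
    rw [hg, hg']
    calc g * f * g⁻¹ = g * (g⁻¹ * g' * f * (g⁻¹ * g')⁻¹) * g⁻¹ := by rw [h]
      _ = g' * f * g'⁻¹ := by group
  lf := fun p R => by
    have h1 := finite_displace (G := G) (isCompact_closedBall p R) (r + 1)
    apply (h1.preimage (f := fun ρ : Cj f => ρ.1) Subtype.val_injective.injOn).subset
    rintro ρ ⟨y, hy, hd⟩
    refine ⟨y, ?_, ?_⟩
    · rw [mem_closedBall, dist_comm]; exact hd
    · have hy' : dist y (ρ.1 • y) ≤ r := hy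
      linarith

/-- there is a wall beyond any point outside a wall -/
lemma exists_wall_beyond [Nonempty X] (hgc : GeodesicallyComplete X) (hcoc : Cocompact G X)
    {D : Set X} (hcl : IsClosed D) (hne : D.Nonempty) (hconv : GConvex D) {x : X} (hx : x ∉ D)
    (p0 : X) : ∃ g : G, JoinedIn Dᶜ x (g • p0) := by
  obtain ⟨R, hR⟩ := hcoc.orbit p0
  set y := proj D x with hy
  have hyD : y ∈ D := proj_mem hcl hne x
  have hxy : y ≠ x := fun h => hx (h ▸ hyD)
  obtain ⟨c, hc, hc0, hcd⟩ := hgc.line hxy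
  set δ := dist y x with hδ
  have hδpos : 0 < δ := dist_pos.mpr hxy
  have hφ := (gconvexFun_infDist hcl hne hconv).comp_line hc
  have hφ0 : infDist (c 0) D = 0 := by rw [hc0]; exact infDist_zero_of_mem hyD
  have hφδ : infDist (c δ) D = δ := by rw [hcd, ← dist_proj hcl hne, ← hy, dist_comm]
  have hge : ∀ t, δ ≤ t → t ≤ infDist (c t) D := by
    intro t ht
    have htpos : 0 < t := lt_of_lt_of_le hδpos ht
    have hl : δ / t ∈ Icc (0 : ℝ) 1 := ⟨by positivity, (div_le_one htpos).mpr ht⟩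
    have h1 := hφ 0 t (δ / t) hl
    simp only [mul_zero, zero_add, hφ0] at h1
    rw [div_mul_cancel₀ _ htpos.ne', hφδ, div_mul_eq_mul_div, le_div_iff₀ htpos] at h1
    exact le_of_mul_le_mul_left (by linarith) hδpos
  set t := max δ R + 1 with ht
  have htδ : δ ≤ t := (le_max_left _ _).trans (by linarith)
  have htR : R < t := lt_of_le_of_lt (le_max_right δ R) (by linarith)
  obtain ⟨g, hg⟩ := hR (c t)
  refine ⟨g, ?_⟩
  have j1 : JoinedIn Dᶜ x (c t) := by
    apply joinedIn_of_pt
    intro l hl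
    rw [← hcd, ← line_pt hc δ t hl]
    intro hcon
    have h1 := hge ((1 - l) * δ + l * t) (by nlinarith [hl.1, hl.2])
    rw [infDist_zero_of_mem hcon] at h1
    have : 0 < (1 - l) * δ + l * t := by
      have := hl.1; have := hl.2
      nlinarith
    linarith
  have j2 : JoinedIn Dᶜ (c t) (g • p0) := by
    apply joinedIn_of_pt
    intro l hl hcon
    have h1 := hge t htδ
    have h2 := infDist_le_dist_of_mem (x := c t) hcon
    rw [dist_left_pt _ _ hl] at h2
    have h3 : l * dist (c t) (g • p0) ≤ 1 * dist (c t) (g • p0) :=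
      mul_le_mul_of_nonneg_right hl.2 dist_nonneg
    linarith
  exact j1.trans j2

/-- Rank one elements from an element moving a point across its displacement set, when the
translates of this set are pairwise disjoint. -/
theorem rankOne_of_displacement_disjoint (hgc : GeodesicallyComplete X)
    (hcoc : Cocompact G X) (hirr : MetricIrreducible X) {f : G}
    (hne : ∃ x : X, dist x (f • x) ≤ r)
    (hD : ∀ g : G, (∃ x : X, dist x (f • x) ≤ r ∧ dist x ((g * f * g⁻¹) • x) ≤ r) →
      g * f * g⁻¹ = f)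
    (hsep : ∃ x : X, r < dist x (f • x) ∧ ¬ JoinedIn {y : X | r < dist y (f • y)} x (f • x)) :
    ∃ g : G, IsRankOne (X := X) g := by
  obtain ⟨x0, hx0, hsep⟩ := hsep
  have : Nonempty X := ⟨x0⟩
  have hH := wallFam_disp hne hD
  have hR := hH.starSys
  have hinv := sameSide_smul (G := G) (H := fun ρ : Cj f => DispS X r ρ)
    (fun g i x => DispS_smul g i x)
  have hd := hR.treeLike
  have hiso := dst_smul (G := G) hinv
  set R := sameSide (fun ρ : Cj f => DispS X r ρ) with hRdef
  set a : Cj f := ⟨f, 1, by group⟩ with ha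
  obtain ⟨p0, hp0⟩ := hne
  have hcompl : {x : X | dist x (f • x) ≤ r}ᶜ = {y : X | r < dist y (f • y)} := by
    ext y
    show ¬ (dist y (f • y) ≤ r) ↔ r < dist y (f • y)
    exact not_le
  -- a wall on the moved side
  obtain ⟨g, hg⟩ := exists_wall_beyond (G := G) hgc hcoc (isClosed_disp f r) ⟨p0, hp0⟩
    (gconvex_disp f r) (show x0 ∉ {x : X | dist x (f • x) ≤ r} from not_le.mpr hx0) p0
  set i : Cj f := g • a with hi
  have hgp : g • p0 ∈ DispS X r i := (DispS_smul g a p0).mpr hp0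
  have hfg : ¬ dist (g • p0) (f • g • p0) ≤ r := hg.target_mem
  have hia : i ≠ a := by
    intro h
    rw [h] at hgp
    exact hfg hgp
  have hfi : ¬ R a i (a.1 • i) := by
    intro h
    have h1 := hH.joined_of_sameSide h hgp ((DispS_smul a.1 i (g • p0)).mpr hgp)
    apply hsep
    rw [← hcompl]
    have h2 := JoinedIn.map hg (f := fun z : X => f • z) (isometry_smul X f).continuous
    have h3 : JoinedIn {x : X | dist x (f • x) ≤ r}ᶜ (f • x0) (f • g • p0) := by
      apply h2.mono
      rintro _ ⟨z, hz, rfl⟩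
      intro hcon
      have hcon' : dist (f • z) (f • f • z) ≤ r := hcon
      rw [dist_smul] at hcon'
      exact hz hcon'
    have h4 : JoinedIn {x : X | dist x (f • x) ≤ r}ᶜ (g • p0) (f • g • p0) := h1
    exact (hg.trans h4).trans h3.symm
  -- a good pair of walls
  have hgood : ∃ b : Cj f, b ≠ a ∧ ¬ R a b (a.1 • b) ∧ ¬ R b a (b.1 • a) := by
    by_cases hcase : R i a (i.1 • a)
    · -- the wall `i • a`
      have hmove : i.1 • a ≠ a := by
        intro h
        have hc := Cj.comm_of_fix h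
        have h1 : a.1 • i = i := by
          apply Subtype.ext
          rw [Cj.smul_val, ← hc]
          group
        rw [h1] at hfi
        exact hfi (hR.refl hia)
      have hmove' : i.1⁻¹ • a ≠ a := by
        intro h
        apply hmove
        rw [inv_smul_eq_iff] at h
        exact h.symm
      have hii : i.1 • i = i := Cj.self_smul i
      have hii' : i.1⁻¹ • i = i := by rw [inv_smul_eq_iff, hii]
      have key : ∀ j : G, j • i = i → j • a ≠ a → R a (j • a) i := by
        intro j hj hja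
        by_contra hcon
        have h1 := hR.bt_of_sep (fun h => hcon (hR.symm h))
        unfold Bt at h1
        have h2 := hiso j i a
        rw [hj] at h2
        have h3 : dst R a (j • a) = 0 := by omega
        exact hja (hd.eq_of _ _ h3).symm
      have key2 : ∀ j : G, j • i = i → j • a ≠ a → ¬ R a (j • a) (a.1 • j • a) := by
        intro j hj hja hcon
        have h1 := key j hj hja
        have h2 := (hinv a.1 a (j • a) i).mpr h1
        rw [Cj.self_smul] at h2
        exact hfi (hR.trans (hR.symm h1) (hR.trans hcon h2))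
      refine ⟨i.1 • a, hmove, key2 i.1 hii hmove, ?_⟩
      intro hcon
      apply key2 i.1⁻¹ hii' hmove'
      rw [← hinv i.1⁻¹, inv_smul_smul] at hcon
      have e : i.1⁻¹ • (i.1 • a).1 • a = a.1 • i.1⁻¹ • a := by
        rw [smul_smul, smul_smul]
        congr 1
        show i.1⁻¹ * (i.1 * a.1 * i.1⁻¹) = a.1 * i.1⁻¹
        rw [mul_assoc i.1, inv_mul_cancel_left]
      rw [e] at hcon
      exact hcon
    · exact ⟨i, hia, hfi, hcase⟩
  obtain ⟨b, hba', hs1, hs2⟩ := hgood
  have hab : a ≠ b := hba'.symm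
  have hba : (b.1 * a.1) • a = b.1 • a := by
    rw [mul_smul, Cj.self_smul]
  have s1 := hR.bt_of_sep hs2
  have s2 := hR.bt_of_sep hs1
  have hax : TAx (dst R) (b.1 * a.1) a b := by
    refine ⟨hab, ?_, ?_, ?_⟩
    · rw [hba]
      intro h
      apply hab
      apply MulAction.injective b.1
      show b.1 • a = b.1 • b
      rw [← h, Cj.self_smul]
    · rw [hba]
      exact s1
    · rw [hba, mul_smul]
      have h1 := s2.smul hiso b.1
      rw [Cj.self_smul] at h1
      exact h1
  apply rankOne_of_goodAx hgc hcoc hirr hd hiso (fun σ z w h hf => hR.rankOne hcoc hinv h.ax hf)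
    (τ := b.1 * a.1) (x := a) (y := b)
  refine ⟨hax, ?_⟩
  rw [Subgroup.relIndex_eq_one.mpr]
  · exact one_ne_zero
  · rintro k ⟨hk1, hk2⟩
    have c1 : Commute k a.1 := Cj.comm_of_fix hk1
    have c2 : Commute k b.1 := Cj.comm_of_fix hk2
    rw [Subgroup.mem_centralizer_singleton_iff]
    exact c2.mul_right c1

end Refl

section Sub

variable {G : Type*} {X : Type u} [Group G] [MetricSpace X] [MulAction G X]

instance [IsIsometricSMul G X] (H : Subgroup G) : IsIsometricSMul H X :=
  ⟨fun g => isometry_smul X (g : G)⟩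

lemma Cocompact.subgroup [IsIsometricSMul G X] (h : Cocompact G X) (H : Subgroup G)
    [H.FiniteIndex] : Cocompact H X := by
  obtain ⟨K, hK, hcov⟩ := h
  have hfin : Finite (G ⧸ H) := inferInstance
  refine ⟨⋃ q : G ⧸ H, (fun x : X => (Quotient.out q)⁻¹ • x) '' K, ?_, ?_⟩
  · apply isCompact_iUnion
    intro q
    exact hK.image (isometry_smul X _).continuous
  · intro x
    obtain ⟨g, hg⟩ := hcov x
    have hmem : (Quotient.out (g : G ⧸ H))⁻¹ * g ∈ H := by
      rw [← QuotientGroup.eq]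
      exact QuotientGroup.out_eq' _
    refine ⟨⟨_, hmem⟩, mem_iUnion.mpr ⟨(g : G ⧸ H), g • x, hg, ?_⟩⟩
    show (Quotient.out (g : G ⧸ H))⁻¹ • g • x = ((Quotient.out (g : G ⧸ H))⁻¹ * g) • x
    rw [mul_smul]

end Sub

section Main

variable {G : Type*} {X : Type u} [Group G] [MetricSpace X] [IsCAT0 X] [ProperSpace X]
  [MulAction G X] [IsIsometricSMul G X] [ProperlyDiscontinuousSMul G X]

/-- Rank rigidity from an element moving a point across one of its displacement sets. -/
theorem rankOne_of_displacement (hgc : GeodesicallyComplete X)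
    (hcoc : Cocompact G X) (hirr : MetricIrreducible X) (r : ℝ) (Γ : Subgroup G) [Γ.FiniteIndex]
    (hΓ : ∀ γ ∈ Γ, γ ≠ 1 → ∀ y : X, 2 * r < dist y (γ • y)) {f : G}
    (hne : ∃ x : X, dist x (f • x) ≤ r)
    (hsep : ∃ x : X, r < dist x (f • x) ∧ ¬ JoinedIn {y : X | r < dist y (f • y)} x (f • x)) :
    ∃ g : G, IsRankOne (X := X) g := by
  set Γ' := Γ.normalCore with hΓ'
  set G' : Subgroup G := Γ' ⊔ Subgroup.zpowers f with hG'
  have hfi' : Γ'.FiniteIndex := Subgroup.finiteIndex_normalCore Γ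
  have hfi : G'.FiniteIndex := Subgroup.finiteIndex_of_le (le_sup_left : Γ' ≤ G')
  have hfG : f ∈ G' := (le_sup_right : Subgroup.zpowers f ≤ G') (Subgroup.mem_zpowers f)
  have hcoc' : Cocompact G' X := hcoc.subgroup G'
  have hstep : ∃ g : G', IsRankOne (X := X) g := by
    apply rankOne_of_displacement_disjoint (G := G') hgc hcoc' hirr (f := ⟨f, hfG⟩) hne ?_ hsep
    rintro ⟨g, hg⟩ ⟨x, h1, h2⟩
    apply Subtype.ext
    show g * f * g⁻¹ = f
    rw [hG', Subgroup.mem_sup_of_normal_left] at hg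
    obtain ⟨γ, hγ, z, ⟨k, rfl⟩, rfl⟩ := hg
    have e : γ * f ^ k * f * (γ * f ^ k)⁻¹ = γ * f * γ⁻¹ := by
      have c : f ^ k * f = f * f ^ k := (Commute.refl f).zpow_left k
      calc γ * f ^ k * f * (γ * f ^ k)⁻¹ = γ * (f ^ k * f) * (f ^ k)⁻¹ * γ⁻¹ := by group
        _ = γ * (f * f ^ k) * (f ^ k)⁻¹ * γ⁻¹ := by rw [c]
        _ = γ * f * γ⁻¹ := by group
    have h1' : dist x (f • x) ≤ r := h1
    have h2' : dist x ((γ * f ^ k * f * (γ * f ^ k)⁻¹) • x) ≤ r := h2
    rw [e] at h2'
    show γ * f ^ k * f * (γ * f ^ k)⁻¹ = f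
    rw [e]
    have hη : γ * f * γ⁻¹ * f⁻¹ ∈ Γ' := by
      have e2 : γ * f * γ⁻¹ * f⁻¹ = γ * (f * γ⁻¹ * f⁻¹) := by group
      rw [e2]
      exact Γ'.mul_mem hγ (Subgroup.Normal.conj_mem inferInstance _ (Γ'.inv_mem hγ) f)
    by_contra hcon
    have hne1 : γ * f * γ⁻¹ * f⁻¹ ≠ 1 := by
      intro h
      rw [mul_inv_eq_one] at h
      exact hcon h
    have h4 := hΓ _ (Γ.normalCore_le hη) hne1 (f • x)
    rw [mul_smul, inv_smul_smul] at h4
    have h5 := dist_triangle (f • x) x ((γ * f * γ⁻¹) • x)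
    rw [dist_comm (f • x) x] at h5
    linarith
  obtain ⟨g, c, hc, ⟨l, hl, hcl⟩, hb⟩ := hstep
  exact ⟨(g : G), c, hc, ⟨l, hl, hcl⟩, hb⟩

end Main

end Pool.Agent.H29
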