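import Pool.Agent.H29.Product

/-!
# Splitting off a line; normal subgroups fixing a point at infinity
-/

open Set Filter Topology Metric

set_option linter.unusedSectionVars false

namespace Pool.Agent.H29

/-! ### a line with complementary Busemann functions splits off -/

section Split

variable {X : Type*} [MetricSpace X] [IsCAT0 X]

lemma busF_lip {c : ℝ → X} (hc : Isometry c) (x y : X) : busF c x ≤ busF c y + dist x y :=
  (isDR_fwd hc).bus_lip x y

lemma busF_abs {c : ℝ → X} (hc : Isometry c) (x y : X) : |busF c x - busF c y| ≤ dist x y := by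
  rw [abs_le]
  have h1 := busF_lip hc x y
  have h2 := busF_lip hc y x
  rw [dist_comm y x] at h2
  constructor <;> linarith

variable [ProperSpace X]

/-- a point further along the direction of `c` -/
lemma exists_flow {c : ℝ → X} (hc : Isometry c) (x : X) {t : ℝ} (ht : 0 ≤ t) :
    ∃ y, dist x y ≤ t ∧ busF c y ≤ busF c x - t := by
  -- for every ε there is an approximate solution, then use compactness
  have happrox : ∀ ε > 0, ∃ y, dist x y ≤ t ∧ busF c y ≤ busF c x - t + ε := by
    intro ε hε
    set B := busF c x with hB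
    have hT := (isDR_fwd hc).tendsto x
    have hev : ∀ᶠ n : ℕ in atTop, dist x (c n) - 1 * (n : ℝ) < B + 1 :=
      hT.eventually_lt_const (by rw [hB]; show bus _ 1 x < busF c x + 1; unfold busF; linarith)
    obtain ⟨m, hm⟩ := exists_nat_gt (max (t + |B|) (t / ε + |B|))
    obtain ⟨n, hn1, hn2⟩ := (hev.and (eventually_ge_atTop m)).exists
    have hn2' : (m : ℝ) ≤ n := by exact_mod_cast hn2
    have hnt : t + |B| < n := lt_of_le_of_lt (le_max_left _ _) (hm.trans_le hn2')
    have hnε : t / ε + |B| < n := lt_of_le_of_lt (le_max_right _ _) (hm.trans_le hn2')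
    set D := dist x (c n) with hD
    have hDlow : (n : ℝ) + B ≤ D := by
      have := (isDR_fwd hc).bus_le x n
      have h2 : busF c x ≤ D - 1 * n := this
      rw [← hB] at h2
      linarith
    have hBabs := neg_abs_le B
    have hBabs' := le_abs_self B
    have hDpos : 0 < D := by linarith [abs_nonneg B]
    have hDt : t ≤ D := by linarith
    have hl : t / D ∈ Icc (0 : ℝ) 1 := by
      constructor
      · positivity
      · rw [div_le_one hDpos]; exact hDt
    refine ⟨pt x (c n) (t / D), ?_, ?_⟩
    · rw [dist_left_pt _ _ hl, ← hD]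
      field_simp
      exact le_refl _
    · have hconv : busF c (pt x (c n) (t / D)) ≤ (1 - t / D) * busF c x + t / D * busF c (c n) :=
        (isDR_fwd hc).gconvexFun_bus x (c n) _ hl
      rw [busF_line hc, ← hB] at hconv
      have hfin : (1 - t / D) * B + t / D * (-(n : ℝ)) ≤ B - t + ε := by
        have h1 : (1 - t / D) * B + t / D * (-(n : ℝ)) = B - t / D * (n + B) := by ring
        have h3 : D < n + B + 1 := by linarith
        have h2 : t - ε ≤ t / D * (n + B) := by
          rw [div_mul_eq_mul_div, le_div_iff₀ hDpos]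
          -- t (n+B) ≥ (t-ε) D
          have h5 : t ≤ D * ε := by
            have h6 : t / ε < D := by linarith
            rw [div_lt_iff₀ hε] at h6
            exact h6.le
          nlinarith
        rw [h1]; linarith
      linarith
  choose y hy using fun n : ℕ => happrox (1 / ((n : ℝ) + 1)) (by positivity)
  obtain ⟨y0, _, φ, hφ, hlim⟩ := (isCompact_closedBall x t).tendsto_subseq (x := y)
    (fun n => by rw [mem_closedBall, dist_comm]; exact (hy n).1)
  refine ⟨y0, ?_, ?_⟩
  · have h1 : Tendsto (fun n => dist x (y (φ n))) atTop (𝓝 (dist x y0)) :=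
      tendsto_const_nhds.dist hlim
    exact le_of_tendsto' h1 (fun n => (hy _).1)
  · have h1 : Tendsto (fun n => busF c (y (φ n))) atTop (𝓝 (busF c y0)) :=
      ((isDR_fwd hc).continuous_bus.tendsto y0).comp hlim
    have h2 : Tendsto (fun n : ℕ => busF c x - t + 1 / (((φ n : ℕ) : ℝ) + 1)) atTop
        (𝓝 (busF c x - t + 0)) := by
      apply Tendsto.const_add
      exact tendsto_one_div_add_atTop_nhds_zero_nat.comp hφ.tendsto_atTop
    rw [add_zero] at h2
    exact le_of_tendsto_of_tendsto' h1 h2 (fun n => (hy _).2)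

/-- If the two Busemann functions of a line add up to zero and the space is irreducible, the
line is everything. -/
theorem surjective_of_busF {X : Type*} [MetricSpace X] [IsCAT0 X] [ProperSpace X]
    (hirr : MetricIrreducible X) {c : ℝ → X} (hc : Isometry c)
    (hz : ∀ x, busF c x + busF (fun t => c (-t)) x = 0) : Function.Surjective c := by
  set b : X → ℝ := busF c with hb
  have hc' := isometry_comp_neg hc
  have hneg : ∀ x, busF (fun t => c (-t)) x = - b x := fun x => by
    have := hz x
    simp only [hb]
    linarith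
  have habs : ∀ x y, |b x - b y| ≤ dist x y := busF_abs hc
  -- level sets
  set L : ℝ → Set X := fun s => {x | b x = s} with hL
  have hcont : Continuous b := (isDR_fwd hc).continuous_bus
  have hLclosed : ∀ s, IsClosed (L s) := fun s => isClosed_eq hcont continuous_const
  have hLne : ∀ s, (L s).Nonempty := fun s => ⟨c (-s), by
    show b (c (-s)) = s
    rw [hb, busF_line hc]; ring⟩
  have hLconv : ∀ s, GConvex (L s) := by
    intro s x hx y hy t ht
    have h1 : b (pt x y t) ≤ (1 - t) * b x + t * b y := (isDR_fwd hc).gconvexFun_bus x y t ht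
    have h2 : busF (fun t => c (-t)) (pt x y t) ≤ (1 - t) * busF (fun t => c (-t)) x
        + t * busF (fun t => c (-t)) y := (isDR_fwd hc').gconvexFun_bus x y t ht
    rw [hneg, hneg, hneg] at h2
    have hx' : b x = s := hx
    have hy' : b y = s := hy
    rw [hx', hy'] at h1 h2
    show b (pt x y t) = s
    apply le_antisymm
    · linarith
    · linarith
  have hinf : ∀ x s, infDist x (L s) = |b x - s| := by
    intro x s
    apply le_antisymm
    · -- exists a point
      rcases le_total s (b x) with h | h
      · obtain ⟨y, hy1, hy2⟩ := exists_flow hc x (t := b x - s) (by linarith)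
        have hyb : b y = s := by
          have h1 := habs x y
          rw [abs_le] at h1
          have h3 : b y ≤ b x - (b x - s) := hy2
          apply le_antisymm
          · linarith
          · linarith [h1.2]
        rw [abs_of_nonneg (by linarith)]
        exact (infDist_le_dist_of_mem (show y ∈ L s from hyb)).trans hy1
      · obtain ⟨y, hy1, hy2⟩ := exists_flow hc' x (t := s - b x) (by linarith)
        rw [hneg, hneg] at hy2
        have hyb : b y = s := by
          have h1 := habs x y
          rw [abs_le] at h1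
          apply le_antisymm
          · linarith [h1.1]
          · linarith
        rw [abs_of_nonpos (by linarith)]
        have := (infDist_le_dist_of_mem (show y ∈ L s from hyb)).trans hy1
        linarith
    · rw [← dist_proj (hLclosed s) (hLne s) x]
      have h1 : b (proj (L s) x) = s := proj_mem (hLclosed s) (hLne s) x
      have h2 := habs x (proj (L s) x)
      rwa [h1] at h2
  have pL : ∀ s x, b (proj (L s) x) = s := fun s x => proj_mem (hLclosed s) (hLne s) x
  have dL : ∀ s x, dist x (proj (L s) x) = |b x - s| := fun s x => by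
    rw [dist_proj (hLclosed s) (hLne s), hinf]
  have eqL : ∀ s x y, b y = s → dist x y ≤ |b x - s| → y = proj (L s) x := fun s x y hy hd =>
    eq_proj (hLclosed s) (hLne s) (hLconv s) (show y ∈ L s from hy) (by rw [hinf]; exact hd)
  -- projections of one point to two levels
  have hbetween : ∀ x s t, (b x ≤ s ∧ s ≤ t ∨ t ≤ s ∧ s ≤ b x) →
      dist (proj (L s) x) (proj (L t) x) = |s - t| := by
    intro x s t hst
    have h1 : proj (L t) (proj (L s) x) = proj (L t) x := by
      apply eqL t x _ (pL _ _)
      have h2 := dist_triangle x (proj (L s) x) (proj (L t) (proj (L s) x))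
      rw [dL, dL, pL] at h2
      refine h2.trans (le_of_eq ?_)
      rcases hst with ⟨ha, hb'⟩ | ⟨ha, hb'⟩
      · rw [abs_of_nonpos (by linarith), abs_of_nonpos (by linarith), abs_of_nonpos (by linarith)]
        ring
      · rw [abs_of_nonneg (by linarith), abs_of_nonneg (by linarith), abs_of_nonneg (by linarith)]
        ring
    rw [← h1, dL, pL]
  have htwo : ∀ x s t, dist (proj (L s) x) (proj (L t) x) = |s - t| := by
    intro x s t
    by_cases h1 : b x ≤ s ∧ s ≤ t ∨ t ≤ s ∧ s ≤ b x
    · exact hbetween x s t h1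
    · by_cases h2 : b x ≤ t ∧ t ≤ s ∨ s ≤ t ∧ t ≤ b x
      · rw [dist_comm, hbetween x t s h2, abs_sub_comm]
      · apply le_antisymm
        · have h3 := dist_triangle_left (proj (L s) x) (proj (L t) x) x
          rw [dL, dL] at h3
          refine h3.trans (le_of_eq ?_)
          rcases le_total (b x) s with a1 | a1 <;> rcases le_total (b x) t with a2 | a2 <;>
            rcases le_total s t with a3 | a3
          · exact absurd (Or.inl ⟨a1, a3⟩) h1
          · exact absurd (Or.inl ⟨a2, a3⟩) h2
          · have : s = b x := by linarith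
            rw [this]; simp
          · rw [abs_of_nonpos (by linarith), abs_of_nonneg (by linarith),
              abs_of_nonneg (by linarith)]; ring
          · rw [abs_of_nonneg (by linarith), abs_of_nonpos (by linarith),
              abs_of_nonpos (by linarith)]; ring
          · have : s = b x := by linarith
            rw [this]; simp
          · exact absurd (Or.inr ⟨a3, a2⟩) h2
          · exact absurd (Or.inr ⟨a3, a1⟩) h1
        · have := habs (proj (L s) x) (proj (L t) x)
          rwa [pL, pL] at this
  have hcomp : ∀ x s t, proj (L t) (proj (L s) x) = proj (L t) x := by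
    intro x s t
    symm
    apply eqL t _ _ (pL _ _)
    rw [htwo, pL]
  -- projections between levels are isometric
  have hself : ∀ x, proj (L (b x)) x = x := fun x =>
    proj_of_mem (hLclosed _) (hLconv _) (show x ∈ L (b x) from rfl)
  have hisoL : ∀ x y t, b x = b y → dist (proj (L t) x) (proj (L t) y) = dist x y := by
    intro x y t hxy
    apply le_antisymm (proj_lipschitz (hLclosed t) (hLne t) (hLconv t) x y)
    have h1 := proj_lipschitz (hLclosed (b x)) (hLne (b x)) (hLconv (b x))
      (proj (L t) x) (proj (L t) y)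
    rw [hcomp, hcomp, hself x, hxy, hself y] at h1
    exact h1
  set q : X → X := fun x => proj (L 0) x with hq
  set p : X → X := fun x => c (- b x) with hp
  have hpd : ∀ x x', dist (p x) (p x') = |b x - b x'| := by
    intro x x'
    rw [hp, hc.dist_eq, Real.dist_eq, ← abs_neg]
    congr 1
    ring
  have hdist : ∀ x x', dist x x' ^ 2 = dist (p x) (p x') ^ 2 + dist (q x) (q x') ^ 2 := by
    intro x x'
    rw [hpd, sq_abs]
    set β := b x with hβ
    set β' := b x' with hβ'
    set y := proj (L β') x with hy
    set y' := proj (L β) x' with hy'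
    have byy : b y = β' := pL _ _
    have byy' : b y' = β := pL _ _
    have hyx : dist x y = |β - β'| := dL _ _
    have hyx' : dist x' y' = |β - β'| := by rw [dL, abs_sub_comm]
    have hD : dist y x' = dist x y' := by
      have := hisoL x y' β' (by rw [byy'])
      have e : proj (L β') y' = x' := by rw [hy', hcomp, hself]
      rw [e] at this
      exact this
    have hq1 : dist (q x) (q x') = dist y x' := by
      have h1 := hisoL y x' 0 (by rw [byy])
      have h2 : proj (L 0) y = proj (L 0) x := hcomp x β' 0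
      rw [h2] at h1
      exact h1
    -- obtuse inequalities
    have hmin1 : ∀ z ∈ L β', dist x y ≤ dist x z := fun z hz' =>
      proj_min (hLclosed _) (hLne _) x hz'
    have o1 := obtuse (hLconv β') (show y ∈ L β' from byy) hmin1 (show x' ∈ L β' from rfl)
    have hx'proj : x' = proj (L β') y' := by rw [hy', hcomp, hself]
    have o2 := proj_obtuse (hLclosed β') (hLne β') (hLconv β') y' (show y ∈ L β' from byy)
    rw [← hx'proj] at o2
    have q1 := quad x y' x' y
    have e1 : dist y' x' = |β - β'| := by rw [dist_comm]; exact hyx'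
    rw [hyx] at o1
    rw [e1, dist_comm x' y, hD] at o2
    rw [hD] at o1
    rw [hyx, e1, dist_comm x' y, hD] at q1
    have sqa : |β - β'| ^ 2 = (β - β') ^ 2 := sq_abs _
    rw [sqa] at o1 o2 q1
    rw [hq1, hD]
    nlinarith
  have hsurj : ∀ x y, ∃ z, p z = p x ∧ q z = q y := by
    intro x y
    refine ⟨proj (L (b x)) y, ?_, ?_⟩
    · show c (- b _) = c (- b x)
      rw [pL]
    · exact hcomp y (b x) 0
  rcases hirr.elim hdist hsurj with h | h
  · exfalso
    have h1 := hpd (c 0) (c 1)
    rw [h (c 0) (c 1), dist_self, hb, busF_line hc, busF_line hc] at h1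
    norm_num at h1
  · intro x
    refine ⟨- b x, ?_⟩
    have h1 := hdist x (c (- b x))
    rw [h x (c (- b x)), dist_self, hpd] at h1
    have h2 : b (c (- b x)) = b x := by
      rw [hb, busF_line hc]; ring
    rw [h2] at h1
    simp at h1
    exact h1.symm

end Split

/-! ### limits of rays and lines -/

section Limits

variable {X : Type*} [MetricSpace X] [ProperSpace X]

lemma exists_limit_map {J : Type*} (U : Ultrafilter J) (σ : J → ℝ → X) (x : X)
    (h : ∀ t : ℝ, ∃ r : ℝ, ∀ᶠ j in (U : Filter J), dist (σ j t) x ≤ r) :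
    ∃ ρ : ℝ → X, ∀ t, Tendsto (fun j => σ j t) U (𝓝 (ρ t)) := by
  have key : ∀ t : ℝ, ∃ y : X, Tendsto (fun j => σ j t) U (𝓝 y) := by
    intro t
    obtain ⟨r, hr⟩ := h t
    have hK := isCompact_closedBall x r
    rw [isCompact_iff_ultrafilter_le_nhds] at hK
    obtain ⟨y, _, hy⟩ := hK (U.map (fun j => σ j t)) (by
      rw [le_principal_iff]
      show ∀ᶠ j in (U : Filter J), σ j t ∈ closedBall x r
      exact hr)
    exact ⟨y, hy⟩
  choose ρ hρ using key
  exact ⟨ρ, hρ⟩

end Limits

section Ray

variable {X : Type*} [MetricSpace X] [IsCAT0 X] [ProperSpace X]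

/-- geodesic rays -/
def IsRay (ρ : ℝ → X) : Prop := ∀ s t : ℝ, 0 ≤ s → 0 ≤ t → dist (ρ s) (ρ t) = |s - t|

/-- A family of convex functions which is, on finite subfamilies, small at far away points is
bounded along a ray. -/
theorem exists_ray {I : Type*} (f : I → X → ℝ) (hconv : ∀ i, GConvexFun (f i))
    (hcont : ∀ i, Continuous (f i)) (p : X)
    (h : ∀ (S : Finset I) (k : ℕ), ∃ z, (k : ℝ) ≤ dist p z ∧
      ∀ i ∈ S, f i z ≤ f i p + dist p z / (k + 1)) :
    ∃ ρ : ℝ → X, ρ 0 = p ∧ IsRay ρ ∧ ∀ i t, 0 ≤ t → f i (ρ t) ≤ f i p := by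
  classical
  choose z hz1 hz2 using h
  -- the directed index set
  set F : Filter (Finset I × ℕ) := atTop with hF
  have : F.NeBot := atTop_neBot
  set U : Ultrafilter (Finset I × ℕ) := Ultrafilter.of F with hU
  have hUF : (U : Filter _) ≤ F := Ultrafilter.of_le F
  set σ : (Finset I × ℕ) → ℝ → X := fun j t => pt p (z j.1 j.2) (t / dist p (z j.1 j.2)) with hσ
  have hbig : ∀ t : ℝ, ∀ᶠ j in F, t < dist p (z j.1 j.2) := by
    intro t
    obtain ⟨k, hk⟩ := exists_nat_gt t
    filter_upwards [eventually_ge_atTop ((∅, k) : Finset I × ℕ)] with j hj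
    have : (k : ℝ) ≤ j.2 := by exact_mod_cast hj.2
    linarith [hz1 j.1 j.2]
  have hmemI : ∀ t : ℝ, 0 ≤ t → ∀ d : ℝ, t < d → t / d ∈ Icc (0 : ℝ) 1 := by
    intro t ht d hd
    have hdpos : 0 < d := by linarith
    constructor
    · positivity
    · rw [div_le_one hdpos]; exact hd.le
  have hdist : ∀ s t : ℝ, 0 ≤ s → 0 ≤ t → ∀ᶠ j in F, dist (σ j s) (σ j t) = |s - t| := by
    intro s t hs ht
    filter_upwards [hbig s, hbig t] with j h1 h2
    set d := dist p (z j.1 j.2)
    have hdpos : 0 < d := by linarith
    show dist (pt _ _ _) (pt _ _ _) = _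
    rw [dist_pt_pt _ _ (hmemI s hs d h1) (hmemI t ht d h2), ← sub_div, abs_div,
      abs_of_pos hdpos]
    exact div_mul_cancel₀ _ hdpos.ne'
  have hσ0 : ∀ j, σ j 0 = p := by
    intro j
    show pt _ _ _ = _
    rw [zero_div, pt_zero]
  obtain ⟨ρ, hρ⟩ := exists_limit_map U (fun j t => σ j (max t 0)) p (by
    intro t
    refine ⟨max t 0, ?_⟩
    filter_upwards [hUF (hdist (max t 0) 0 (le_max_right _ _) (le_refl _))] with j hj
    rw [hσ0] at hj
    show dist (σ j (max t 0)) p ≤ _
    rw [hj, sub_zero, abs_of_nonneg (le_max_right _ _)])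
  refine ⟨ρ, ?_, ?_, ?_⟩
  · have h1 : Tendsto (fun _ : Finset I × ℕ => p) U (𝓝 (ρ 0)) := by
      have := hρ 0
      simpa [hσ0] using this
    exact tendsto_nhds_unique h1 tendsto_const_nhds
  · intro s t hs ht
    have h1 : Tendsto (fun j => dist (σ j (max s 0)) (σ j (max t 0))) U (𝓝 (dist (ρ s) (ρ t))) :=
      (hρ s).dist (hρ t)
    have h2 : Tendsto (fun j => dist (σ j (max s 0)) (σ j (max t 0))) U (𝓝 |s - t|) := by
      apply tendsto_const_nhds.congr'
      filter_upwards [hUF (hdist s t hs ht)] with j hj
      rw [max_eq_left hs, max_eq_left ht, hj]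
    exact tendsto_nhds_unique h1 h2
  · intro i t ht
    have h1 : Tendsto (fun j => f i (σ j (max t 0))) U (𝓝 (f i (ρ t))) :=
      ((hcont i).tendsto (ρ t)).comp (hρ t)
    have h2 : Tendsto (fun j : Finset I × ℕ => f i p + t * (1 / ((j.2 : ℝ) + 1))) U
        (𝓝 (f i p + t * 0)) := by
      apply Tendsto.const_add
      apply Tendsto.const_mul
      have h3 : Tendsto (fun j : Finset I × ℕ => j.2) F atTop := by
        rw [hF, ← prod_atTop_atTop_eq]
        exact tendsto_snd
      exact (tendsto_one_div_add_atTop_nhds_zero_nat.comp h3).mono_left hUF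
    rw [mul_zero, add_zero] at h2
    apply le_of_tendsto_of_tendsto h1 h2
    have hev : ∀ᶠ j in F, i ∈ j.1 := by
      filter_upwards [eventually_ge_atTop (({i}, 0) : Finset I × ℕ)] with j hj
      exact hj.1 (Finset.mem_singleton_self i)
    filter_upwards [hUF hev, hUF (hbig t)] with j h3 h4
    rw [max_eq_left ht]
    set d := dist p (z j.1 j.2) with hd
    have hdpos : 0 < d := by linarith
    have hl := hmemI t ht d h4
    have h5 := hconv i p (z j.1 j.2) _ hl
    have h6 := hz2 j.1 j.2 i h3
    rw [← hd] at h6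
    show f i (pt p (z j.1 j.2) (t / d)) ≤ _
    have h7 : t / d * f i (z j.1 j.2) ≤ t / d * (f i p + d / (j.2 + 1)) :=
      mul_le_mul_of_nonneg_left h6 hl.1
    have h8 : t / d * (d / (j.2 + 1)) = t * (1 / ((j.2 : ℝ) + 1)) := by
      field_simp
    nlinarith

end Ray

/-! ### normal subgroups fixing a point at infinity -/

section Fix

universe u

variable {G : Type*} {X : Type u} [Group G] [MetricSpace X] [IsCAT0 X] [ProperSpace X]
  [MulAction G X] [IsIsometricSMul G X]

/-- **A normal subgroup fixing a point at infinity forces the space to be a line.** -/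
theorem line_of_ray [ProperlyDiscontinuousSMul G X] (hgc : GeodesicallyComplete X)
    (hcoc : Cocompact G X) (hirr : MetricIrreducible X) (N : Subgroup G) [N.Normal]
    (hN : ∃ n ∈ N, ∃ x : X, n • x ≠ x) {ρ : ℝ → X} (hρ : IsRay ρ)
    (hb : ∀ n ∈ N, ∃ M : ℝ, ∀ t, 0 ≤ t → dist (ρ t) (n • ρ t) ≤ M) :
    ∃ c : ℝ → X, Isometry c ∧ Function.Surjective c := by
  have : Nonempty X := ⟨ρ 0⟩
  obtain ⟨x, hx⟩ := exists_extremal_min (G := G) hcoc N
  -- far away points of the ray
  obtain ⟨K0, hK0⟩ := exists_nat_gt (dist x (ρ 0))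
  set z : ℕ → X := fun k => ρ ((k + K0 + 1 : ℕ) : ℝ) with hz
  have hzd : ∀ k : ℕ, (k : ℝ) + 1 ≤ dist x (z k) := by
    intro k
    have h1 := hρ 0 ((k + K0 + 1 : ℕ) : ℝ) (le_refl _) (Nat.cast_nonneg _)
    rw [zero_sub, abs_neg, abs_of_nonneg (Nat.cast_nonneg _)] at h1
    have h2 := dist_triangle_left (ρ 0) (z k) x
    rw [hz] at h2 ⊢
    simp only at h2 ⊢
    rw [h1] at h2
    push_cast at h2
    push_cast
    linarith
  have hzne : ∀ k, x ≠ z k := by
    intro k h
    have := hzd k
    rw [← h, dist_self] at this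
    have : (0 : ℝ) ≤ k := Nat.cast_nonneg k
    linarith
  choose c hc hc0 hc1 using fun k => hgc.line (hzne k)
  set U : Ultrafilter ℕ := hyperfilter ℕ with hU
  have hUF : (U : Filter ℕ) ≤ atTop := by
    rw [← Nat.cofinite_eq_atTop]
    exact hyperfilter_le_cofinite
  obtain ⟨γ, hγ⟩ := exists_limit_map U (fun k t => c k t) x (by
    intro t
    refine ⟨|t|, Eventually.of_forall (fun k => ?_)⟩
    rw [← hc0 k, (hc k).dist_eq, Real.dist_eq, sub_zero])
  have hγiso : Isometry γ := by
    apply Isometry.of_dist_eq
    intro s t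
    have h1 : Tendsto (fun k => dist (c k s) (c k t)) U (𝓝 (dist (γ s) (γ t))) :=
      (hγ s).dist (hγ t)
    have h2 : Tendsto (fun k => dist (c k s) (c k t)) U (𝓝 (dist s t)) := by
      have : (fun k => dist (c k s) (c k t)) = fun _ => dist s t := by
        funext k; exact (hc k).dist_eq s t
      rw [this]
      exact tendsto_const_nhds
    exact tendsto_nhds_unique h1 h2
  have hγ0 : γ 0 = x := by
    have h1 : Tendsto (fun _ : ℕ => x) U (𝓝 (γ 0)) := by
      have := hγ 0
      simpa [hc0] using this
    exact tendsto_nhds_unique h1 tendsto_const_nhds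
  -- displacement along γ, forward
  have hfwd : ∀ n ∈ N, ∀ t : ℝ, 0 ≤ t → dist (γ t) (n • γ t) ≤ dist x (n • x) := by
    intro n hn t ht
    obtain ⟨M, hM⟩ := hb n hn
    have h1 : Tendsto (fun k => dist (c k t) (n • c k t)) U (𝓝 (dist (γ t) (n • γ t))) :=
      ((continuous_disp n).tendsto (γ t)).comp (hγ t)
    have h2 : Tendsto (fun k : ℕ => dist x (n • x) + t * |M| * (1 / ((k : ℝ) + 1))) U
        (𝓝 (dist x (n • x) + t * |M| * 0)) := by
      apply Tendsto.const_add
      apply Tendsto.const_mul
      exact tendsto_one_div_add_atTop_nhds_zero_nat.mono_left hUF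
    rw [mul_zero, add_zero] at h2
    apply le_of_tendsto_of_tendsto h1 h2
    obtain ⟨k0, hk0⟩ := exists_nat_gt t
    filter_upwards [hUF (eventually_ge_atTop k0)] with k hk
    have hk' : (k0 : ℝ) ≤ k := by exact_mod_cast hk
    set D := dist x (z k) with hD
    have hDk := hzd k
    rw [← hD] at hDk
    have hDpos : 0 < D := by
      have : (0 : ℝ) ≤ k := Nat.cast_nonneg k
      linarith
    have hl : t / D ∈ Icc (0 : ℝ) 1 := by
      constructor
      · positivity
      · rw [div_le_one hDpos]; linarith
    have h3 := (gconvexFun_disp n).comp_line (hc k) 0 D _ hl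
    have e : (1 - t / D) * 0 + t / D * D = t := by field_simp; ring
    rw [e] at h3
    have e2 : c k D = z k := hc1 k
    simp only [hc0, e2] at h3
    have h4 : dist (z k) (n • z k) ≤ M := hM _ (Nat.cast_nonneg _)
    have h5 : dist (z k) (n • z k) ≤ |M| := h4.trans (le_abs_self M)
    have h6 : t / D * dist (z k) (n • z k) ≤ t * |M| * (1 / ((k : ℝ) + 1)) := by
      have h7 : t / D ≤ t * (1 / ((k : ℝ) + 1)) := by
        rw [div_eq_mul_one_div]
        apply mul_le_mul_of_nonneg_left _ ht
        apply one_div_le_one_div_of_le _ hDk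
        positivity
      calc t / D * dist (z k) (n • z k) ≤ t / D * |M| := mul_le_mul_of_nonneg_left h5 hl.1
        _ ≤ t * (1 / ((k : ℝ) + 1)) * |M| := mul_le_mul_of_nonneg_right h7 (abs_nonneg M)
        _ = _ := by ring
    have h8 : (1 - t / D) * dist x (n • x) ≤ dist x (n • x) := by
      have := mul_nonneg hl.1 (dist_nonneg (x := x) (y := n • x))
      nlinarith
    linarith
  have hconst : ∀ n ∈ N, ∀ t : ℝ, dist (γ t) (n • γ t) = dist x (n • x) := by
    have hback : ∀ t : ℝ, t ≤ 0 → ∀ n ∈ N, dist (γ t) (n • γ t) = dist x (n • x) := by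
      intro t ht
      apply hx
      intro n hn
      have hanti := ((gconvexFun_disp n).comp_line hγiso).antitone_of_bdd (t0 := 0)
        (M := dist x (n • x)) (fun t ht => hfwd n hn t ht)
      have := hanti ht
      simp only [hγ0] at this
      exact this
    intro n hn t
    have hall : ∀ s, dist (γ s) (n • γ s) ≤ dist x (n • x) := by
      intro s
      rcases le_total s 0 with h | h
      · exact (hback s h n hn).le
      · exact hfwd n hn s h
    have := ((gconvexFun_disp n).comp_line hγiso).const_of_bdd hall t 0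
    simp only [hγ0] at this
    exact this
  -- Busemann functions
  have hγ' := isometry_comp_neg hγiso
  have hk1 : ∀ n ∈ N, ∃ k : ℝ, ∀ z, busF γ (n • z) = busF γ z + k := by
    intro n hn
    have hu := isDR_fwd hγiso
    obtain ⟨k, hk⟩ := hu.bus_sub_const (hu.shift n⁻¹) one_pos (a := dist x (n • x)) (by
      intro m
      rw [← hconst n hn m, ← dist_smul n, smul_inv_smul, dist_comm])
    refine ⟨k, fun z => ?_⟩
    show bus _ 1 (n • z) = bus _ 1 z + k
    rw [bus_smul, hk]
  have hk2 : ∀ n ∈ N, ∃ k : ℝ, ∀ z, busF (fun t => γ (-t)) (n • z) =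
      busF (fun t => γ (-t)) z + k := by
    intro n hn
    have hu := isDR_fwd hγ'
    obtain ⟨k, hk⟩ := hu.bus_sub_const (hu.shift n⁻¹) one_pos (a := dist x (n • x)) (by
      intro m
      rw [← hconst n hn (-m), ← dist_smul n, smul_inv_smul, dist_comm])
    refine ⟨k, fun z => ?_⟩
    show bus _ 1 (n • z) = bus _ 1 z + k
    rw [bus_smul, hk]
  set f : X → ℝ := fun z => busF γ z + busF (fun t => γ (-t)) z with hf
  have hfnn : ∀ z, 0 ≤ f z := busF_add_nonneg hγiso
  have hk3 : ∀ n ∈ N, ∃ k : ℝ, ∀ z, f (n • z) = f z + k := by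
    intro n hn
    obtain ⟨k1, h1⟩ := hk1 n hn
    obtain ⟨k2, h2⟩ := hk2 n hn
    refine ⟨k1 + k2, fun z => ?_⟩
    simp only [hf]
    rw [h1, h2]; ring
  have hle : ∀ n ∈ N, ∀ z, f z ≤ f (n • z) := by
    intro n hn z
    obtain ⟨k, hk⟩ := hk3 n hn
    rw [hk z]
    have hpow : ∀ m : ℕ, f (n ^ m • z) = f z + m * k := by
      intro m
      induction m with
      | zero => simp
      | succ m ih =>
        rw [pow_succ', mul_smul, hk, ih]
        push_cast
        ring
    by_contra hcon
    push Not at hcon
    have hk0 : k < 0 := by linarith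
    obtain ⟨m, hm⟩ := exists_nat_gt (f z / (-k))
    rw [div_lt_iff₀ (by linarith)] at hm
    have := hfnn (n ^ m • z)
    rw [hpow m] at this
    linarith
  have hinv : ∀ n ∈ N, ∀ z, f (n • z) = f z := by
    intro n hn z
    apply le_antisymm _ (hle n hn z)
    have := hle n⁻¹ (N.inv_mem hn) (n • z)
    rwa [inv_smul_smul] at this
  have hfconv : GConvexFun f := (isDR_fwd hγiso).gconvexFun_bus.add (isDR_fwd hγ').gconvexFun_bus
  have hfcont : Continuous f :=
    (isDR_fwd hγiso).continuous_bus.add (isDR_fwd hγ').continuous_bus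
  have hf0 : f x = 0 := by
    simp only [hf]
    rw [← hγ0, busF_line hγiso]
    have := busF_line hγ' 0
    simp only [neg_zero] at this
    rw [this]; ring
  have huniv := normal_minimal (G := G) hgc hcoc hirr N hN
    (isNC_sublevel hfconv hfcont hinv 0) ⟨x, hf0.le⟩
  refine ⟨γ, hγiso, surjective_of_busF hirr hγiso (fun z => ?_)⟩
  have hz : z ∈ {z | f z ≤ 0} := by rw [huniv]; exact mem_univ z
  exact le_antisymm hz (hfnn z)

/-- bounded displacement along a ray passes to the subgroup generated -/
lemma bdd_closure {ρ : ℝ → X} {T : Set G}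
    (h : ∀ r ∈ T, ∃ M : ℝ, ∀ t, 0 ≤ t → dist (ρ t) (r • ρ t) ≤ M) :
    ∀ n ∈ Subgroup.closure T, ∃ M : ℝ, ∀ t, 0 ≤ t → dist (ρ t) (n • ρ t) ≤ M := by
  intro n hn
  induction hn using Subgroup.closure_induction with
  | mem r hr => exact h r hr
  | one => exact ⟨0, fun t _ => by rw [one_smul, dist_self]⟩
  | mul a b _ _ iha ihb =>
    obtain ⟨A, hA⟩ := iha
    obtain ⟨B, hB⟩ := ihb
    refine ⟨A + B, fun t ht => ?_⟩
    have h1 := dist_triangle (ρ t) (a • ρ t) ((a * b) • ρ t)
    have h2 : dist (a • ρ t) ((a * b) • ρ t) = dist (ρ t) (b • ρ t) := by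
      rw [mul_smul, dist_smul]
    rw [h2] at h1
    linarith [hA t ht, hB t ht]
  | inv a _ iha =>
    obtain ⟨A, hA⟩ := iha
    refine ⟨A, fun t ht => ?_⟩
    rw [← dist_smul a, smul_inv_smul, dist_comm]
    exact hA t ht

end Fix

end Pool.Agent.H29
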