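import Pool.Agent.H29.Axis

/-!
# Separating families and flat half-planes

If an element shifts a wall with a finite two-step stabiliser then its axes bound no flat
half-plane.
-/

open Set Filter Topology Metric

set_option linter.unusedSectionVars false

namespace Pool.Agent.H29

section Half

variable {X : Type*} [MetricSpace X]

lemma half_dist_eq {F : ℝ → ℝ → X}
    (hF : ∀ t s t' s' : ℝ, 0 ≤ s → 0 ≤ s' →
      dist (F t s) (F t' s') ^ 2 = (t - t') ^ 2 + (s - s') ^ 2) {s : ℝ} (hs : 0 ≤ s) (t t' : ℝ) :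
    dist (F t s) (F t' s) = |t - t'| := by
  have h := hF t s t' s hs hs
  rw [sub_self, zero_pow two_ne_zero, add_zero, ← sq_abs (t - t')] at h
  exact (pow_left_inj₀ dist_nonneg (abs_nonneg _) two_ne_zero).mp h

lemma half_dist_vert {F : ℝ → ℝ → X}
    (hF : ∀ t s t' s' : ℝ, 0 ≤ s → 0 ≤ s' →
      dist (F t s) (F t' s') ^ 2 = (t - t') ^ 2 + (s - s') ^ 2) {s s' : ℝ} (hs : 0 ≤ s)
    (hs' : 0 ≤ s') (t : ℝ) : dist (F t s) (F t s') = |s - s'| := by
  have h := hF t s t s' hs hs'
  rw [sub_self, zero_pow two_ne_zero, zero_add, ← sq_abs (s - s')] at h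
  exact (pow_left_inj₀ dist_nonneg (abs_nonneg _) two_ne_zero).mp h

end Half

section Sep

variable {G X V E : Type*} [Group G] [MetricSpace X] [ProperSpace X]
  [MulAction G X] [IsIsometricSMul G X] [ProperlyDiscontinuousSMul G X]
  [MulAction G V] [MulAction G E]

lemma axis_zpow {g : G} {c : ℝ → X} {l : ℝ} (hax : ∀ t, g • c t = c (t + l)) (k : ℤ) (t : ℝ) :
    g ^ k • c t = c (t + k * l) := by
  have hnat : ∀ (n : ℕ) (t : ℝ), g ^ n • c t = c (t + n * l) := by
    intro n
    induction n with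
    | zero => intro t; simp
    | succ n ih =>
      intro t
      rw [pow_succ, mul_smul, hax, ih]
      congr 1
      push_cast
      ring
  rcases Int.eq_nat_or_neg k with ⟨n, rfl | rfl⟩
  · rw [zpow_natCast, hnat]
    simp
  · rw [zpow_neg, zpow_natCast, inv_smul_eq_iff, hnat]
    congr 1
    push_cast
    ring

theorem not_boundsHalfPlane_of_sep (hcoc : Cocompact G X)
    (side : E → Set V) (hside : ∀ (g : G) (e : E) (v : V), g • v ∈ side (g • e) ↔ v ∈ side e)
    (v0 : V) (τ : G) (e : E)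
    (hfin : ∀ g : G, {e' | (∃ h : G, e' = h • e) ∧ v0 ∈ side e' ∧ g • v0 ∉ side e'}.Finite)
    (hmono : side e ⊆ side (τ • e))
    (h0 : ∃ n : ℤ, v0 ∈ side (τ ^ n • e)) (h1 : ∃ n : ℤ, v0 ∉ side (τ ^ n • e))
    (hstab : {g : G | g • e = e ∧ g • τ • e = τ • e}.Finite)
    {c : ℝ → X} (hc : Isometry c) {l : ℝ} (hl : 0 < l) (hax : ∀ t, τ • c t = c (t + l)) :
    ¬ BoundsHalfPlane c := by
  classical
  rintro ⟨F, hF0, hF⟩
  obtain ⟨n0, hn0⟩ := h0
  obtain ⟨n1, hn1⟩ := h1
  -- membership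
  have hmem : ∀ (g : G) (e' : E) (v : V), v ∈ side (g • e') ↔ g⁻¹ • v ∈ side e' := by
    intro g e' v
    rw [← hside g e' (g⁻¹ • v), smul_inv_smul]
  set A : ℤ → Set V := fun j => side (τ ^ j • e) with hA
  have hAshift : ∀ (i j : ℤ) (v : V), τ ^ i • v ∈ A (i + j) ↔ v ∈ A j := by
    intro i j v
    show τ ^ i • v ∈ side (τ ^ (i + j) • e) ↔ v ∈ side (τ ^ j • e)
    rw [zpow_add, mul_smul, hside]
  have hAmono : Monotone A := by
    apply monotone_int_of_le_succ
    intro j v hv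
    have h2 : v ∈ side (τ ^ j • τ • e) := by
      rw [hmem]
      apply hmono
      rw [← hmem]
      exact hv
    show v ∈ side (τ ^ (j + 1) • e)
    rw [zpow_add, zpow_one, mul_smul]
    exact h2
  -- finiteness for two arbitrary orbit points
  have hfin2 : ∀ a b : G,
      {e' | (∃ h : G, e' = h • e) ∧ a • v0 ∈ side e' ∧ b • v0 ∉ side e'}.Finite := by
    intro a b
    apply ((hfin (a⁻¹ * b)).image (fun e' => a • e')).subset
    rintro e' ⟨⟨h, rfl⟩, ha, hb⟩
    refine ⟨a⁻¹ • h • e, ⟨⟨a⁻¹ * h, by rw [mul_smul]⟩, ?_, ?_⟩, smul_inv_smul a _⟩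
    · rw [hmem, inv_inv]; exact ha
    · rw [hmem, inv_inv, smul_smul, mul_inv_cancel_left]; exact hb
  -- no periodicity
  have hnper : ∀ q : ℕ, 0 < q → τ ^ q • e ≠ e := by
    intro q hq hper
    have hmul : ∀ k : ℕ, (τ ^ q) ^ k • e = e := by
      intro k
      induction k with
      | zero => simp
      | succ k ih => rw [pow_succ, mul_smul, hper, ih]
    -- A n1 = A (n1 + q k)
    set k : ℕ := (n0 - n1).toNat with hk
    have hkle : n0 - n1 ≤ (k : ℤ) := Int.self_le_toNat _
    have hq' : (1 : ℤ) ≤ q := by exact_mod_cast hq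
    have hle : n0 ≤ n1 + (q * k : ℕ) := by
      push_cast
      nlinarith
    have h2 := hAmono hle hn0
    have h3 : A (n1 + (q * k : ℕ)) = A n1 := by
      show side (τ ^ (n1 + ((q * k : ℕ) : ℤ)) • e) = side (τ ^ n1 • e)
      rw [zpow_add, mul_smul, zpow_natCast, pow_mul, hmul]
    rw [h3] at h2
    exact hn1 h2
  have hinj : ∀ m : ℤ, Function.Injective (fun k : ℕ => τ ^ (m + k) • e) := by
    intro m a b hab
    have hab' : τ ^ (m + (a : ℤ)) • e = τ ^ (m + (b : ℤ)) • e := hab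
    by_contra hne
    rcases lt_or_gt_of_ne hne with h | h
    · apply hnper (b - a) (Nat.sub_pos_of_lt h)
      have e1 : m + (b : ℤ) = (m + a) + ((b - a : ℕ) : ℤ) := by
        rw [Nat.cast_sub h.le]; ring
      rw [e1, zpow_add τ (m + (a : ℤ)) ((b - a : ℕ) : ℤ), mul_smul, zpow_natCast] at hab'
      exact ((MulAction.injective (τ ^ (m + (a : ℤ)))) hab').symm
    · apply hnper (a - b) (Nat.sub_pos_of_lt h)
      have e1 : m + (a : ℤ) = (m + b) + ((a - b : ℕ) : ℤ) := by
        rw [Nat.cast_sub h.le]; ring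
      rw [e1, zpow_add τ (m + (b : ℤ)) ((a - b : ℕ) : ℤ), mul_smul, zpow_natCast] at hab'
      exact (MulAction.injective (τ ^ (m + (b : ℤ)))) hab'
  have hinj' : ∀ m : ℤ, Function.Injective (fun k : ℕ => τ ^ (m - k) • e) := by
    intro m a b hab
    have hab' : τ ^ (m - (a : ℤ)) • e = τ ^ (m - (b : ℤ)) • e := hab
    by_contra hne
    rcases lt_or_gt_of_ne hne with h | h
    · apply hnper (b - a) (Nat.sub_pos_of_lt h)
      have e1 : m - (a : ℤ) = (m - b) + ((b - a : ℕ) : ℤ) := by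
        rw [Nat.cast_sub h.le]; ring
      rw [e1, zpow_add τ (m - (b : ℤ)) ((b - a : ℕ) : ℤ), mul_smul, zpow_natCast] at hab'
      exact (MulAction.injective (τ ^ (m - (b : ℤ)))) hab'
    · apply hnper (a - b) (Nat.sub_pos_of_lt h)
      have e1 : m - (b : ℤ) = (m - a) + ((a - b : ℕ) : ℤ) := by
        rw [Nat.cast_sub h.le]; ring
      rw [e1, zpow_add τ (m - (a : ℤ)) ((a - b : ℕ) : ℤ), mul_smul, zpow_natCast] at hab'
      exact ((MulAction.injective (τ ^ (m - (a : ℤ)))) hab').symm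
  -- Step A
  have stepA : ∀ h : G, ∃ J : ℕ, (∀ j : ℤ, (J : ℤ) ≤ j → h • v0 ∈ A j) ∧
      (∀ j : ℤ, j ≤ -(J : ℤ) → h • v0 ∉ A j) := by
    intro h
    have hp : ∃ j : ℤ, h • v0 ∈ A j := by
      by_contra hcon
      push Not at hcon
      have hsub : range (fun k : ℕ => τ ^ (n0 + k) • e) ⊆
          {e' | (∃ h : G, e' = h • e) ∧ (1 : G) • v0 ∈ side e' ∧ h • v0 ∉ side e'} := by
        rintro _ ⟨k, rfl⟩
        refine ⟨⟨_, rfl⟩, ?_, hcon _⟩
        rw [one_smul]
        exact hAmono (by linarith [Int.natCast_nonneg k] : n0 ≤ n0 + (k : ℤ)) hn0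
      exact (infinite_range_of_injective (hinj n0)) ((hfin2 1 h).subset hsub)
    have hq : ∃ j : ℤ, h • v0 ∉ A j := by
      by_contra hcon
      push Not at hcon
      have hsub : range (fun k : ℕ => τ ^ (n1 - k) • e) ⊆
          {e' | (∃ h : G, e' = h • e) ∧ h • v0 ∈ side e' ∧ (1 : G) • v0 ∉ side e'} := by
        rintro _ ⟨k, rfl⟩
        refine ⟨⟨_, rfl⟩, hcon _, ?_⟩
        rw [one_smul]
        intro hk
        exact hn1 (hAmono (by linarith [Int.natCast_nonneg k] : n1 - (k : ℤ) ≤ n1) hk)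
      exact (infinite_range_of_injective (hinj' n1)) ((hfin2 h 1).subset hsub)
    obtain ⟨j1, hj1⟩ := hp
    obtain ⟨j2, hj2⟩ := hq
    refine ⟨max j1.natAbs j2.natAbs, ?_, ?_⟩
    · intro j hj
      apply hAmono _ hj1
      push_cast at hj
      have h3 : j1 ≤ |j1| := le_abs_self _
      have h4 : |j1| ≤ max |j1| |j2| := le_max_left _ _
      linarith
    · intro j hj hmem'
      apply hj2
      apply hAmono _ hmem'
      push_cast at hj
      have h3 := neg_abs_le j2
      have h4 : |j2| ≤ max |j1| |j2| := le_max_right _ _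
      linarith
  -- geometry
  obtain ⟨R, hR⟩ := hcoc.orbit (c 0)
  set p := c 0 with hp
  have hR0 : 0 ≤ R := by
    obtain ⟨g, hg⟩ := hR p
    exact dist_nonneg.trans hg
  choose H hH using hR
  obtain ⟨gap, hgap⟩ := exists_nat_ge (2 * l + 2)
  set S1 : Set G := {g | dist p (g • p) ≤ 2 * R + gap + 1} with hS1
  have hS1fin : S1.Finite := finite_near p p _
  set P : Set E := ⋃ a ∈ S1, ⋃ b ∈ S1,
    {e' | (∃ h : G, e' = h • e) ∧ a • v0 ∈ side e' ∧ b • v0 ∉ side e'} with hP
  have hPfin : P.Finite := hS1fin.biUnion (fun a _ => hS1fin.biUnion (fun b _ => hfin2 a b))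
  have hPmem : ∀ (e' : E) (a b : G), (∃ h : G, e' = h • e) → a ∈ S1 → b ∈ S1 →
      a • v0 ∈ side e' → b • v0 ∉ side e' → e' ∈ P := by
    intro e' a b he ha hb h2 h3
    simp only [hP, mem_iUnion]
    exact ⟨a, ha, b, hb, he, h2, h3⟩
  set U : Set G := {g | g • e ∈ P ∧ g • τ • e ∈ P} with hU
  have hUfin : U.Finite := by
    have hcov : U ⊆ ⋃ e1 ∈ P, ⋃ e2 ∈ P, {g : G | g • e = e1 ∧ g • τ • e = e2} := by
      rintro g ⟨h2, h3⟩
      simp only [mem_iUnion]
      exact ⟨_, h2, _, h3, rfl, rfl⟩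
    apply (hPfin.biUnion (fun e1 _ => hPfin.biUnion (fun e2 _ => ?_))).subset hcov
    rcases eq_empty_or_nonempty {g : G | g • e = e1 ∧ g • τ • e = e2} with h2 | ⟨g0, hg0, hg0'⟩
    · rw [h2]; exact finite_empty
    · apply (hstab.image (fun g => g0 * g)).subset
      rintro g ⟨hg, hg'⟩
      refine ⟨g0⁻¹ * g, ⟨?_, ?_⟩, mul_inv_cancel_left g0 g⟩
      · rw [mul_smul, hg, ← hg0, inv_smul_smul]
      · rw [mul_smul, hg', ← hg0', inv_smul_smul]
  obtain ⟨M, hM⟩ := (hUfin.image (fun u : G => dist (u⁻¹ • p) p)).bddAbove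
  have hMU : ∀ u ∈ U, dist (u⁻¹ • p) p ≤ M := fun u hu => hM ⟨u, hu, rfl⟩
  -- the main claim
  have main : ∀ s : ℕ, ∃ u ∈ U, (s : ℝ) - R ≤ dist (u⁻¹ • p) p := by
    intro s
    have hs0 : (0 : ℝ) ≤ s := Nat.cast_nonneg s
    set h : ℕ → G := fun k => H (F k s) with hh
    have hhd : ∀ k : ℕ, dist (F k s) (h k • p) ≤ R := fun k => hH _
    have hhh : ∀ a b : ℕ, dist (h a • p) (h b • p) ≤ 2 * R + |(a : ℝ) - b| := by
      intro a b
      have t1 := dist_triangle4 (h a • p) (F a s) (F b s) (h b • p)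
      rw [half_dist_eq hF hs0] at t1
      have t2 := dist_comm (h a • p) (F a s)
      linarith [hhd a, hhd b]
    have hdiff : ∀ a b : ℕ, |(a : ℝ) - b| ≤ gap + 1 → (h a)⁻¹ * h b ∈ S1 := by
      intro a b hab
      show dist p (((h a)⁻¹ * h b) • p) ≤ _
      rw [← dist_smul (h a), smul_smul, mul_inv_cancel_left]
      linarith [hhh a b]
    set Hs : Set G := {g | dist p (g • p) ≤ s + R + 1} with hHs
    have hHsfin : Hs.Finite := finite_near p p _
    choose J0 hJ0 using stepA
    obtain ⟨J, hJ⟩ := (hHsfin.image J0).bddAbove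
    have hJ1 : ∀ g ∈ Hs, ∀ j : ℤ, (J : ℤ) ≤ j → g • v0 ∈ A j := by
      intro g hg j hj
      apply (hJ0 g).1
      have : J0 g ≤ J := hJ ⟨g, hg, rfl⟩
      have : (J0 g : ℤ) ≤ J := by exact_mod_cast this
      linarith
    have hJ2 : ∀ g ∈ Hs, ∀ j : ℤ, j ≤ -(J : ℤ) → g • v0 ∉ A j := by
      intro g hg j hj
      apply (hJ0 g).2
      have : J0 g ≤ J := hJ ⟨g, hg, rfl⟩
      have : (J0 g : ℤ) ≤ J := by exact_mod_cast this
      linarith
    set N : ℕ := 4 * J + 2 with hN
    have hNl : (0 : ℝ) ≤ N * l := by positivity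
    set n : ℕ := ⌈(N : ℝ) * l⌉₊ with hn
    have hnle : (N : ℝ) * l ≤ n := Nat.le_ceil _
    have hnlt : (n : ℝ) < N * l + 1 := Nat.ceil_lt_add_one hNl
    -- endpoints
    have hend0 : h 0 ∈ Hs := by
      show dist p (h 0 • p) ≤ _
      have t1 := dist_triangle p (F 0 s) (h 0 • p)
      have t2 : dist p (F 0 s) = s := by
        have := half_dist_vert hF (le_refl 0) hs0 0
        rw [hF0] at this
        rw [hp, this, zero_sub, abs_neg, abs_of_nonneg hs0]
      have t3 := hhd 0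
      push_cast at t3
      linarith
    have hendn : τ ^ (-(N : ℤ)) * h n ∈ Hs := by
      show dist p ((τ ^ (-(N : ℤ)) * h n) • p) ≤ _
      have e1 : dist p ((τ ^ (-(N : ℤ)) * h n) • p) = dist (τ ^ (N : ℤ) • p) (h n • p) := by
        rw [← dist_smul (τ ^ (N : ℤ)) p, smul_smul, ← mul_assoc, ← zpow_add, add_neg_cancel,
          zpow_zero, one_mul]
      rw [e1, hp, axis_zpow hax, zero_add]
      have t1 := dist_triangle (c (((N : ℕ) : ℤ) * l)) (F n s) (h n • p)
      have t2 : dist (c (((N : ℕ) : ℤ) * l)) (F n s) ≤ s + 1 := by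
        have := hF (((N : ℕ) : ℤ) * l) 0 n s (le_refl 0) hs0
        rw [hF0] at this
        apply le_of_sq_le_sq _ (by linarith)
        rw [this]
        push_cast
        nlinarith
      linarith [hhd n]
    set K : ℤ → ℕ := fun j => Nat.findGreatest (fun k => h k • v0 ∈ A j) n with hK
    have hKn : ∀ j, K j ≤ n := fun j => Nat.findGreatest_le n
    have hKspec : ∀ j : ℤ, (J : ℤ) ≤ j → h (K j) • v0 ∈ A j := by
      intro j hj
      exact Nat.findGreatest_spec (P := fun k => h k • v0 ∈ A j) (Nat.zero_le n)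
        (hJ1 _ hend0 j hj)
    have hlast : ∀ j : ℤ, j ≤ (N : ℤ) - J → h n • v0 ∉ A j := by
      intro j hj hmem'
      apply hJ2 _ hendn (-(N : ℤ) + j) (by linarith)
      rw [mul_smul, hAshift]
      exact hmem'
    have hKlt : ∀ j : ℤ, (J : ℤ) ≤ j → j ≤ (N : ℤ) - J → K j < n := by
      intro j hj1 hj2
      apply lt_of_le_of_ne (hKn j)
      intro heq
      have := hKspec j hj1
      rw [heq] at this
      exact hlast j hj2 this
    have hKnext : ∀ j : ℤ, (J : ℤ) ≤ j → j ≤ (N : ℤ) - J → h (K j + 1) • v0 ∉ A j := by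
      intro j hj1 hj2
      exact Nat.findGreatest_is_greatest (P := fun k => h k • v0 ∈ A j)
        (Nat.lt_succ_self (K j)) (hKlt j hj1 hj2)
    have hKmono : ∀ j : ℤ, (J : ℤ) ≤ j → K j ≤ K (j + 1) := by
      intro j hj
      apply Nat.le_findGreatest (hKn j)
      exact hAmono (by linarith : j ≤ j + 1) (hKspec j hj)
    -- a small gap
    have hgapex : ∃ i : ℕ, i < N - 2 * J ∧ K ((J : ℤ) + (i : ℤ) + 1) < K ((J : ℤ) + i) + gap := by
      by_contra hcon
      push Not at hcon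
      have hind : ∀ i : ℕ, i ≤ N - 2 * J → i * gap ≤ K ((J : ℤ) + i) := by
        intro i
        induction i with
        | zero => intro _; simp
        | succ i ih =>
          intro hi
          have h2 := ih (by omega)
          have h3 := hcon i (by omega)
          have e1 : (J : ℤ) + ((i + 1 : ℕ) : ℤ) = (J : ℤ) + (i : ℤ) + 1 := by push_cast; ring
          rw [e1]
          calc (i + 1) * gap = i * gap + gap := by ring
            _ ≤ K ((J : ℤ) + i) + gap := by omega
            _ ≤ _ := h3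
      have h2 := hind (N - 2 * J) (le_refl _)
      have h3 := h2.trans (hKn _)
      have h4 : N - 2 * J = 2 * J + 2 := by omega
      rw [h4] at h3
      have h5 : (((2 * J + 2) * gap : ℕ) : ℝ) ≤ n := by exact_mod_cast h3
      push_cast at h5
      have h6 : ((2 : ℝ) * J + 2) * (2 * l + 2) ≤ (2 * J + 2) * gap :=
        mul_le_mul_of_nonneg_left hgap (by positivity)
      have hNr : (N : ℝ) = 4 * J + 2 := by rw [hN]; push_cast; ring
      rw [hNr] at hnlt
      have hJr : (0 : ℝ) ≤ J := Nat.cast_nonneg J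
      nlinarith
    obtain ⟨i, hi, hgapi⟩ := hgapex
    set j : ℤ := (J : ℤ) + i with hj
    have hjJ : (J : ℤ) ≤ j := by rw [hj]; linarith [Int.natCast_nonneg i]
    have hjN : j + 1 ≤ (N : ℤ) - J := by
      have : i + 1 ≤ N - 2 * J := hi
      omega
    set k := K j with hk
    set k' := K (j + 1) with hk'
    have hkk' : k ≤ k' := hKmono j hjJ
    have hk'r : (k' : ℝ) ≤ k + gap := by
      have : k' ≤ k + gap := hgapi.le
      exact_mod_cast this
    have hkk'r : (k : ℝ) ≤ k' := by exact_mod_cast hkk'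
    set u : G := (h k)⁻¹ * τ ^ j with hu
    have hue : ∀ (m : ℕ) (e' : E), ((h k)⁻¹ * h m) • v0 ∈ side ((h k)⁻¹ • e') ↔
        h m • v0 ∈ side e' := by
      intro m e'
      rw [mul_smul, hside]
    refine ⟨u, ⟨?_, ?_⟩, ?_⟩
    · apply hPmem _ ((h k)⁻¹ * h k) ((h k)⁻¹ * h (k + 1)) ⟨u, rfl⟩
      · apply hdiff
        rw [sub_self, abs_zero]
        positivity
      · apply hdiff
        push_cast
        have : (k : ℝ) - (k + 1) = -1 := by ring
        rw [this, abs_neg, abs_one]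
        linarith [(Nat.cast_nonneg gap : (0 : ℝ) ≤ gap)]
      · rw [hu, mul_smul _ _ e, hue]
        exact hKspec j hjJ
      · rw [hu, mul_smul _ _ e, hue]
        exact hKnext j hjJ (by linarith)
    · have e1 : u • τ • e = (h k)⁻¹ • (τ ^ (j + 1) • e) := by
        rw [hu, mul_smul, zpow_add_one, mul_smul (τ ^ j) τ e]
      rw [e1]
      apply hPmem _ ((h k)⁻¹ * h k') ((h k)⁻¹ * h (k' + 1))
        ⟨(h k)⁻¹ * τ ^ (j + 1), by rw [mul_smul]⟩
      · apply hdiff
        rw [abs_of_nonpos (by linarith)]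
        linarith
      · apply hdiff
        push_cast
        rw [abs_of_nonpos (by linarith)]
        linarith
      · rw [hue]
        exact hKspec (j + 1) (by linarith)
      · rw [hue]
        exact hKnext (j + 1) (by linarith) hjN
    · have e1 : dist (u⁻¹ • p) p = dist (h k • p) (τ ^ j • p) := by
        rw [← dist_smul u, smul_inv_smul, hu, mul_smul, ← dist_smul (h k), smul_inv_smul]
      rw [e1, hp, axis_zpow hax, zero_add]
      have t1 := dist_triangle (F k s) (h k • c 0) (c (j * l))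
      have t2 : (s : ℝ) ≤ dist (F k s) (c (j * l)) := by
        have := hF k s (j * l) 0 hs0 (le_refl 0)
        rw [hF0] at this
        apply le_of_sq_le_sq _ dist_nonneg
        rw [this]
        nlinarith [sq_nonneg ((k : ℝ) - j * l)]
      have t3 := hhd k
      linarith
  obtain ⟨s, hs⟩ := exists_nat_gt (M + R)
  obtain ⟨u, hu, hd⟩ := main s
  have := hMU u hu
  linarith

end Sep

end Pool.Agent.H29
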