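import Pool.Agent.H29.Tree
import Pool.Agent.H29.Wall

/-!
# Hyperbolic automorphisms of trees and rank one isometries
-/

open Set Filter Topology Metric

set_option linter.unusedSectionVars false

namespace Pool.Agent.H29

section TreeAxis

variable {G V : Type*} [Group G] [MulAction G V] {T : SimpleGraph V}

/-- `τ` translates along an axis on which `x, y, τ x, τ y` appear in this order. -/
structure TAxis (T : SimpleGraph V) (τ : G) (x y : V) : Prop where
  ne : x ≠ y
  ne' : y ≠ τ • x
  a1 : Btw T x y (τ • x)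
  a2 : Btw T y (τ • x) (τ • y)

variable {τ : G} {x y : V}

lemma TAxis.zpow (hT : T.IsTree) (hadj : ∀ (g : G) v w, T.Adj v w → T.Adj (g • v) (g • w))
    (h : TAxis T τ x y) (j : ℤ) : TAxis T τ (τ ^ j • x) (τ ^ j • y) := by
  have e : ∀ v : V, τ • τ ^ j • v = τ ^ j • τ • v := by
    intro v
    rw [smul_smul, smul_smul, ← zpow_one_add, ← zpow_add_one, add_comm]
  refine ⟨fun he => h.ne (MulAction.injective _ he), ?_, ?_, ?_⟩
  · rw [e]; exact fun he => h.ne' (MulAction.injective _ he)
  · rw [e]; exact h.a1.smul hT hadj _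
  · rw [e, e]; exact h.a2.smul hT hadj _

lemma TAxis.rev (hT : T.IsTree) (hadj : ∀ (g : G) v w, T.Adj v w → T.Adj (g • v) (g • w))
    (h : TAxis T τ x y) : TAxis T τ⁻¹ y x := by
  refine ⟨h.ne.symm, ?_, ?_, ?_⟩
  · intro he
    apply h.ne'
    rw [he, smul_inv_smul]
  · have := (h.a2.smul hT hadj τ⁻¹).symm
    rwa [inv_smul_smul, inv_smul_smul] at this
  · have := (h.a1.smul hT hadj τ⁻¹).symm
    rwa [inv_smul_smul] at this

lemma TAxis.pos (hT : T.IsTree) (h : TAxis T τ x y) : 0 < T.dist x y :=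
  hT.connected.pos_dist_of_ne h.ne

/-- the negative side grows -/
lemma TAxis.step (hT : T.IsTree) (h : TAxis T τ x y) {z : V} (hz : Btw T z x y) :
    Btw T z (τ • x) (τ • y) ∧ T.dist z (τ • x) = T.dist z x + T.dist x y + T.dist y (τ • x) := by
  have c1 := Btw.concat hT hz h.a1 h.ne
  have e1 := h.a1
  have e2 := h.a2
  have c2 : Btw T z y (τ • x) := by
    unfold Btw at *
    omega
  have c3 := Btw.concat hT c2 h.a2 h.ne'
  unfold Btw at *
  omega

lemma TAxis.step_zpow (hT : T.IsTree)
    (hadj : ∀ (g : G) v w, T.Adj v w → T.Adj (g • v) (g • w)) (h : TAxis T τ x y) (j : ℤ) {z : V}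
    (hz : Btw T z (τ ^ j • x) (τ ^ j • y)) : Btw T z (τ ^ (j + 1) • x) (τ ^ (j + 1) • y) := by
  have := ((h.zpow hT hadj j).step hT hz).1
  have e : ∀ v : V, τ • τ ^ j • v = τ ^ (j + 1) • v := by
    intro v
    rw [smul_smul, ← zpow_one_add, add_comm]
  rwa [e, e] at this

/-- distances grow linearly along the axis -/
lemma TAxis.dist_pow (hT : T.IsTree)
    (hadj : ∀ (g : G) v w, T.Adj v w → T.Adj (g • v) (g • w)) (h : TAxis T τ x y) (n : ℕ) :
    Btw T x (τ ^ n • x) (τ ^ n • y) ∧ n ≤ T.dist x (τ ^ n • x) := by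
  induction n with
  | zero =>
    refine ⟨?_, Nat.zero_le _⟩
    simp only [pow_zero, one_smul]
    exact btw_self_left x y
  | succ n ih =>
    have h1 := (h.zpow hT hadj n).step hT (z := x) (by simpa using ih.1)
    have e : ∀ v : V, τ • τ ^ (n : ℤ) • v = τ ^ (n + 1) • v := by
      intro v
      rw [zpow_natCast, smul_smul, ← pow_succ']
    rw [e, e] at h1
    refine ⟨h1.1, ?_⟩
    rw [h1.2, zpow_natCast]
    have h2 : T.dist (τ ^ n • x) (τ ^ n • y) = T.dist x y := dist_smul_tree hT hadj _ x y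
    have h3 := h.pos hT
    omega

lemma TAxis.pow_ne_one (hT : T.IsTree)
    (hadj : ∀ (g : G) v w, T.Adj v w → T.Adj (g • v) (g • w)) (h : TAxis T τ x y) (n : ℕ)
    (hn : 0 < n) : τ ^ n ≠ 1 := by
  intro he
  have := (h.dist_pow hT hadj n).2
  rw [he, one_smul, SimpleGraph.dist_self] at this
  omega

/-- every vertex is eventually on the negative side -/
lemma TAxis.exists_neg (hT : T.IsTree)
    (hadj : ∀ (g : G) v w, T.Adj v w → T.Adj (g • v) (g • w)) (h : TAxis T τ x y) (z : V) :
    ∃ n : ℕ, Btw T z (τ ^ n • x) (τ ^ n • y) := by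
  by_contra hcon
  push Not at hcon
  have key : ∀ n : ℕ, T.dist z (τ ^ (n + 1) • x) < T.dist z (τ ^ n • x) := by
    intro n
    -- points a = τ^n x, b = τ^n y, a' = τ^(n+1) x, b' = τ^(n+1) y
    have hn := h.zpow hT hadj n
    have e : ∀ v : V, τ • τ ^ (n : ℤ) • v = τ ^ (n + 1) • v := by
      intro v
      rw [zpow_natCast, smul_smul, ← pow_succ']
    obtain ⟨h1, h2, h3, h4⟩ := hn
    rw [e] at h2 h3
    rw [e, e] at h4
    rw [zpow_natCast] at h1 h2 h3 h4
    have c1 := hcon (n + 1)
    set a := τ ^ n • x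
    set b := τ ^ n • y
    set a' := τ ^ (n + 1) • x
    set b' := τ ^ (n + 1) • y
    have pos1 : 0 < T.dist a b := hT.connected.pos_dist_of_ne h1
    have pos2 : 0 < T.dist b a' := hT.connected.pos_dist_of_ne h2
    have f1 := tree_four hT z a' b b'
    have f2 := tree_four hT z b a a'
    have t1 := hT.connected.dist_triangle (u := z) (v := a') (w := b')
    have t2 := hT.connected.dist_triangle (u := z) (v := a') (w := b)
    rw [SimpleGraph.dist_comm (u := a') (v := b)] at f1 t2
    rw [SimpleGraph.dist_comm (u := b) (v := a)] at f2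
    unfold Btw at *
    omega
  have hlin : ∀ n : ℕ, T.dist z (τ ^ n • x) + n ≤ T.dist z x := by
    intro n
    induction n with
    | zero => simp
    | succ n ih =>
      have := key n
      omega
  have := hlin (T.dist z x + 1)
  omega

/-- for every vertex `z` some translate `τ ^ n z` is separated from `z` by a translate of the
pair `x, y` -/
lemma TAxis.exists_pow (hT : T.IsTree)
    (hadj : ∀ (g : G) v w, T.Adj v w → T.Adj (g • v) (g • w)) (h : TAxis T τ x y) (z : V) :
    ∃ n j : ℕ, z ≠ τ ^ n • z ∧ Btw T z (τ ^ j • x) (τ ^ n • z) ∧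
      Btw T z (τ ^ j • y) (τ ^ n • z) := by
  obtain ⟨j, hj⟩ := h.exists_neg hT hadj z
  obtain ⟨k, hk⟩ := (h.rev hT hadj).exists_neg hT hadj z
  have hk' := hk.smul hT hadj (τ ^ (j + k))
  have e : ∀ v : V, τ ^ (j + k) • τ⁻¹ ^ k • v = τ ^ j • v := by
    intro v
    rw [smul_smul, pow_add, inv_pow, mul_inv_cancel_right]
  rw [e, e] at hk'
  have hne : τ ^ j • x ≠ τ ^ j • y := fun he => h.ne (MulAction.injective _ he)
  have hpos : 0 < T.dist (τ ^ j • x) (τ ^ j • y) := hT.connected.pos_dist_of_ne hne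
  have hk'' := hk'.symm
  have c := Btw.concat hT hj hk'' hne
  refine ⟨j + k, j, ?_, ?_, ?_⟩
  · intro he
    rw [← he, SimpleGraph.dist_self] at c
    omega
  · unfold Btw at *
    omega
  · unfold Btw at *
    omega

end TreeAxis

/-! ### hyperbolic elements with finite two-step stabiliser are rank one -/

section RankOne

variable {G X V : Type*} [Group G] [MetricSpace X] [IsCAT0 X] [ProperSpace X]
  [MulAction G X] [IsIsometricSMul G X] [ProperlyDiscontinuousSMul G X]
  [MulAction G V] {T : SimpleGraph V}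

theorem TAxis.rankOne [Nonempty X] (hcoc : Cocompact G X) (hT : T.IsTree)
    (hadj : ∀ (g : G) v w, T.Adj v w → T.Adj (g • v) (g • w)) {τ : G} {x y : V}
    (h : TAxis T τ x y) (hfin : {g : G | g • x = x ∧ g • y = y}.Finite) :
    IsRankOne (X := X) τ := by
  obtain ⟨c, hc, l, hl, hax⟩ := exists_axis (X := X) hcoc (h.pow_ne_one hT hadj)
  refine ⟨c, hc, ⟨l, hl.ne', hax⟩, ?_⟩
  obtain ⟨w, hw, hxw⟩ := btw_step hT (x := y) (y := x) h.ne.symm
  -- w is the neighbour of x towards y
  have hxw' : Btw T x w y := hxw.symm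
  have hd1 : T.dist x w = 1 := by
    rw [SimpleGraph.dist_comm]; exact SimpleGraph.dist_eq_one_iff_adj.mpr hw
  set side : V × V → Set V := fun e => {z | T.dist z e.1 < T.dist z e.2} with hside
  apply not_boundsHalfPlane_of_sep (G := G) (E := V × V) hcoc side ?_ x τ (x, w) ?_ ?_ ?_ ?_ ?_
    hc hl hax
  · intro g e v
    show T.dist (g • v) (g • e.1) < T.dist (g • v) (g • e.2) ↔ T.dist v e.1 < T.dist v e.2
    rw [dist_smul_tree hT hadj, dist_smul_tree hT hadj]
  · intro g
    have hfinI := btw_finite hT x (g • x)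
    apply (hfinI.prod hfinI).subset
    rintro e' ⟨⟨k, rfl⟩, h1, h2⟩
    have h1' : T.dist x (k • x) < T.dist x (k • w) := h1
    have h2' : ¬ T.dist (g • x) (k • x) < T.dist (g • x) (k • w) := h2
    have hkadj : T.Adj (k • x) (k • w) := hadj k _ _ hw.symm
    have a1 : T.dist x (k • w) = T.dist x (k • x) + 1 := by
      rcases tree_adj_dist hT x hkadj with h3 | h3 <;> omega
    have a2 : T.dist (g • x) (k • x) = T.dist (g • x) (k • w) + 1 := by
      rcases tree_adj_dist hT (g • x) hkadj with h3 | h3 <;> omega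
    have a3 := tree_edge_sep hT hkadj a1 a2
    rw [SimpleGraph.dist_comm (u := g • x) (v := k • w),
      SimpleGraph.dist_comm (u := g • x) (v := k • x)] at a2
    constructor
    · show T.dist x (k • x) + T.dist (k • x) (g • x) = T.dist x (g • x)
      omega
    · show T.dist x (k • w) + T.dist (k • w) (g • x) = T.dist x (g • x)
      omega
  · intro z hz
    have hz' : T.dist z x < T.dist z w := hz
    have a1 : T.dist z w = T.dist z x + 1 := by
      rcases tree_adj_dist hT z hw with h3 | h3 <;> omega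
    have b1 : Btw T z x w := by unfold Btw; omega
    have b2 := Btw.concat hT b1 hxw' (hw.ne.symm)
    have b3 : Btw T z x y := by unfold Btw at *; omega
    have b4 := (h.step hT b3).1
    have b5 := hxw'.smul hT hadj τ
    have t := hT.connected.dist_triangle (u := z) (v := τ • w) (w := τ • y)
    have b6 : T.dist (τ • x) (τ • w) = 1 := by rw [dist_smul_tree hT hadj]; exact hd1
    show T.dist z (τ • x) < T.dist z (τ • w)
    unfold Btw at *
    omega
  · refine ⟨0, ?_⟩
    show T.dist x (τ ^ (0 : ℤ) • x) < T.dist x (τ ^ (0 : ℤ) • w)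
    rw [zpow_zero, one_smul, one_smul, SimpleGraph.dist_self, hd1]
    exact Nat.one_pos
  · refine ⟨-1, ?_⟩
    show ¬ T.dist x (τ ^ (-1 : ℤ) • x) < T.dist x (τ ^ (-1 : ℤ) • w)
    have e : ∀ v : V, T.dist x (τ ^ (-1 : ℤ) • v) = T.dist (τ • x) v := by
      intro v
      rw [← dist_smul_tree hT hadj τ x, zpow_neg_one, smul_inv_smul]
    rw [e, e]
    have t := hT.connected.dist_triangle (u := w) (v := y) (w := τ • x)
    have a1 := h.a1
    rw [SimpleGraph.dist_comm (u := τ • x) (v := x), SimpleGraph.dist_comm (u := τ • x) (v := w)]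
    unfold Btw at *
    omega
  · apply hfin.subset
    rintro g ⟨h1, h2⟩
    have h1' : g • x = x := congrArg Prod.fst h1
    have h2' : g • τ • x = τ • x := congrArg Prod.fst h2
    exact ⟨h1', h.a1.fix hT hadj h1' h2'⟩

end RankOne

end Pool.Agent.H29
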