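import Pool.Agent.H29.Convex

/-!
# Lines, Busemann functions, geodesic completeness
-/

open Set Filter Topology Metric

set_option linter.unusedSectionVars false

namespace Pool.Agent.H29

/-! ### convex functions of one real variable -/

/-- convexity of a function of one real variable -/
def ConvR (h : ℝ → ℝ) : Prop :=
  ∀ s t : ℝ, ∀ l ∈ Icc (0 : ℝ) 1, h ((1 - l) * s + l * t) ≤ (1 - l) * h s + l * h t

lemma ConvR.antitone_of_bdd {h : ℝ → ℝ} (hh : ConvR h) {t0 M : ℝ}
    (hM : ∀ t, t0 ≤ t → h t ≤ M) : Antitone h := by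
  intro s t hst
  by_contra hcon
  push Not at hcon
  have hlt : s < t := lt_of_le_of_ne hst (by rintro rfl; exact lt_irrefl _ hcon)
  set ε := h t - h s with hε
  have hεpos : 0 < ε := by linarith
  -- choose u large
  obtain ⟨u, hu1, hu2, hu3⟩ : ∃ u : ℝ, t < u ∧ t0 ≤ u ∧ (|M - h s| + 1) * (t - s) / ε ≤ u - s := by
    refine ⟨max (t + 1) (max t0 (s + (|M - h s| + 1) * (t - s) / ε)), ?_, ?_, ?_⟩
    · exact lt_of_lt_of_le (by linarith) (le_max_left _ _)
    · exact (le_max_left _ _).trans (le_max_right _ _)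
    · have : s + (|M - h s| + 1) * (t - s) / ε ≤
        max (t + 1) (max t0 (s + (|M - h s| + 1) * (t - s) / ε)) :=
        (le_max_right _ _).trans (le_max_right _ _)
      linarith
  have hus : 0 < u - s := by linarith
  set l := (t - s) / (u - s) with hl
  have hlI : l ∈ Icc (0 : ℝ) 1 := by
    constructor
    · apply div_nonneg <;> linarith
    · rw [hl, div_le_one hus]; linarith
  have hlpos : 0 < l := by apply div_pos <;> linarith
  have e : (1 - l) * s + l * u = t := by
    rw [hl]; field_simp; ring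
  have h1 := hh s u l hlI
  rw [e] at h1
  have h2 : ε ≤ l * (h u - h s) := by rw [hε]; linarith
  have h3 := hM u hu2
  have h4 : l * (h u - h s) ≤ l * |M - h s| := by
    apply mul_le_mul_of_nonneg_left _ hlpos.le
    have := le_abs_self (M - h s)
    linarith
  have h5 : l * (|M - h s| + 1) ≤ ε := by
    rw [hl, div_mul_eq_mul_div, div_le_iff₀ hus]
    rw [div_le_iff₀ hεpos] at hu3
    linarith
  nlinarith

lemma ConvR.comp_neg {h : ℝ → ℝ} (hh : ConvR h) : ConvR (fun t => h (-t)) := by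
  intro s t l hl
  have := hh (-s) (-t) l hl
  have e : (1 - l) * -s + l * -t = -((1 - l) * s + l * t) := by ring
  rw [e] at this
  exact this

lemma ConvR.monotone_of_bdd {h : ℝ → ℝ} (hh : ConvR h) {t0 M : ℝ}
    (hM : ∀ t, t ≤ t0 → h t ≤ M) : Monotone h := by
  have := hh.comp_neg.antitone_of_bdd (t0 := -t0) (M := M) (fun t ht => hM (-t) (by linarith))
  intro s t hst
  have h1 := this (neg_le_neg hst)
  simpa using h1

lemma ConvR.const_of_bdd {h : ℝ → ℝ} (hh : ConvR h) {M : ℝ} (hM : ∀ t, h t ≤ M) (s t : ℝ) :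
    h s = h t := by
  have h1 := hh.antitone_of_bdd (t0 := 0) (fun t _ => hM t)
  have h2 := hh.monotone_of_bdd (t0 := 0) (fun t _ => hM t)
  rcases le_total s t with hst | hst
  · exact le_antisymm (h2 hst) (h1 hst)
  · exact le_antisymm (h1 hst) (h2 hst)

section

variable {X : Type*} [MetricSpace X] [IsCAT0 X]

/-! ### discrete rays and Busemann functions -/

/-- a discrete geodesic ray with step `κ` -/
def IsDR (u : ℕ → X) (κ : ℝ) : Prop := ∀ m n : ℕ, dist (u m) (u n) = κ * |(m : ℝ) - n|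

/-- the Busemann function of a discrete ray -/
noncomputable def bus (u : ℕ → X) (κ : ℝ) (x : X) : ℝ := ⨅ n : ℕ, (dist x (u n) - κ * n)

lemma IsDR.nonneg {u : ℕ → X} {κ : ℝ} (hu : IsDR u κ) : 0 ≤ κ := by
  have := hu 0 1
  simp only [Nat.cast_zero, Nat.cast_one, zero_sub, abs_neg, abs_one, mul_one] at this
  rw [← this]; exact dist_nonneg

lemma IsDR.antitone {u : ℕ → X} {κ : ℝ} (hu : IsDR u κ) (x : X) :
    Antitone (fun n : ℕ => dist x (u n) - κ * n) := by
  apply antitone_nat_of_succ_le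
  intro n
  have h1 := dist_triangle x (u n) (u (n + 1))
  rw [hu n (n + 1)] at h1
  have e : |(n : ℝ) - ((n + 1 : ℕ) : ℝ)| = 1 := by
    push_cast
    have : (n : ℝ) - (n + 1) = -1 := by ring
    rw [this, abs_neg, abs_one]
  rw [e] at h1
  push_cast
  linarith

lemma IsDR.lower {u : ℕ → X} {κ : ℝ} (hu : IsDR u κ) (x : X) (n : ℕ) :
    - dist x (u 0) ≤ dist x (u n) - κ * n := by
  have h1 := dist_triangle_left (u 0) (u n) x
  rw [hu 0 n] at h1
  have e : |((0 : ℕ) : ℝ) - (n : ℝ)| = n := by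
    rw [Nat.cast_zero, zero_sub, abs_neg, abs_of_nonneg (Nat.cast_nonneg n)]
  rw [e] at h1
  linarith

lemma IsDR.bddBelow {u : ℕ → X} {κ : ℝ} (hu : IsDR u κ) (x : X) :
    BddBelow (range (fun n : ℕ => dist x (u n) - κ * n)) := by
  refine ⟨- dist x (u 0), ?_⟩
  rintro _ ⟨n, rfl⟩
  exact hu.lower x n

lemma IsDR.tendsto {u : ℕ → X} {κ : ℝ} (hu : IsDR u κ) (x : X) :
    Tendsto (fun n : ℕ => dist x (u n) - κ * n) atTop (𝓝 (bus u κ x)) :=
  tendsto_atTop_ciInf (hu.antitone x) (hu.bddBelow x)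

lemma IsDR.bus_le {u : ℕ → X} {κ : ℝ} (hu : IsDR u κ) (x : X) (n : ℕ) :
    bus u κ x ≤ dist x (u n) - κ * n := ciInf_le (hu.bddBelow x) n

lemma IsDR.bus_lip {u : ℕ → X} {κ : ℝ} (hu : IsDR u κ) (x y : X) :
    bus u κ x ≤ bus u κ y + dist x y := by
  have h1 : Tendsto (fun n : ℕ => (dist y (u n) - κ * n) + dist x y) atTop
      (𝓝 (bus u κ y + dist x y)) := (hu.tendsto y).add_const _
  apply le_of_tendsto_of_tendsto' (hu.tendsto x) h1
  intro n
  have := dist_triangle x y (u n)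
  linarith

lemma IsDR.continuous_bus {u : ℕ → X} {κ : ℝ} (hu : IsDR u κ) : Continuous (bus u κ) := by
  have : LipschitzWith 1 (bus u κ) := by
    apply LipschitzWith.of_le_add
    intro x y
    exact hu.bus_lip x y
  exact this.continuous

lemma IsDR.gconvexFun_bus {u : ℕ → X} {κ : ℝ} (hu : IsDR u κ) : GConvexFun (bus u κ) := by
  intro x y t ht
  have h1 : Tendsto (fun n : ℕ => (1 - t) * (dist x (u n) - κ * n) + t * (dist y (u n) - κ * n))
      atTop (𝓝 ((1 - t) * bus u κ x + t * bus u κ y)) :=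
    ((hu.tendsto x).const_mul _).add ((hu.tendsto y).const_mul _)
  apply le_of_tendsto_of_tendsto' (hu.tendsto _) h1
  intro n
  have := dist_pt_le_right (u n) x y ht
  rw [dist_comm (u n), dist_comm (u n), dist_comm (u n)] at this
  linarith

lemma IsDR.bus_apply {u : ℕ → X} {κ : ℝ} (hu : IsDR u κ) (k : ℕ) :
    bus u κ (u k) = - (κ * k) := by
  apply tendsto_nhds_unique (hu.tendsto (u k))
  apply tendsto_const_nhds.congr'
  filter_upwards [eventually_ge_atTop k] with n hn
  rw [hu k n, abs_sub_comm, abs_of_nonneg]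
  · ring
  · have : (k : ℝ) ≤ n := by exact_mod_cast hn
    linarith

lemma IsDR.bus_sub_const {u v : ℕ → X} {κ : ℝ} (hu : IsDR u κ) (hv : IsDR v κ) (hκ : 0 < κ)
    {a : ℝ} (ha : ∀ n, dist (u n) (v n) ≤ a) : ∃ k : ℝ, ∀ x, bus v κ x = bus u κ x + k := by
  have key : ∀ x y : X, bus v κ x - bus u κ x ≤ bus v κ y - bus u κ y := by
    intro x y
    have tP := hv.tendsto x
    have tQ := hu.tendsto x
    have tP' := hv.tendsto y
    have tQ' := hu.tendsto y
    have t0 : Tendsto (fun n : ℕ => ((n : ℝ))⁻¹) atTop (𝓝 0) := tendsto_inv_atTop_nhds_zero_nat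
    set P : ℕ → ℝ := fun n => dist x (v n) - κ * n with hP
    set Q : ℕ → ℝ := fun n => dist x (u n) - κ * n with hQ
    set P' : ℕ → ℝ := fun n => dist y (v n) - κ * n with hP'
    set Q' : ℕ → ℝ := fun n => dist y (u n) - κ * n with hQ'
    have tl : Tendsto (fun n : ℕ => (P n - Q n) * (P n + Q n) * ((n : ℝ))⁻¹ + 2 * κ * (P n - Q n))
        atTop (𝓝 ((bus v κ x - bus u κ x) * (bus v κ x + bus u κ x) * 0
          + 2 * κ * (bus v κ x - bus u κ x))) :=
      (((tP.sub tQ).mul (tP.add tQ)).mul t0).add ((tP.sub tQ).const_mul _)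
    have tr : Tendsto (fun n : ℕ => (P' n - Q' n) * (P' n + Q' n) * ((n : ℝ))⁻¹
          + 2 * κ * (P' n - Q' n) + 2 * a * dist x y * ((n : ℝ))⁻¹)
        atTop (𝓝 ((bus v κ y - bus u κ y) * (bus v κ y + bus u κ y) * 0
          + 2 * κ * (bus v κ y - bus u κ y) + 2 * a * dist x y * 0)) :=
      ((((tP'.sub tQ').mul (tP'.add tQ')).mul t0).add ((tP'.sub tQ').const_mul _)).add
        (t0.const_mul _)
    have hle : (bus v κ x - bus u κ x) * (bus v κ x + bus u κ x) * 0
          + 2 * κ * (bus v κ x - bus u κ x) ≤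
        (bus v κ y - bus u κ y) * (bus v κ y + bus u κ y) * 0
          + 2 * κ * (bus v κ y - bus u κ y) + 2 * a * dist x y * 0 := by
      apply le_of_tendsto_of_tendsto tl tr
      filter_upwards [eventually_ge_atTop 1] with n hn
      have hn' : (0 : ℝ) < n := by exact_mod_cast hn
      have hq := quad x y (v n) (u n)
      have ha' : 2 * dist x y * dist (v n) (u n) ≤ 2 * a * dist x y := by
        have h1 := ha n
        rw [dist_comm] at h1
        nlinarith [dist_nonneg (x := x) (y := y)]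
      have e1 : dist x (v n) = P n + κ * n := by simp [hP]
      have e2 : dist x (u n) = Q n + κ * n := by simp [hQ]
      have e3 : dist y (v n) = P' n + κ * n := by simp [hP']
      have e4 : dist y (u n) = Q' n + κ * n := by simp [hQ']
      rw [e1, e2, e3, e4] at hq
      have h2 : (P n - Q n) * (P n + Q n) + 2 * κ * n * (P n - Q n) ≤
          (P' n - Q' n) * (P' n + Q' n) + 2 * κ * n * (P' n - Q' n) + 2 * a * dist x y := by
        nlinarith [hq, ha']
      have h3 := mul_le_mul_of_nonneg_right h2 (inv_nonneg.mpr hn'.le)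
      have hcancel : (n : ℝ) * (n : ℝ)⁻¹ = 1 := mul_inv_cancel₀ hn'.ne'
      have l1 : ((P n - Q n) * (P n + Q n) + 2 * κ * n * (P n - Q n)) * (n : ℝ)⁻¹ =
          (P n - Q n) * (P n + Q n) * (n : ℝ)⁻¹ + 2 * κ * (P n - Q n) := by
        calc _ = (P n - Q n) * (P n + Q n) * (n : ℝ)⁻¹
              + 2 * κ * (P n - Q n) * ((n : ℝ) * (n : ℝ)⁻¹) := by ring
          _ = _ := by rw [hcancel, mul_one]
      have l2 : ((P' n - Q' n) * (P' n + Q' n) + 2 * κ * n * (P' n - Q' n)
            + 2 * a * dist x y) * (n : ℝ)⁻¹ =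
          (P' n - Q' n) * (P' n + Q' n) * (n : ℝ)⁻¹ + 2 * κ * (P' n - Q' n)
            + 2 * a * dist x y * (n : ℝ)⁻¹ := by
        calc _ = (P' n - Q' n) * (P' n + Q' n) * (n : ℝ)⁻¹
              + 2 * κ * (P' n - Q' n) * ((n : ℝ) * (n : ℝ)⁻¹)
              + 2 * a * dist x y * (n : ℝ)⁻¹ := by ring
          _ = _ := by rw [hcancel, mul_one]
      rw [l1, l2] at h3
      exact h3
    have h2κ : 0 < 2 * κ := by linarith
    have : 2 * κ * (bus v κ x - bus u κ x) ≤ 2 * κ * (bus v κ y - bus u κ y) := by linarith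
    exact le_of_mul_le_mul_left this h2κ
  refine ⟨bus v κ (u 0) - bus u κ (u 0), fun x => ?_⟩
  have h1 := key x (u 0)
  have h2 := key (u 0) x
  linarith

lemma IsDR.shift {u : ℕ → X} {κ : ℝ} (hu : IsDR u κ) {G : Type*} [Group G] [MulAction G X]
    [IsIsometricSMul G X] (g : G) : IsDR (fun n => g • u n) κ := by
  intro m n
  rw [dist_smul, hu m n]

lemma bus_smul {u : ℕ → X} {κ : ℝ} {G : Type*} [Group G] [MulAction G X]
    [IsIsometricSMul G X] (g : G) (x : X) :
    bus u κ (g • x) = bus (fun n => g⁻¹ • u n) κ x := by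
  unfold bus
  congr 1
  funext n
  have : dist (g • x) (u n) = dist x (g⁻¹ • u n) := by
    rw [← dist_smul g x (g⁻¹ • u n), smul_inv_smul]
  rw [this]

/-! ### lines -/

lemma line_pt {c : ℝ → X} (hc : Isometry c) (s t : ℝ) {l : ℝ} (hl : l ∈ Icc (0 : ℝ) 1) :
    c ((1 - l) * s + l * t) = pt (c s) (c t) l := by
  apply eq_pt hl
  · rw [hc.dist_eq, hc.dist_eq, Real.dist_eq, Real.dist_eq]
    have : s - ((1 - l) * s + l * t) = l * (s - t) := by ring
    rw [this, abs_mul, abs_of_nonneg hl.1]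
  · rw [hc.dist_eq, hc.dist_eq, Real.dist_eq, Real.dist_eq]
    have : (1 - l) * s + l * t - t = (1 - l) * (s - t) := by ring
    rw [this, abs_mul, abs_of_nonneg (by linarith [hl.2])]

lemma convR_dist_lines {c c' : ℝ → X} (hc : Isometry c) (hc' : Isometry c') :
    ConvR (fun t => dist (c t) (c' t)) := by
  intro s t l hl
  show dist (c _) (c' _) ≤ _
  rw [line_pt hc s t hl, line_pt hc' s t hl]
  exact dist_pt_pt_le _ _ _ _ hl

lemma GConvexFun.comp_line {f : X → ℝ} (hf : GConvexFun f) {c : ℝ → X} (hc : Isometry c) :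
    ConvR (fun t => f (c t)) := by
  intro s t l hl
  show f (c _) ≤ _
  rw [line_pt hc s t hl]
  exact hf _ _ l hl

lemma isDR_fwd {c : ℝ → X} (hc : Isometry c) : IsDR (fun n : ℕ => c n) 1 := by
  intro m n
  rw [hc.dist_eq, Real.dist_eq, one_mul]

lemma isometry_comp_neg {c : ℝ → X} (hc : Isometry c) : Isometry (fun t => c (-t)) :=
  hc.comp (IsometryEquiv.neg ℝ).isometry

lemma isometry_comp_add {c : ℝ → X} (hc : Isometry c) (a : ℝ) : Isometry (fun t => c (t + a)) :=
  hc.comp (IsometryEquiv.addRight a).isometry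

/-- the forward Busemann function of a line -/
noncomputable def busF (c : ℝ → X) (x : X) : ℝ := bus (fun n : ℕ => c n) 1 x

lemma busF_line {c : ℝ → X} (hc : Isometry c) (t : ℝ) : busF c (c t) = -t := by
  apply tendsto_nhds_unique ((isDR_fwd hc).tendsto (c t))
  apply tendsto_const_nhds.congr'
  obtain ⟨k, hk⟩ := exists_nat_ge t
  filter_upwards [eventually_ge_atTop k] with n hn
  have hn' : t ≤ n := hk.trans (by exact_mod_cast hn)
  rw [hc.dist_eq, Real.dist_eq, abs_sub_comm, abs_of_nonneg (by linarith)]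
  ring

lemma busF_add_nonneg {c : ℝ → X} (hc : Isometry c) (x : X) :
    0 ≤ busF c x + busF (fun t => c (-t)) x := by
  have h1 := (isDR_fwd hc).tendsto x
  have h2 := (isDR_fwd (isometry_comp_neg hc)).tendsto x
  apply ge_of_tendsto' (h1.add h2)
  intro n
  have h3 := dist_triangle_left (c n) (c (-(n : ℝ))) x
  rw [hc.dist_eq, Real.dist_eq] at h3
  have : |(n : ℝ) - -(n : ℝ)| = 2 * n := by
    rw [sub_neg_eq_add, abs_of_nonneg (by positivity)]; ring
  rw [this] at h3
  linarith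

lemma neg_busF_le_of_lip {c : ℝ → X} (hc : Isometry c) {f : X → ℝ}
    (hf : ∀ x y, f x ≤ f y + dist x y) (hfc : ∀ t : ℝ, 0 ≤ t → f (c t) = t) (z : X) :
    - busF c z ≤ f z := by
  have h1 := (isDR_fwd hc).tendsto z
  have h2 : Tendsto (fun n : ℕ => -(dist z (c n) - 1 * (n : ℝ))) atTop (𝓝 (- busF c z)) := h1.neg
  apply le_of_tendsto' h2
  intro n
  have := hf (c n) z
  rw [hfc n (Nat.cast_nonneg n), dist_comm] at this
  linarith

end

section

variable {X : Type*} [MetricSpace X] [IsCAT0 X]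

lemma GeodesicallyComplete.line (h : GeodesicallyComplete X) {x y : X} (hxy : x ≠ y) :
    ∃ c : ℝ → X, Isometry c ∧ c 0 = x ∧ c (dist x y) = y := by
  obtain ⟨γ, h0, h1, hγ⟩ := IsCAT0.geodesic x y
  have hpos : 0 < dist x y := dist_pos.mpr hxy
  obtain ⟨c, hc, hcs⟩ := h (dist x y) γ hpos hγ
  refine ⟨c, hc, ?_, ?_⟩
  · rw [hcs 0 ⟨le_refl _, hpos.le⟩, h0]
  · rw [hcs _ ⟨hpos.le, le_refl _⟩, h1]

lemma GeodesicallyComplete.const_of_bdd (h : GeodesicallyComplete X) {f : X → ℝ}
    (hf : GConvexFun f) {M : ℝ} (hM : ∀ x, f x ≤ M) (x y : X) : f x = f y := by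
  by_cases hxy : x = y
  · rw [hxy]
  · obtain ⟨c, hc, h0, h1⟩ := h.line hxy
    have := (hf.comp_line hc).const_of_bdd (fun t => hM (c t)) 0 (dist x y)
    simp only [h0, h1] at this
    exact this

lemma GeodesicallyComplete.eq_univ (h : GeodesicallyComplete X) [ProperSpace X] {D : Set X}
    (hc : IsClosed D) (hne : D.Nonempty) (hD : GConvex D) {R : ℝ}
    (hR : ∀ x, infDist x D ≤ R) : D = univ := by
  ext x
  simp only [mem_univ, iff_true]
  obtain ⟨y, hy⟩ := hne
  have h1 := h.const_of_bdd (gconvexFun_infDist hc ⟨y, hy⟩ hD) hR x y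
  rw [infDist_zero_of_mem hy] at h1
  exact (hc.mem_iff_infDist_zero ⟨y, hy⟩).mpr h1

end

end Pool.Agent.H29
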