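import Pool.Agent.H29.Action

/-!
# Minimal invariant convex sets of normal subgroups
-/

open Set Filter Topology Metric

set_option linter.unusedSectionVars false

namespace Pool.Agent.H29

variable {G X : Type*} [Group G] [MetricSpace X] [IsCAT0 X] [ProperSpace X]
  [MulAction G X] [IsIsometricSMul G X]

/-- minimal nonempty closed convex invariant sets -/
structure IsMinl (N : Subgroup G) (C : Set X) : Prop where
  isNC : IsNC N C
  ne : C.Nonempty
  min : ∀ D : Set X, IsNC N D → D.Nonempty → D ⊆ C → D = C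

lemma IsMinl.eq_nhull {N : Subgroup G} {C : Set X} (hC : IsMinl N C) {x : X} (hx : x ∈ C) :
    nhull N x = C :=
  hC.min _ (isNC_nhull N x) ⟨x, mem_nhull N x⟩ (nhull_subset hC.isNC hx)

/-- an invariant convex continuous function is constant on a minimal set -/
lemma IsMinl.const {N : Subgroup G} {C : Set X} (hC : IsMinl N C) {f : X → ℝ}
    (hf : GConvexFun f) (hc : Continuous f) (hinv : ∀ n ∈ N, ∀ x, f (n • x) = f x)
    {x y : X} (hx : x ∈ C) (hy : y ∈ C) : f x = f y := by
  have key : ∀ x ∈ C, ∀ y ∈ C, f y ≤ f x := by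
    intro x hx y hy
    have h1 := nhull_subset (isNC_sublevel hf hc hinv (f x)) (x := x) (le_refl (f x))
    rw [hC.eq_nhull hx] at h1
    exact h1 hy
  exact le_antisymm (key y hy x hx) (key x hx y hy)

/-- relative version: a function on the set -/
lemma IsMinl.const_on {N : Subgroup G} {C : Set X} (hC : IsMinl N C) {f : X → ℝ}
    (hf : ∀ x ∈ C, ∀ y ∈ C, ∀ t ∈ Icc (0 : ℝ) 1, f (pt x y t) ≤ (1 - t) * f x + t * f y)
    (hc : ContinuousOn f C) (hinv : ∀ n ∈ N, ∀ x ∈ C, f (n • x) = f x)
    {x y : X} (hx : x ∈ C) (hy : y ∈ C) : f x = f y := by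
  have key : ∀ x ∈ C, ∀ y ∈ C, f y ≤ f x := by
    intro x hx y hy
    have hD : IsNC N {z | z ∈ C ∧ f z ≤ f x} := by
      refine ⟨?_, ?_, ?_⟩
      · have : {z | z ∈ C ∧ f z ≤ f x} = C ∩ f ⁻¹' (Iic (f x)) := by
          ext z; simp
        rw [this]
        exact hc.preimage_isClosed_of_isClosed hC.isNC.closed isClosed_Iic
      · intro a ha b hb t ht
        refine ⟨hC.isNC.convex a ha.1 b hb.1 t ht, ?_⟩
        have h := hf a ha.1 b hb.1 t ht
        have h1 : (1 - t) * f a ≤ (1 - t) * f x :=
          mul_le_mul_of_nonneg_left ha.2 (by linarith [ht.2])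
        have h2 : t * f b ≤ t * f x := mul_le_mul_of_nonneg_left hb.2 ht.1
        linarith
      · intro n hn a ha
        refine ⟨hC.isNC.inv n hn a ha.1, ?_⟩
        rw [hinv n hn a ha.1]
        exact ha.2
    have h1 := hC.min _ hD ⟨x, hx, le_refl _⟩ (fun z hz => hz.1)
    rw [← h1] at hy
    exact hy.2
  exact le_antisymm (key y hy x hx) (key x hx y hy)

lemma continuous_infDist' (D : Set X) : Continuous (fun x => infDist x D) :=
  continuous_infDist_pt D

/-! ### extremal points have minimal hulls -/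

theorem isMinl_of_extremal {N : Subgroup G} (hgc : GeodesicallyComplete X) {x : X}
    (hx : ∀ y : X, (∀ n ∈ N, dist x (n • x) ≤ dist y (n • y)) →
      ∀ n ∈ N, dist y (n • y) = dist x (n • x)) : IsMinl N (nhull N x) := by
  refine ⟨isNC_nhull N x, ⟨x, mem_nhull N x⟩, ?_⟩
  intro D hD hne hsub
  by_cases hxD : x ∈ D
  · exact Subset.antisymm hsub (nhull_subset hD hxD)
  exfalso
  set y := proj D x with hy
  have hyD : y ∈ D := proj_mem hD.closed hne x
  have hyx : y ≠ x := fun h => hxD (h ▸ hyD)
  obtain ⟨c, hc, hc0, hc1⟩ := hgc.line hyx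
  set δ := dist y x with hδ
  have hδpos : 0 < δ := dist_pos.mpr hyx
  have hδ' : infDist x D = δ := by
    rw [← dist_proj hD.closed hne x, dist_comm]
  have hflip : ∀ a b : X, infDist a D ≤ infDist b D + dist a b := fun a b =>
    infDist_le_infDist_add_dist
  have hconvf := (gconvexFun_infDist hD.closed hne hD.convex).comp_line hc
  have hf0 : infDist (c 0) D = 0 := by rw [hc0]; exact infDist_zero_of_mem hyD
  have hfδ : infDist (c δ) D = δ := by rw [hc1]; exact hδ'
  -- (1)
  have h1 : ∀ t : ℝ, 0 ≤ t → infDist (c t) D = t := by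
    intro t ht
    apply le_antisymm
    · have := hflip (c t) (c 0)
      rw [hf0, hc.dist_eq, Real.dist_eq, sub_zero, abs_of_nonneg ht] at this
      linarith
    · rcases le_total t δ with h | h
      · have := hflip (c δ) (c t)
        rw [hfδ, hc.dist_eq, Real.dist_eq, abs_of_nonneg (by linarith)] at this
        linarith
      · have htpos : 0 < t := by linarith
        have hl : δ / t ∈ Icc (0 : ℝ) 1 := by
          constructor
          · positivity
          · rw [div_le_one htpos]; exact h
        have := hconvf 0 t (δ / t) hl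
        have e : (1 - δ / t) * 0 + δ / t * t = δ := by field_simp; ring
        rw [e] at this
        simp only [hf0, hfδ] at this
        have h2 : δ ≤ δ / t * infDist (c t) D := by linarith
        rw [div_mul_eq_mul_div, le_div_iff₀ htpos] at h2
        exact le_of_mul_le_mul_left h2 hδpos
  -- (2)
  have h2 : ∀ n ∈ N, ∀ s t : ℝ, 0 ≤ s → s ≤ t →
      dist (c s) (n • c s) ≤ dist (c t) (n • c t) := by
    intro n hn s t hs hst
    have hCconv : GConvex {z | infDist z D ≤ s} :=
      (gconvexFun_infDist hD.closed hne hD.convex).sublevel s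
    apply nearest_lipschitz hCconv
    · exact (h1 s hs).le
    · intro z hz
      have := hflip (c t) z
      rw [h1 t (hs.trans hst)] at this
      rw [hc.dist_eq, Real.dist_eq, abs_of_nonneg (by linarith)]
      have hz' : infDist z D ≤ s := hz
      linarith
    · show infDist (n • c s) D ≤ s
      rw [hD.infDist_smul hn]
      exact (h1 s hs).le
    · intro z hz
      have := hflip (n • c t) z
      rw [hD.infDist_smul hn, h1 t (hs.trans hst)] at this
      rw [dist_smul, hc.dist_eq, Real.dist_eq, abs_of_nonneg (by linarith)]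
      have hz' : infDist z D ≤ s := hz
      linarith
  -- (3)
  have h3 : ∀ t, δ ≤ t → ∀ n ∈ N, dist (c t) (n • c t) = dist x (n • x) := by
    intro t ht
    apply hx
    intro n hn
    have := h2 n hn δ t hδpos.le ht
    rwa [hc1] at this
  -- (4)
  have h4 : ∀ t : ℝ, ∀ n ∈ N, dist (c t) (n • c t) = dist x (n • x) := by
    intro t
    rcases le_total δ t with h | h
    · exact h3 t h
    · apply hx
      intro n hn
      have hanti := ((gconvexFun_disp n).comp_line hc).antitone_of_bdd (t0 := δ)
        (M := dist x (n • x)) (fun t ht => (h3 t ht n hn).le)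
      have := hanti h
      simp only [h3 δ (le_refl _) n hn] at this
      exact this
  -- (5)
  have h5 : ∀ n ∈ N, ∃ k : ℝ, ∀ z, busF c (n • z) = busF c z + k := by
    intro n hn
    have hu := isDR_fwd hc
    obtain ⟨k, hk⟩ := hu.bus_sub_const (hu.shift n⁻¹) one_pos (a := dist x (n • x)) (by
      intro m
      rw [← h4 m n hn, ← dist_smul n, smul_inv_smul, dist_comm])
    refine ⟨k, fun z => ?_⟩
    show bus _ 1 (n • z) = bus _ 1 z + k
    rw [bus_smul, hk]
  -- (6)
  have h6 : ∀ z, - busF c z ≤ infDist z D := fun z =>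
    neg_busF_le_of_lip hc hflip h1 z
  have h7 : ∀ n ∈ N, ∀ z, busF c z ≤ busF c (n • z) := by
    intro n hn z
    obtain ⟨k, hk⟩ := h5 n hn
    rw [hk z]
    have hpow : ∀ m : ℕ, busF c (n ^ m • z) = busF c z + m * k := by
      intro m
      induction m with
      | zero => simp
      | succ m ih =>
        rw [pow_succ', mul_smul, hk, ih]
        push_cast
        ring
    by_contra hcon
    push Not at hcon
    have hk0 : k < 0 := by linarith
    obtain ⟨m, hm⟩ := exists_nat_gt ((infDist z D + busF c z) / (-k))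
    rw [div_lt_iff₀ (by linarith)] at hm
    have := h6 (n ^ m • z)
    rw [hpow m, hD.infDist_smul (N.pow_mem hn m)] at this
    linarith
  have h8 : ∀ n ∈ N, ∀ z, busF c (n • z) = busF c z := by
    intro n hn z
    apply le_antisymm _ (h7 n hn z)
    have := h7 n⁻¹ (N.inv_mem hn) (n • z)
    rwa [inv_smul_smul] at this
  -- (7)
  have h9 : IsNC N {z | busF c z ≤ busF c x} :=
    isNC_sublevel (isDR_fwd hc).gconvexFun_bus (isDR_fwd hc).continuous_bus h8 _
  have h10 : y ∈ {z | busF c z ≤ busF c x} := nhull_subset h9 (le_refl (busF c x)) (hsub hyD)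
  have h11 : busF c y ≤ busF c x := h10
  rw [← hc0, ← hc1, busF_line hc, busF_line hc] at h11
  linarith

/-! ### flat rectangles between minimal sets -/

section Two

variable {N : Subgroup G} {A B : Set X}

lemma IsMinl.dist_const (hA : IsMinl N A) (hB : IsMinl N B) {z w : X} (hz : z ∈ A) (hw : w ∈ A) :
    infDist z B = infDist w B :=
  hA.const (gconvexFun_infDist hB.isNC.closed hB.ne hB.isNC.convex) (continuous_infDist_pt B)
    (fun _ hn x => hB.isNC.infDist_smul hn x) hz hw

lemma IsMinl.dist_symm (hA : IsMinl N A) (hB : IsMinl N B) {z w : X} (hz : z ∈ A) (hw : w ∈ B) :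
    infDist z B = infDist w A := by
  have key : ∀ {A B : Set X}, IsMinl N A → IsMinl N B → ∀ z ∈ A, ∀ w ∈ B,
      infDist w A ≤ infDist z B := by
    intro A B hA hB z hz w hw
    have h1 : infDist (proj B z) A ≤ dist (proj B z) z := infDist_le_dist_of_mem hz
    rw [dist_comm, dist_proj hB.isNC.closed hB.ne] at h1
    rw [hB.dist_const hA hw (proj_mem hB.isNC.closed hB.ne z)]
    exact h1
  exact le_antisymm (key hB hA w hw z hz) (key hA hB z hz w hw)

lemma IsMinl.proj_proj (hA : IsMinl N A) (hB : IsMinl N B) {z : X} (hz : z ∈ A) :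
    proj A (proj B z) = z := by
  symm
  apply eq_proj hA.isNC.closed hA.ne hA.isNC.convex hz
  rw [dist_comm, dist_proj hB.isNC.closed hB.ne,
    hA.dist_symm hB hz (proj_mem hB.isNC.closed hB.ne z)]

lemma IsMinl.dist_proj_proj (hA : IsMinl N A) (hB : IsMinl N B) {z w : X} (hz : z ∈ A)
    (hw : w ∈ A) : dist (proj B z) (proj B w) = dist z w := by
  apply le_antisymm (proj_lipschitz hB.isNC.closed hB.ne hB.isNC.convex z w)
  have := proj_lipschitz hA.isNC.closed hA.ne hA.isNC.convex (proj B z) (proj B w)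
  rwa [hA.proj_proj hB hz, hA.proj_proj hB hw] at this

/-- Pythagoras in the flat strip -/
lemma IsMinl.pyth (hA : IsMinl N A) (hB : IsMinl N B) {z w : X} (hz : z ∈ A) (hw : w ∈ A) :
    dist z (proj B w) ^ 2 = dist z w ^ 2 + infDist z B ^ 2 := by
  have hBz := proj_mem hB.isNC.closed hB.ne z
  have hBw := proj_mem hB.isNC.closed hB.ne w
  have o1 := proj_obtuse hB.isNC.closed hB.ne hB.isNC.convex z hBw
  have o2 := proj_obtuse hB.isNC.closed hB.ne hB.isNC.convex w hBz
  rw [dist_proj hB.isNC.closed hB.ne, hA.dist_proj_proj hB hz hw] at o1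
  rw [dist_proj hB.isNC.closed hB.ne, hA.dist_proj_proj hB hw hz,
    hA.dist_const hB hw hz, dist_comm w z] at o2
  have q := quad z w (proj B w) (proj B z)
  rw [dist_comm (proj B w) (proj B z), hA.dist_proj_proj hB hz hw,
    dist_proj hB.isNC.closed hB.ne, dist_proj hB.isNC.closed hB.ne, hA.dist_const hB hw hz] at q
  nlinarith

/-- Pythagoras, with an arbitrary point of the second set -/
lemma IsMinl.pyth' (hA : IsMinl N A) (hB : IsMinl N B) {z w : X} (hz : z ∈ A) (hw : w ∈ B) :
    dist z w ^ 2 = dist (proj B z) w ^ 2 + infDist z B ^ 2 := by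
  have h := hA.pyth hB hz (proj_mem hA.isNC.closed hA.ne w)
  rw [hB.proj_proj hA hw] at h
  rw [h]
  congr 2
  rw [← hA.dist_proj_proj hB hz (proj_mem hA.isNC.closed hA.ne w), hB.proj_proj hA hw]

end Two

/-! ### images of minimal sets -/

lemma IsMinl.image {N : Subgroup G} {A : Set X} (hA : IsMinl N A) {q : X → X}
    (hq : ∀ z ∈ A, ∀ w ∈ A, dist (q z) (q w) = dist z w)
    (hN : ∀ n ∈ N, ∀ z ∈ A, q (n • z) = n • q z) : IsMinl N (q '' A) := by
  have hqpt : ∀ z ∈ A, ∀ w ∈ A, ∀ t ∈ Icc (0 : ℝ) 1, q (pt z w t) = pt (q z) (q w) t := by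
    intro z hz w hw t ht
    have hm := hA.isNC.convex z hz w hw t ht
    apply eq_pt ht
    · rw [hq z hz _ hm, hq z hz w hw, dist_left_pt z w ht]
    · rw [hq _ hm w hw, hq z hz w hw, dist_pt_right z w ht]
  have hcont : ContinuousOn q A := by
    have : LipschitzOnWith 1 q A := by
      apply LipschitzOnWith.of_dist_le_mul
      intro z hz w hw
      rw [hq z hz w hw]
      simp
    exact this.continuousOn
  have hNC : IsNC N (q '' A) := by
    refine ⟨?_, ?_, ?_⟩
    · have hiso : Isometry (fun z : A => q z) := by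
        apply Isometry.of_dist_eq
        intro z w
        exact hq z z.2 w w.2
      have hcomp : IsComplete (q '' A) := by
        have hAc : IsComplete A := hA.isNC.closed.isComplete
        have : q '' A = range (fun z : A => q z) := by
          ext y; simp
        rw [this]
        have : CompleteSpace A := hAc.completeSpace_coe
        have h2 : IsComplete (range (fun z : A => q z)) := by
          rw [← image_univ]
          exact (isComplete_image_iff hiso.isUniformInducing).mpr isComplete_univ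
        exact h2
      exact hcomp.isClosed
    · rintro _ ⟨z, hz, rfl⟩ _ ⟨w, hw, rfl⟩ t ht
      exact ⟨pt z w t, hA.isNC.convex z hz w hw t ht, hqpt z hz w hw t ht⟩
    · rintro n hn _ ⟨z, hz, rfl⟩
      exact ⟨n • z, hA.isNC.inv n hn z hz, hN n hn z hz⟩
  refine ⟨hNC, hA.ne.image q, ?_⟩
  intro D hD hDne hsub
  have hE : IsNC N {z | z ∈ A ∧ q z ∈ D} := by
    refine ⟨?_, ?_, ?_⟩
    · have : {z | z ∈ A ∧ q z ∈ D} = A ∩ q ⁻¹' D := by ext z; simp
      rw [this]
      exact hcont.preimage_isClosed_of_isClosed hA.isNC.closed hD.closed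
    · rintro z ⟨hz, hzD⟩ w ⟨hw, hwD⟩ t ht
      refine ⟨hA.isNC.convex z hz w hw t ht, ?_⟩
      rw [hqpt z hz w hw t ht]
      exact hD.convex _ hzD _ hwD t ht
    · rintro n hn z ⟨hz, hzD⟩
      refine ⟨hA.isNC.inv n hn z hz, ?_⟩
      rw [hN n hn z hz]
      exact hD.inv n hn _ hzD
  have hEA := hA.min _ hE (by
    obtain ⟨y, hy⟩ := hDne
    obtain ⟨z, hz, rfl⟩ := hsub hy
    exact ⟨z, hz, hy⟩) (fun z hz => hz.1)
  apply Subset.antisymm hsub
  rintro _ ⟨z, hz, rfl⟩
  rw [← hEA] at hz
  exact hz.2

end Pool.Agent.H29
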