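import Pool.Agent.H29.Minimal

/-!
# The product decomposition attached to a normal subgroup
-/

open Set Filter Topology Metric

set_option linter.unusedSectionVars false

namespace Pool.Agent.H29

universe u

lemma MetricIrreducible.elim {X : Type u} [MetricSpace X] (h : MetricIrreducible X)
    {p q : X → X} (hd : ∀ x x', dist x x' ^ 2 = dist (p x) (p x') ^ 2 + dist (q x) (q x') ^ 2)
    (hs : ∀ x y, ∃ z, p z = p x ∧ q z = q y) :
    (∀ x y, p x = p y) ∨ (∀ x y, q x = q y) := by
  by_contra hcon
  push Not at hcon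
  obtain ⟨⟨x1, y1, h1⟩, ⟨x2, y2, h2⟩⟩ := hcon
  apply h
  let f : X → range p × range q := fun x => (⟨p x, x, rfl⟩, ⟨q x, x, rfl⟩)
  have hinj : Function.Injective f := by
    intro x x' hf
    have e1 : p x = p x' := congrArg (fun z => (z.1 : X)) hf
    have e2 : q x = q x' := congrArg (fun z => (z.2 : X)) hf
    have := hd x x'
    rw [e1, e2, dist_self, dist_self] at this
    have h0 : dist x x' = 0 := by
      apply pow_eq_zero_iff (two_ne_zero) |>.mp
      rw [this]; norm_num
    exact dist_eq_zero.mp h0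
  have hsurj : Function.Surjective f := by
    rintro ⟨⟨_, x, rfl⟩, ⟨_, y, rfl⟩⟩
    obtain ⟨z, hz1, hz2⟩ := hs x y
    refine ⟨z, ?_⟩
    simp only [f, hz1, hz2]
  refine ⟨range p, range q, inferInstance, inferInstance, Equiv.ofBijective f ⟨hinj, hsurj⟩,
    ?_, ?_, ?_⟩
  · exact ⟨⟨p x1, x1, rfl⟩, ⟨p y1, y1, rfl⟩, fun h => h1 (congrArg Subtype.val h)⟩
  · exact ⟨⟨q x2, x2, rfl⟩, ⟨q y2, y2, rfl⟩, fun h => h2 (congrArg Subtype.val h)⟩
  · intro x x'
    exact hd x x'

section

variable {X : Type*} [MetricSpace X] [IsCAT0 X]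

/-- a sequence of points that is locally geodesic (in the strong sense) is geodesic -/
lemma seq_geodesic {u : ℕ → X} {δ : ℝ} (h1 : ∀ i, dist (u i) (u (i + 1)) = δ)
    (h2 : ∀ i, dist (u i) (u (i + 2)) = 2 * δ) (i k : ℕ) :
    dist (u i) (u (i + k)) = k * δ := by
  have hδ : 0 ≤ δ := by rw [← h1 0]; exact dist_nonneg
  have key : ∀ k : ℕ, dist (u i) (u (i + k)) = k * δ ∧
      dist (u i) (u (i + (k + 1))) = (k + 1 : ℝ) * δ := by
    intro k
    induction k with
    | zero =>
      refine ⟨by simp, ?_⟩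
      have := h1 i
      simpa using this
    | succ k ih =>
      obtain ⟨ih1, ih2⟩ := ih
      refine ⟨by push_cast; exact ih2, ?_⟩
      have e1 : dist (u (i + k)) (u (i + (k + 1))) = dist (u (i + k)) (u (i + (k + 1 + 1))) / 2 := by
        have a1 := h1 (i + k)
        have a2 := h2 (i + k)
        have b1 : i + k + 1 = i + (k + 1) := by ring
        have b2 : i + k + 2 = i + (k + 1 + 1) := by ring
        rw [b1] at a1
        rw [b2] at a2
        rw [a1, a2]; ring
      have e2 : dist (u (i + (k + 1))) (u (i + (k + 1 + 1))) =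
          dist (u (i + k)) (u (i + (k + 1 + 1))) / 2 := by
        have a1 := h1 (i + (k + 1))
        have a2 := h2 (i + k)
        have b1 : i + (k + 1) + 1 = i + (k + 1 + 1) := by ring
        have b2 : i + k + 2 = i + (k + 1 + 1) := by ring
        rw [b1] at a1
        rw [b2] at a2
        rw [a1, a2]; ring
      have hcn := IsCAT0.cn (u i) _ _ _ e1 e2
      have a2 := h2 (i + k)
      have b2 : i + k + 2 = i + (k + 1 + 1) := by ring
      rw [b2] at a2
      rw [ih1, ih2, a2] at hcn
      have a3 := h1 (i + (k + 1))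
      have b3 : i + (k + 1) + 1 = i + (k + 1 + 1) := by ring
      rw [b3] at a3
      have htri := dist_triangle (u i) (u (i + (k + 1))) (u (i + (k + 1 + 1)))
      rw [ih2, a3] at htri
      push_cast
      have hle : dist (u i) (u (i + (k + 1 + 1))) ≤ ((k : ℝ) + 1 + 1) * δ := by linarith
      have hge : ((k : ℝ) + 1 + 1) * δ ≤ dist (u i) (u (i + (k + 1 + 1))) := by
        apply le_of_sq_le_sq _ dist_nonneg
        nlinarith
      exact le_antisymm hle hge
  exact (key k).1

lemma seq_isDR {u : ℕ → X} {δ : ℝ} (h1 : ∀ i, dist (u i) (u (i + 1)) = δ)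
    (h2 : ∀ i, dist (u i) (u (i + 2)) = 2 * δ) : IsDR u δ := by
  intro m n
  rcases le_total m n with h | h
  · obtain ⟨k, rfl⟩ := Nat.exists_eq_add_of_le h
    rw [seq_geodesic h1 h2, Nat.cast_add]
    have : (m : ℝ) - (m + k) = -k := by ring
    rw [this, abs_neg, abs_of_nonneg (Nat.cast_nonneg k), mul_comm]
  · obtain ⟨k, rfl⟩ := Nat.exists_eq_add_of_le h
    rw [dist_comm, seq_geodesic h1 h2, Nat.cast_add]
    have : ((n : ℝ) + k) - n = k := by ring
    rw [this, abs_of_nonneg (Nat.cast_nonneg k), mul_comm]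

end

variable {G X : Type*} [Group G] [MetricSpace X] [IsCAT0 X] [ProperSpace X]
  [MulAction G X] [IsIsometricSMul G X]

/-! ### the set of points with minimal hull -/

lemma isMinl_mid {N : Subgroup G} {x y : X} (hx : IsMinl N (nhull N x))
    (hy : IsMinl N (nhull N y)) : IsMinl N (nhull N (pt x y (1 / 2))) := by
  set A := nhull N x with hA
  set B := nhull N y with hB
  have hxA : x ∈ A := mem_nhull N x
  have hyB : y ∈ B := mem_nhull N y
  set q : X → X := fun z => pt z (proj B z) (1 / 2) with hq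
  have hqdist : ∀ z, dist z (q z) = 1 / 2 * infDist z B := by
    intro z
    rw [hq, ← dist_proj hy.isNC.closed hy.ne]
    exact dist_left_pt _ _ half_mem_I
  have hqdist' : ∀ z, dist (q z) (proj B z) = 1 / 2 * infDist z B := by
    intro z
    rw [hq, ← dist_proj hy.isNC.closed hy.ne]
    have := dist_pt_right z (proj B z) half_mem_I
    rw [this]; norm_num
  have hprojq : ∀ z ∈ A, proj A (q z) = z := by
    intro z hz
    symm
    apply eq_proj hx.isNC.closed hx.ne hx.isNC.convex hz
    rw [dist_comm, hqdist]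
    have h1 : infDist (proj B z) A ≤ infDist (q z) A + dist (proj B z) (q z) :=
      infDist_le_infDist_add_dist
    rw [← hx.dist_symm hy hz (proj_mem hy.isNC.closed hy.ne z), dist_comm, hqdist'] at h1
    linarith
  have hqiso : ∀ z ∈ A, ∀ w ∈ A, dist (q z) (q w) = dist z w := by
    intro z hz w hw
    apply le_antisymm
    · have := dist_pt_pt_le z (proj B z) w (proj B w) half_mem_I
      rw [hx.dist_proj_proj hy hz hw] at this
      calc dist (q z) (q w) ≤ _ := this
        _ = dist z w := by ring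
    · have := proj_lipschitz hx.isNC.closed hx.ne hx.isNC.convex (q z) (q w)
      rwa [hprojq z hz, hprojq w hw] at this
  have hqN : ∀ n ∈ N, ∀ z ∈ A, q (n • z) = n • q z := by
    intro n hn z _
    simp only [hq]
    rw [smul_pt _ _ _ half_mem_I, hy.isNC.proj_smul hy.ne hn]
  have hM := hx.image hqiso hqN
  -- the midpoint lies in the image
  have hx'A : proj A y ∈ A := proj_mem hx.isNC.closed hx.ne y
  set z := pt x (proj A y) (1 / 2) with hz
  have hzA : z ∈ A := hx.isNC.convex x hxA _ hx'A _ half_mem_I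
  have hmid : q z = pt x y (1 / 2) := by
    set a := infDist x B with ha
    set Dd := dist x (proj A y) with hDd
    have hxy : dist x y ^ 2 = Dd ^ 2 + a ^ 2 := by
      rw [hx.pyth' hy hxA hyB]
      congr 2
      rw [hDd, ← hx.dist_proj_proj hy hxA hx'A, hy.proj_proj hx hyB]
    have haz : infDist z B = a := hx.dist_const hy hzA hxA
    have e1 : dist x z = 1 / 2 * Dd := dist_left_pt _ _ half_mem_I
    have e2 : dist z (proj A y) = 1 / 2 * Dd := by
      have := dist_pt_right x (proj A y) half_mem_I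
      rw [← hz] at this
      rw [this, ← hDd]; norm_num
    have e3 : dist x (proj B z) ^ 2 = (1 / 2 * Dd) ^ 2 + a ^ 2 := by
      rw [hx.pyth hy hxA hzA, e1]
    have e4 : dist y (proj B z) = 1 / 2 * Dd := by
      rw [← e2, ← hx.dist_proj_proj hy hzA hx'A, hy.proj_proj hx hyB, dist_comm]
    have e5 : dist y z ^ 2 = (1 / 2 * Dd) ^ 2 + a ^ 2 := by
      rw [dist_comm, hx.pyth' hy hzA hyB, dist_comm (proj B z), e4, haz]
    have e6 : dist z (proj B z) = a := by rw [dist_proj hy.isNC.closed hy.ne, haz]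
    have c1 := cn_pt x z (proj B z) half_mem_I
    have c2 := cn_pt y z (proj B z) half_mem_I
    rw [e1, e3, e6] at c1
    rw [e4, e5, e6] at c2
    have d1 : dist x (q z) ^ 2 ≤ (1 / 2 * dist x y) ^ 2 := by
      calc dist x (q z) ^ 2 ≤ _ := c1
        _ = (1 / 2) ^ 2 * (Dd ^ 2 + a ^ 2) := by ring
        _ = _ := by rw [← hxy]; ring
    have d2 : dist y (q z) ^ 2 ≤ (1 / 2 * dist x y) ^ 2 := by
      calc dist y (q z) ^ 2 ≤ _ := c2
        _ = (1 / 2) ^ 2 * (Dd ^ 2 + a ^ 2) := by ring
        _ = _ := by rw [← hxy]; ring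
    have hnn : 0 ≤ 1 / 2 * dist x y := by positivity
    have f1 := le_of_sq_le_sq d1 hnn
    have f2 := le_of_sq_le_sq d2 hnn
    have f3 := dist_triangle x (q z) y
    rw [dist_comm (q z) y] at f3
    apply eq_pt half_mem_I
    · linarith
    · rw [dist_comm (q z) y]
      linarith
  rw [← hmid]
  have hmem : q z ∈ q '' A := ⟨z, hzA, rfl⟩
  rw [hM.eq_nhull hmem]
  exact hM

lemma isMinl_closure {N : Subgroup G} {x : X}
    (h : ∀ ε > 0, ∃ x' : X, dist x x' < ε ∧ IsMinl N (nhull N x')) : IsMinl N (nhull N x) := by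
  refine ⟨isNC_nhull N x, ⟨x, mem_nhull N x⟩, ?_⟩
  intro D hD hne hsub
  have hkey : infDist x D ≤ 0 := by
    apply le_of_forall_pos_le_add
    intro ε hε
    obtain ⟨x', hx', hmin⟩ := h (ε / 2) (by linarith)
    obtain ⟨y, hy⟩ := hne
    have hinf : infDist x (nhull N x') ≤ ε / 2 := by
      have := infDist_le_dist_of_mem (x := x) (mem_nhull N x')
      linarith
    have hNC : IsNC N {z | infDist z (nhull N x') ≤ ε / 2} :=
      isNC_sublevel (gconvexFun_infDist hmin.isNC.closed hmin.ne hmin.isNC.convex)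
        (continuous_infDist_pt _) (fun n hn z => hmin.isNC.infDist_smul hn z) _
    have hy' : infDist y (nhull N x') ≤ ε / 2 := nhull_subset hNC hinf (hsub hy)
    set y' := proj (nhull N x') y with hy'def
    have hy'mem : y' ∈ nhull N x' := proj_mem hmin.isNC.closed hmin.ne y
    have hdy : dist y y' ≤ ε / 2 := by
      rw [dist_proj hmin.isNC.closed hmin.ne]; exact hy'
    have hc : infDist x' D = infDist y' D :=
      hmin.const (gconvexFun_infDist hD.closed ⟨y, hy⟩ hD.convex) (continuous_infDist_pt D)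
        (fun n hn z => hD.infDist_smul hn z) (mem_nhull N x') hy'mem
    have h1 : infDist y' D ≤ ε / 2 := by
      have := infDist_le_dist_of_mem (x := y') hy
      rw [dist_comm] at this
      linarith
    have h2 : infDist x D ≤ infDist x' D + dist x x' := infDist_le_infDist_add_dist
    linarith
  have hxD : x ∈ D := by
    rw [hD.closed.mem_iff_infDist_zero hne]
    exact le_antisymm hkey infDist_nonneg
  exact Subset.antisymm hsub (nhull_subset hD hxD)

lemma IsNC.smul {N : Subgroup G} [hN : N.Normal] {D : Set X} (hD : IsNC N D) (g : G) :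
    IsNC N ((fun x => g • x) '' D) := by
  have hpre : (fun x : X => g • x) '' D = (fun x : X => g⁻¹ • x) ⁻¹' D := by
    ext x
    constructor
    · rintro ⟨y, hy, rfl⟩
      show g⁻¹ • g • y ∈ D
      rwa [inv_smul_smul]
    · intro hx
      exact ⟨g⁻¹ • x, hx, smul_inv_smul g x⟩
  rw [hpre]
  refine ⟨hD.closed.preimage (isometry_smul X g⁻¹).continuous, ?_, ?_⟩
  · intro x hx y hy t ht
    show g⁻¹ • pt x y t ∈ D
    rw [smul_pt _ _ _ ht]
    exact hD.convex _ hx _ hy t ht
  · intro n hn x hx
    show g⁻¹ • n • x ∈ D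
    have h1 : g⁻¹ • n • x = (g⁻¹ * n * g) • (g⁻¹ • x) := by
      rw [smul_smul, smul_smul]; congr 1; group
    rw [h1]
    apply hD.inv _ _ _ hx
    have := hN.conj_mem n hn g⁻¹
    simpa using this

lemma IsMinl.smul {N : Subgroup G} [N.Normal] {A : Set X} (hA : IsMinl N A) (g : G) :
    IsMinl N ((fun x => g • x) '' A) := by
  refine ⟨hA.isNC.smul g, hA.ne.image _, ?_⟩
  intro D hD hne hsub
  have h1 := hA.min ((fun x => g⁻¹ • x) '' D) (hD.smul g⁻¹) (hne.image _) (by
    rintro _ ⟨y, hy, rfl⟩
    obtain ⟨z, hz, rfl⟩ := hsub hy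
    show g⁻¹ • g • z ∈ A
    rwa [inv_smul_smul])
  rw [← h1]
  ext x
  constructor
  · intro hx
    exact ⟨g⁻¹ • x, ⟨x, hx, rfl⟩, smul_inv_smul g x⟩
  · rintro ⟨_, ⟨y, hy, rfl⟩, rfl⟩
    show g • g⁻¹ • y ∈ D
    rwa [smul_inv_smul]

/-- **All hulls of a normal subgroup are minimal.** -/
theorem isMinl_all [ProperlyDiscontinuousSMul G X] [Nonempty X] (hgc : GeodesicallyComplete X)
    (hcoc : Cocompact G X) (N : Subgroup G) [N.Normal] (x : X) : IsMinl N (nhull N x) := by
  obtain ⟨x0, hx0⟩ := exists_extremal_min (G := G) hcoc N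
  set M : Set X := {x | IsMinl N (nhull N x)} with hM
  have hM0 : x0 ∈ M := isMinl_of_extremal hgc hx0
  have hMclosed : IsClosed M := by
    apply isClosed_of_closure_subset
    intro x hx
    apply isMinl_closure
    intro ε hε
    obtain ⟨x', hx', hd⟩ := Metric.mem_closure_iff.mp hx ε hε
    exact ⟨x', hd, hx'⟩
  have hMconv : GConvex M := gconvex_of_midpoint hMclosed (fun x hx y hy => isMinl_mid hx hy)
  have hMinv : ∀ (g : G), ∀ x ∈ M, g • x ∈ M := by
    intro g x hx
    have h1 := hx.smul g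
    have h2 : g • x ∈ (fun x => g • x) '' (nhull N x) := ⟨x, mem_nhull N x, rfl⟩
    show IsMinl N (nhull N (g • x))
    rw [h1.eq_nhull h2]
    exact h1
  have hNC : IsNC (⊤ : Subgroup G) M := ⟨hMclosed, hMconv, fun g _ x hx => hMinv g x hx⟩
  obtain ⟨R, hR⟩ := hcoc.bdd (continuous_infDist_pt M)
    (fun g x => hNC.infDist_smul (Subgroup.mem_top g) x)
  have := hgc.eq_univ hMclosed ⟨x0, hM0⟩ hMconv hR
  have hx : x ∈ M := by rw [this]; exact mem_univ x
  exact hx

/-! ### compositions of projections -/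

section Comp

variable {N : Subgroup G} {A0 A B C : Set X}

lemma IsMinl.bus_proj (hA0 : IsMinl N A0) (hA : IsMinl N A) (hB : IsMinl N B) {v : ℕ → X} {κ : ℝ}
    (hv : IsDR v κ) (hκ : 0 < κ) (hvA : ∀ n, v n ∈ A0) {w : X} (hw : w ∈ A) :
    bus v κ (proj B w) = bus v κ w := by
  set u : ℕ → X := fun n => proj A (v n) with hu'
  have hu : IsDR u κ := by
    intro m n
    rw [hu', hA0.dist_proj_proj hA (hvA m) (hvA n), hv m n]
  have hdist : ∀ n, dist (u n) (v n) ≤ infDist (v 0) A := by
    intro n
    rw [hu', dist_comm, dist_proj hA.isNC.closed hA.ne]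
    exact (hA0.dist_const hA (hvA n) (hvA 0)).le
  obtain ⟨k, hk⟩ := hu.bus_sub_const hv hκ hdist
  rw [hk, hk]
  congr 1
  have huA : ∀ n, u n ∈ A := fun n => proj_mem hA.isNC.closed hA.ne _
  set a := infDist (u 0) B with ha
  have tP := hu.tendsto (proj B w)
  have tQ := hu.tendsto w
  have t0 : Tendsto (fun n : ℕ => ((n : ℝ))⁻¹) atTop (𝓝 0) := tendsto_inv_atTop_nhds_zero_nat
  set P : ℕ → ℝ := fun n => dist (proj B w) (u n) - κ * n with hP
  set Q : ℕ → ℝ := fun n => dist w (u n) - κ * n with hQ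
  have tl : Tendsto (fun n : ℕ => (P n - Q n) * (P n + Q n) * ((n : ℝ))⁻¹ + 2 * κ * (P n - Q n))
      atTop (𝓝 ((bus u κ (proj B w) - bus u κ w) * (bus u κ (proj B w) + bus u κ w) * 0
        + 2 * κ * (bus u κ (proj B w) - bus u κ w))) :=
    (((tP.sub tQ).mul (tP.add tQ)).mul t0).add ((tP.sub tQ).const_mul _)
  have tr : Tendsto (fun n : ℕ => a ^ 2 * ((n : ℝ))⁻¹) atTop (𝓝 (a ^ 2 * 0)) := t0.const_mul _
  have heq : (fun n : ℕ => (P n - Q n) * (P n + Q n) * ((n : ℝ))⁻¹ + 2 * κ * (P n - Q n))
      =ᶠ[atTop] (fun n : ℕ => a ^ 2 * ((n : ℝ))⁻¹) := by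
    filter_upwards [eventually_ge_atTop 1] with n hn
    have hn' : (0 : ℝ) < n := by exact_mod_cast hn
    have hp := hA.pyth hB (huA n) hw
    rw [hA.dist_const hB (huA n) (huA 0), ← ha, dist_comm (u n), dist_comm (u n)] at hp
    have e1 : dist (proj B w) (u n) = P n + κ * n := by simp [hP]
    have e2 : dist w (u n) = Q n + κ * n := by simp [hQ]
    rw [e1, e2] at hp
    have h2 : (P n - Q n) * (P n + Q n) + 2 * κ * n * (P n - Q n) = a ^ 2 := by nlinarith [hp]
    have hcancel : (n : ℝ) * (n : ℝ)⁻¹ = 1 := mul_inv_cancel₀ hn'.ne'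
    rw [← h2]
    calc _ = (P n - Q n) * (P n + Q n) * (n : ℝ)⁻¹ + 2 * κ * (P n - Q n) * 1 := by ring
      _ = (P n - Q n) * (P n + Q n) * (n : ℝ)⁻¹
          + 2 * κ * (P n - Q n) * ((n : ℝ) * (n : ℝ)⁻¹) := by rw [hcancel]
      _ = _ := by ring
  have hlim := tendsto_nhds_unique_of_eventuallyEq tl tr heq
  have h2κ : 2 * κ ≠ 0 := by positivity
  have : 2 * κ * (bus u κ (proj B w) - bus u κ w) = 0 := by linarith
  have h3 := (mul_eq_zero.mp this).resolve_left h2κ
  linarith

/-- composition of projections between minimal sets -/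
lemma IsMinl.proj_comp (hA : IsMinl N A) (hB : IsMinl N B) (hC : IsMinl N C) {z : X}
    (hz : z ∈ A) : proj C (proj B z) = proj C z := by
  set φ : X → X := fun z => proj A (proj C (proj B z)) with hφ
  have pA : ∀ z, proj A z ∈ A := fun z => proj_mem hA.isNC.closed hA.ne z
  have pB : ∀ z, proj B z ∈ B := fun z => proj_mem hB.isNC.closed hB.ne z
  have pC : ∀ z, proj C z ∈ C := fun z => proj_mem hC.isNC.closed hC.ne z
  have hφA : ∀ z, φ z ∈ A := fun z => pA _
  have hiso : ∀ z ∈ A, ∀ w ∈ A, dist (φ z) (φ w) = dist z w := by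
    intro z hz w hw
    simp only [hφ]
    rw [hC.dist_proj_proj hA (pC _) (pC _), hB.dist_proj_proj hC (pB _) (pB _),
      hA.dist_proj_proj hB hz hw]
  have hφpt : ∀ z ∈ A, ∀ w ∈ A, ∀ t ∈ Icc (0 : ℝ) 1, φ (pt z w t) = pt (φ z) (φ w) t := by
    intro z hz w hw t ht
    have hm := hA.isNC.convex z hz w hw t ht
    apply eq_pt ht
    · rw [hiso z hz _ hm, hiso z hz w hw, dist_left_pt z w ht]
    · rw [hiso _ hm w hw, hiso z hz w hw, dist_pt_right z w ht]
  have hφN : ∀ n ∈ N, ∀ z, φ (n • z) = n • φ z := by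
    intro n hn z
    simp only [hφ]
    rw [hB.isNC.proj_smul hB.ne hn, hC.isNC.proj_smul hC.ne hn, hA.isNC.proj_smul hA.ne hn]
  have hcont : ContinuousOn φ A := by
    have : LipschitzOnWith 1 φ A := by
      apply LipschitzOnWith.of_dist_le_mul
      intro z hz w hw
      rw [hiso z hz w hw]
      simp
    exact this.continuousOn
  have hconst : ∀ z ∈ A, ∀ w ∈ A, dist z (φ z) = dist w (φ w) := by
    intro z hz w hw
    apply hA.const_on (f := fun z => dist z (φ z)) _ _ _ hz hw
    · intro x hx y hy t ht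
      show dist (pt x y t) (φ (pt x y t)) ≤ _
      rw [hφpt x hx y hy t ht]
      exact dist_pt_pt_le _ _ _ _ ht
    · exact continuous_dist.comp_continuousOn (continuousOn_id.prodMk hcont)
    · intro n hn x _
      show dist (n • x) (φ (n • x)) = _
      rw [hφN n hn, dist_smul]
  set κ := dist z (φ z) with hκ
  have hκ0 : κ = 0 := by
    by_contra hne
    have hκpos : 0 < κ := lt_of_le_of_ne dist_nonneg (Ne.symm hne)
    set u : ℕ → X := fun n => φ^[n] z with hu'
    have huA : ∀ n, u n ∈ A := by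
      intro n
      cases n with
      | zero => exact hz
      | succ n =>
        simp only [hu', Function.iterate_succ_apply']
        exact hφA _
    have hsucc : ∀ n, u (n + 1) = φ (u n) := by
      intro n
      simp only [hu', Function.iterate_succ_apply']
    have h1 : ∀ i, dist (u i) (u (i + 1)) = κ := by
      intro i
      rw [hsucc i, hconst _ (huA i) z hz]
    have h2 : ∀ i, dist (u i) (u (i + 2)) = 2 * κ := by
      intro i
      have e1 : u (i + 2) = φ (u (i + 1)) := hsucc (i + 1)
      have e2 : u (i + 1) = φ (u i) := hsucc i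
      apply le_antisymm
      · have := dist_triangle (u i) (u (i + 1)) (u (i + 2))
        rw [h1 i, h1 (i + 1)] at this
        linarith
      · have hm := hA.isNC.convex _ (huA i) _ (huA (i + 1)) _ half_mem_I
        have e3 := hφpt _ (huA i) _ (huA (i + 1)) _ half_mem_I
        rw [← e1, ← e2] at e3
        have e4 := hconst _ hm z hz
        rw [e3, pt_comm (u i) (u (i + 1)) half_mem_I] at e4
        have e5 : (1 : ℝ) - 1 / 2 = 1 / 2 := by norm_num
        rw [e5] at e4
        have e6 := dist_pt_pt_left_le (u (i + 1)) (u i) (u (i + 2)) half_mem_I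
        rw [e4] at e6
        linarith
    have hDR : IsDR u κ := seq_isDR h1 h2
    have b1 := hA.bus_proj hA hB hDR hκpos huA hz
    have b2 := hA.bus_proj hB hC hDR hκpos huA (pB z)
    have b3 := hA.bus_proj hC hA hDR hκpos huA (pC (proj B z))
    have b4 : bus u κ (φ z) = bus u κ z := by
      rw [← b1, ← b2, ← b3]
    have c0 := hDR.bus_apply 0
    have c1 := hDR.bus_apply 1
    have d0 : u 0 = z := rfl
    have d1 : u 1 = φ z := hsucc 0
    rw [d0] at c0
    rw [d1, b4, c0] at c1
    simp at c1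
    exact hne c1
  have hfix : proj A (proj C (proj B z)) = z := (dist_eq_zero.mp hκ0).symm
  have := hC.proj_proj hA (pC (proj B z))
  rw [hfix] at this
  exact this.symm

end Comp

/-! ### the product decomposition -/

theorem product_decomposition [ProperlyDiscontinuousSMul G X] [Nonempty X]
    (hgc : GeodesicallyComplete X)
    (hcoc : Cocompact G X) (N : Subgroup G) [N.Normal] (o : X) :
    ∃ p q : X → X, (∀ x x', dist x x' ^ 2 = dist (p x) (p x') ^ 2 + dist (q x) (q x') ^ 2) ∧
      (∀ x y, ∃ z, p z = p x ∧ q z = q y) ∧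
      (∀ x, x ∈ nhull N o → p x = x) ∧ (∀ x, p x ∈ nhull N o) ∧ (∀ x, q x ∈ nhull N x)
      ∧ q o = o := by
  have hm := isMinl_all (G := G) hgc hcoc N
  set C := nhull N o with hC
  have hCm : IsMinl N C := hm o
  have hoC : o ∈ C := mem_nhull N o
  set p : X → X := fun x => proj C x with hp
  set q : X → X := fun x => proj (nhull N x) o with hq
  have pC : ∀ x, p x ∈ C := fun x => proj_mem hCm.isNC.closed hCm.ne x
  have qmem : ∀ x, q x ∈ nhull N x := fun x => proj_mem (hm x).isNC.closed (hm x).ne o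
  have hpq : ∀ x, p (q x) = o := fun x => hCm.proj_proj (hm x) hoC
  have hpmem : ∀ x ∈ C, p x = x := fun x hx => proj_of_mem hCm.isNC.closed hCm.isNC.convex hx
  refine ⟨p, q, ?_, ?_, hpmem, pC, qmem, ?_⟩
  · intro x x'
    have hA := hm x
    have hB := hm x'
    have hxA := mem_nhull N x
    have hx'B := mem_nhull N x'
    rw [hA.pyth' hB hxA hx'B]
    have e1 : dist (proj (nhull N x') x) x' = dist (p x) (p x') := by
      have h1 := hB.dist_proj_proj hCm (proj_mem hB.isNC.closed hB.ne x) hx'B
      rw [hA.proj_comp hB hCm hxA] at h1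
      exact h1.symm
    have e2 : infDist x (nhull N x') = dist (q x) (q x') := by
      have h1 : proj (nhull N x') (q x) = q x' := by
        have a1 : p (proj (nhull N x') (q x)) = p (q x') := by
          show proj C (proj (nhull N x') (q x)) = _
          rw [hA.proj_comp hB hCm (qmem x)]
          exact (hpq x).trans (hpq x').symm
        have a2 := hB.dist_proj_proj hCm (proj_mem hB.isNC.closed hB.ne (q x)) (qmem x')
        have a3 : dist (p (proj (nhull N x') (q x))) (p (q x')) = 0 := by
          rw [a1, dist_self]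
        rw [show proj C (proj (nhull N x') (q x)) = p (proj (nhull N x') (q x)) from rfl,
          show proj C (q x') = p (q x') from rfl, a3] at a2
        exact dist_eq_zero.mp a2.symm
      rw [hA.dist_const hB hxA (qmem x), ← dist_proj hB.isNC.closed hB.ne (q x), h1]
    rw [e1, e2]
  · intro x y
    have hB := hm y
    refine ⟨proj (nhull N y) (p x), ?_, ?_⟩
    · exact hCm.proj_proj hB (pC x)
    · have hmem : proj (nhull N y) (p x) ∈ nhull N y := proj_mem hB.isNC.closed hB.ne _
      show proj (nhull N (proj (nhull N y) (p x))) o = proj (nhull N y) o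
      rw [hB.eq_nhull hmem]
  · show proj C o = o
    exact hpmem o hoC

/-- **Normal subgroups of geometric actions on irreducible spaces act minimally.** -/
theorem normal_minimal [ProperlyDiscontinuousSMul G X]
    (hgc : GeodesicallyComplete X) (hcoc : Cocompact G X) (hirr : MetricIrreducible X)
    (N : Subgroup G) [N.Normal] (hN : ∃ n ∈ N, ∃ x : X, n • x ≠ x) {D : Set X}
    (hD : IsNC N D) (hne : D.Nonempty) : D = univ := by
  obtain ⟨n, hn, o, ho⟩ := hN
  have : Nonempty X := ⟨o⟩
  obtain ⟨p, q, hd, hs, hp, hpC, hq, hqo⟩ := product_decomposition (G := G) hgc hcoc N o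
  have hm := isMinl_all (G := G) hgc hcoc N
  have huniv : nhull N o = univ := by
    rcases hirr.elim hd hs with h | h
    · exfalso
      apply ho
      rw [← hp _ ((isNC_nhull N o).inv n hn o (mem_nhull N o)), h (n • o) o,
        hp o (mem_nhull N o)]
    · ext x
      simp only [mem_univ, iff_true]
      have h1 : o ∈ nhull N x := by
        have := hq x
        rwa [h x o, hqo] at this
      rw [(hm x).eq_nhull h1]
      exact mem_nhull N x
  have := (hm o).min D hD hne (by rw [huniv]; exact subset_univ D)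
  rw [this, huniv]

end Pool.Agent.H29
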