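import Pool.Agent.H29.Central

/-!
# Stable segments

A segment of the axis of a translation is stable when the stabilisers of longer translation
segments have finite index in its stabiliser. The stabilisers of any two stable segments are
commensurable.
-/

open Set Filter Topology Metric

set_option linter.unusedSectionVars false

namespace Pool.Agent.H29

universe u

section Seq

variable {V : Type*} {d : V → V → ℕ}

lemma seq_dist (hd : TreeLike d) {p : ℕ → V} (hne : ∀ i, p i ≠ p (i + 1))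
    (hbt : ∀ i, Bt d (p i) (p (i + 1)) (p (i + 2))) (i n : ℕ) :
    d (p i) (p (i + n)) = ∑ k ∈ Finset.range n, d (p (i + k)) (p (i + k + 1)) := by
  have key : ∀ n : ℕ, Bt d (p i) (p (i + n)) (p (i + n + 1)) := by
    intro n
    induction n with
    | zero =>
      unfold Bt
      rw [add_zero, hd.self, zero_add]
    | succ n ih =>
      have h1 := Bt.concat hd ih (hbt (i + n)) (hne _)
      have h2 := ih
      unfold Bt at *
      rw [show i + (n + 1) = i + n + 1 from rfl, show i + n + 1 + 1 = i + n + 2 from rfl, h1]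
      omega
  induction n with
  | zero => simp [hd.self]
  | succ n ih =>
    rw [Finset.sum_range_succ, ← ih]
    exact Eq.symm (key n)

lemma seq_bt (hd : TreeLike d) {p : ℕ → V} (hne : ∀ i, p i ≠ p (i + 1))
    (hbt : ∀ i, Bt d (p i) (p (i + 1)) (p (i + 2))) (i n m : ℕ) :
    Bt d (p i) (p (i + n)) (p (i + n + m)) := by
  unfold Bt
  rw [seq_dist hd hne hbt i n, seq_dist hd hne hbt (i + n) m, add_assoc i n m,
    seq_dist hd hne hbt i (n + m), Finset.sum_range_add]
  simp only [add_assoc]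

end Seq

section Axis

variable {G V : Type*} [Group G] [MulAction G V] {d : V → V → ℕ} {τ : G} {x y : V}

/-- the points of the axis in their order -/
def axp (τ : G) (x y : V) (i : ℤ) : V := if Even i then τ ^ (i / 2) • x else τ ^ (i / 2) • y

lemma axp_even (k : ℤ) : axp τ x y (2 * k) = τ ^ k • x := by
  unfold axp
  rw [if_pos (even_two_mul k)]
  congr 2
  omega

lemma axp_odd (k : ℤ) : axp τ x y (2 * k + 1) = τ ^ k • y := by
  unfold axp
  rw [if_neg (by simp)]
  congr 2
  omega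

lemma axp_zero : axp τ x y 0 = x := by
  have := axp_even (τ := τ) (x := x) (y := y) 0
  simpa using this

lemma axp_one : axp τ x y 1 = y := by
  have := axp_odd (τ := τ) (x := x) (y := y) 0
  simpa using this

lemma axp_ne (h : TAx d τ x y) (i : ℤ) : axp τ x y i ≠ axp τ x y (i + 1) := by
  rcases Int.even_or_odd' i with ⟨k, rfl | rfl⟩
  · rw [axp_even, axp_odd]
    exact fun he => h.ne (MulAction.injective _ he)
  · rw [axp_odd, show (2 * k + 1 + 1 : ℤ) = 2 * (k + 1) by ring, axp_even, zpow_add_one, mul_smul]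
    exact fun he => h.ne' (MulAction.injective _ he)

lemma axp_bt (hiso : ∀ (g : G) v w, d (g • v) (g • w) = d v w) (h : TAx d τ x y) (i : ℤ) :
    Bt d (axp τ x y i) (axp τ x y (i + 1)) (axp τ x y (i + 2)) := by
  rcases Int.even_or_odd' i with ⟨k, rfl | rfl⟩
  · rw [axp_even, axp_odd, show (2 * k + 2 : ℤ) = 2 * (k + 1) by ring, axp_even, zpow_add_one,
      mul_smul]
    exact h.a1.smul hiso _
  · rw [axp_odd, show (2 * k + 1 + 1 : ℤ) = 2 * (k + 1) by ring, axp_even,
      show (2 * k + 1 + 2 : ℤ) = 2 * (k + 1) + 1 by ring, axp_odd, zpow_add_one, mul_smul, mul_smul]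
    exact h.a2.smul hiso _

/-- the axis is geodesic -/
lemma axp_between (hd : TreeLike d) (hiso : ∀ (g : G) v w, d (g • v) (g • w) = d v w)
    (h : TAx d τ x y) {i j k : ℤ} (hij : i ≤ j) (hjk : j ≤ k) :
    Bt d (axp τ x y i) (axp τ x y j) (axp τ x y k) := by
  obtain ⟨n, rfl⟩ := Int.le.dest hij
  obtain ⟨m, rfl⟩ := Int.le.dest hjk
  have h1 := seq_bt hd (p := fun n : ℕ => axp τ x y (i + n))
    (fun a => by
      have := axp_ne h (i + a)
      push_cast
      rwa [add_assoc] at this)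
    (fun a => by
      have := axp_bt hiso h (i + a)
      push_cast
      rwa [add_assoc, add_assoc] at this) 0 n m
  push_cast at h1
  simpa [add_assoc] using h1

lemma axp_lt (hd : TreeLike d) (hiso : ∀ (g : G) v w, d (g • v) (g • w) = d v w)
    (h : TAx d τ x y) {i j : ℤ} (hij : i < j) : axp τ x y i ≠ axp τ x y j := by
  intro he
  have h1 := axp_between hd hiso h (show i ≤ i + 1 by omega) (show i + 1 ≤ j by omega)
  unfold Bt at h1
  rw [← he, hd.self] at h1
  exact axp_ne h i (hd.eq_of _ _ (by omega))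

/-- long segments of the axis -/
lemma TAx.long (hd : TreeLike d) (hiso : ∀ (g : G) v w, d (g • v) (g • w) = d v w)
    (h : TAx d τ x y) (n : ℕ) :
    TAx d (τ ^ (2 * n + 1)) (τ ^ (-(n : ℤ)) • x) (τ ^ (n : ℤ) • y) := by
  have e1 : τ ^ (-(n : ℤ)) • x = axp τ x y (2 * (-(n : ℤ))) := (axp_even _).symm
  have e2 : τ ^ (n : ℤ) • y = axp τ x y (2 * (n : ℤ) + 1) := (axp_odd _).symm
  have e3 : τ ^ (2 * n + 1) • τ ^ (-(n : ℤ)) • x = axp τ x y (2 * ((n : ℤ) + 1)) := by
    rw [axp_even, smul_smul, ← zpow_natCast, ← zpow_add]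
    congr 2
    push_cast
    ring
  have e4 : τ ^ (2 * n + 1) • τ ^ (n : ℤ) • y = axp τ x y (2 * (3 * (n : ℤ) + 1) + 1) := by
    rw [axp_odd, smul_smul, ← zpow_natCast, ← zpow_add]
    congr 2
    push_cast
    ring
  refine ⟨?_, ?_, ?_, ?_⟩
  · rw [e1, e2]
    exact axp_lt hd hiso h (by omega)
  · rw [e2, e3]
    exact axp_lt hd hiso h (by omega)
  · rw [e3, e1, e2]
    exact axp_between hd hiso h (by omega) (by omega)
  · rw [e3, e4, e2]
    exact axp_between hd hiso h (by omega) (by omega)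

lemma OnAx.exists_axp {q : V} (hq : OnAx τ x y q) : ∃ i : ℤ, q = axp τ x y i := by
  obtain ⟨k, rfl | rfl⟩ := hq
  · exact ⟨2 * k, (axp_even k).symm⟩
  · exact ⟨2 * k + 1, (axp_odd k).symm⟩

/-- an element fixing the ends of a long segment fixes all its points -/
lemma long_fix (hd : TreeLike d) (hiso : ∀ (g : G) v w, d (g • v) (g • w) = d v w)
    (h : TAx d τ x y) (n : ℕ) {i : ℤ} (h1 : -(2 * (n : ℤ)) ≤ i) (h2 : i ≤ 2 * n + 1) {g : G}
    (hg1 : g • τ ^ (-(n : ℤ)) • x = τ ^ (-(n : ℤ)) • x)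
    (hg2 : g • τ ^ (n : ℤ) • y = τ ^ (n : ℤ) • y) : g • axp τ x y i = axp τ x y i := by
  rw [← axp_even (y := y)] at hg1
  rw [← axp_odd (x := x)] at hg2
  exact (axp_between hd hiso h (by omega) h2).fix hd hiso hg1 hg2

end Axis

section Min

variable {G V : Type*} [Group G] [MulAction G V] {d : V → V → ℕ} {τ : G} {x y : V}

/-- a stable segment of the axis of a translation -/
structure MinAx (d : V → V → ℕ) (τ : G) (x y : V) : Prop where
  ax : TAx d τ x y
  min : ∀ (σ : G) (z w : V), TAx d σ z w →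
    MulAction.stabilizer G z ⊓ MulAction.stabilizer G w ≤
      MulAction.stabilizer G x ⊓ MulAction.stabilizer G y →
    (MulAction.stabilizer G z ⊓ MulAction.stabilizer G w).relIndex
      (MulAction.stabilizer G x ⊓ MulAction.stabilizer G y) ≠ 0

lemma MinAx.rev (hd : TreeLike d) (hiso : ∀ (g : G) v w, d (g • v) (g • w) = d v w)
    (h : MinAx d τ x y) : MinAx d τ⁻¹ y x := by
  refine ⟨h.ax.rev hd hiso, fun σ z w hzw hle => ?_⟩
  rw [inf_comm (MulAction.stabilizer G y)] at hle ⊢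
  exact h.min σ z w hzw hle

lemma TAx.conj (hiso : ∀ (g : G) v w, d (g • v) (g • w) = d v w)
    (h : TAx d τ x y) (g : G) : TAx d (g * τ * g⁻¹) (g • x) (g • y) := by
  have e : ∀ v : V, (g * τ * g⁻¹) • g • v = g • τ • v := by
    intro v
    rw [mul_smul, mul_smul, inv_smul_smul]
  refine ⟨fun he => h.ne (MulAction.injective _ he), ?_, ?_, ?_⟩
  · rw [e]; exact fun he => h.ne' (MulAction.injective _ he)
  · rw [e]; exact h.a1.smul hiso _
  · rw [e, e]; exact h.a2.smul hiso _

lemma MinAx.conj (hiso : ∀ (g : G) v w, d (g • v) (g • w) = d v w)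
    (h : MinAx d τ x y) (g : G) : MinAx d (g * τ * g⁻¹) (g • x) (g • y) := by
  refine ⟨h.ax.conj hiso g, fun σ z w hzw hle => ?_⟩
  rw [← relIndex_conj g⁻¹, map_stab, map_stab, inv_smul_smul, inv_smul_smul]
  apply h.min _ _ _ (hzw.conj hiso g⁻¹)
  rintro k ⟨hk1, hk2⟩
  have hk1' : k • g⁻¹ • z = g⁻¹ • z := hk1
  have hk2' : k • g⁻¹ • w = g⁻¹ • w := hk2
  have h3 : g * k * g⁻¹ ∈ MulAction.stabilizer G z ⊓ MulAction.stabilizer G w := by
    refine ⟨?_, ?_⟩
    · show (g * k * g⁻¹) • z = z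
      rw [mul_smul, mul_smul, hk1', smul_inv_smul]
    · show (g * k * g⁻¹) • w = w
      rw [mul_smul, mul_smul, hk2', smul_inv_smul]
  obtain ⟨h4, h5⟩ := hle h3
  have h4' : (g * k * g⁻¹) • g • x = g • x := h4
  have h5' : (g * k * g⁻¹) • g • y = g • y := h5
  rw [mul_smul, mul_smul, inv_smul_smul] at h4' h5'
  exact ⟨MulAction.injective g h4', MulAction.injective g h5'⟩

lemma MinAx.zpow (hiso : ∀ (g : G) v w, d (g • v) (g • w) = d v w)
    (h : MinAx d τ x y) (j : ℤ) : MinAx d τ (τ ^ j • x) (τ ^ j • y) := by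
  have h1 := h.conj hiso (τ ^ j)
  have e : τ ^ j * τ * (τ ^ j)⁻¹ = τ := by
    rw [← zpow_add_one, ← zpow_neg, ← zpow_add]
    have : j + 1 + -j = 1 := by ring
    rw [this, zpow_one]
  rwa [e] at h1

/-- The stabiliser of a long segment has finite index in the stabiliser of a stable segment. -/
lemma MinAx.seg (hd : TreeLike d) (hiso : ∀ (g : G) v w, d (g • v) (g • w) = d v w)
    (h : MinAx d τ x y) (n : ℕ) :
    (MulAction.stabilizer G (τ ^ (-(n : ℤ)) • x) ⊓
      MulAction.stabilizer G (τ ^ (n : ℤ) • y)).relIndex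
      (MulAction.stabilizer G x ⊓ MulAction.stabilizer G y) ≠ 0 := by
  apply h.min _ _ _ (h.ax.long hd hiso n)
  rintro k ⟨hk1, hk2⟩
  have h1 := long_fix hd hiso h.ax n (i := 0) (by omega) (by omega) hk1 hk2
  have h2 := long_fix hd hiso h.ax n (i := 1) (by omega) (by omega) hk1 hk2
  rw [axp_zero] at h1
  rw [axp_one] at h2
  exact ⟨h1, h2⟩

lemma MinAx.shift (hd : TreeLike d) (hiso : ∀ (g : G) v w, d (g • v) (g • w) = d v w)
    (h : MinAx d τ x y) (j : ℤ) :
    (MulAction.stabilizer G (τ ^ j • x) ⊓ MulAction.stabilizer G (τ ^ j • y)).relIndex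
      (MulAction.stabilizer G x ⊓ MulAction.stabilizer G y) ≠ 0 := by
  apply relIndex_mono_left _ (h.seg hd hiso j.natAbs)
  rintro k ⟨hk1, hk2⟩
  have h1 := long_fix hd hiso h.ax j.natAbs (i := 2 * j) (by omega) (by omega) hk1 hk2
  have h2 := long_fix hd hiso h.ax j.natAbs (i := 2 * j + 1) (by omega) (by omega) hk1 hk2
  rw [axp_even] at h1
  rw [axp_odd] at h2
  exact ⟨h1, h2⟩

lemma MinAx.shift' (hd : TreeLike d) (hiso : ∀ (g : G) v w, d (g • v) (g • w) = d v w)
    (h : MinAx d τ x y) (j : ℤ) :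
    (MulAction.stabilizer G x ⊓ MulAction.stabilizer G y).relIndex
      (MulAction.stabilizer G (τ ^ j • x) ⊓ MulAction.stabilizer G (τ ^ j • y)) ≠ 0 := by
  have h1 := (h.zpow hiso j).shift hd hiso (-j)
  rwa [smul_smul, smul_smul, ← zpow_add, neg_add_cancel, zpow_zero, one_smul, one_smul] at h1

/-- commensurability of two subgroups -/
def Comm2 (H K : Subgroup G) : Prop := H.relIndex K ≠ 0 ∧ K.relIndex H ≠ 0

lemma Comm2.symm {H K : Subgroup G} (h : Comm2 H K) : Comm2 K H := ⟨h.2, h.1⟩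

lemma Comm2.trans {H K L : Subgroup G} (h : Comm2 H K) (h' : Comm2 K L) : Comm2 H L :=
  ⟨Subgroup.relIndex_ne_zero_trans h.1 h'.1, Subgroup.relIndex_ne_zero_trans h'.2 h.2⟩

/-- If an end of the axis of the first stable segment runs through translates of the second one,
the two stabilisers are commensurable. -/
lemma MinAx.ends (hd : TreeLike d) (hiso : ∀ (g : G) v w, d (g • v) (g • w) = d v w)
    (h : MinAx d τ x y) {τ' : G} {x' y' : V} (h' : MinAx d τ' x' y') :
    (∃ j : ℤ, ∀ q, OnAx τ x y q → Bt d q (τ' ^ j • y') (τ' ^ j • x')) ∨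
      Comm2 (MulAction.stabilizer G x ⊓ MulAction.stabilizer G y)
        (MulAction.stabilizer G x' ⊓ MulAction.stabilizer G y') := by
  obtain ⟨M, hM⟩ := (h'.ax.rev hd hiso).exists_neg hd hiso x
  have eM : ∀ v : V, τ'⁻¹ ^ M • v = τ' ^ (-(M : ℤ)) • v := by
    intro v
    rw [zpow_neg, zpow_natCast, inv_pow]
  rw [eM, eM] at hM
  set j : ℤ := -((M : ℤ) + 1) with hj
  have hjM : j + 1 = -(M : ℤ) := by rw [hj]; ring
  by_cases hcase : ∀ q, OnAx τ x y q → Bt d q (τ' ^ j • y') (τ' ^ j • x')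
  · exact Or.inl ⟨j, hcase⟩
  · right
    push Not at hcase
    obtain ⟨q, hq, hk⟩ := hcase
    obtain ⟨n1, n2, n3, n4⟩ := h'.ax.zpow hiso j
    have e : ∀ v : V, τ' • τ' ^ j • v = τ' ^ (j + 1) • v := by
      intro v
      rw [smul_smul, ← zpow_one_add, add_comm]
    rw [e] at n2 n3
    rw [e, e] at n4
    rw [hjM] at n2 n3 n4
    have hmin := h'.zpow hiso (-(M : ℤ))
    have hs1 := h'.shift hd hiso (-(M : ℤ))
    have hs2 := h'.shift' hd hiso (-(M : ℤ))
    set a := τ' ^ j • x'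
    set b := τ' ^ j • y'
    set a' := τ' ^ (-(M : ℤ)) • x'
    set b' := τ' ^ (-(M : ℤ)) • y'
    have hne2 : a' ≠ b' := fun he => h'.ax.ne (MulAction.injective _ he)
    have f1 : Bt d q b a' := by
      have f := hd.four q b a a'
      have t1 := hd.tri q b a'
      have t2 := hd.tri q b a
      rw [hd.symm b a] at f t2
      unfold Bt at *
      rw [hd.symm b a] at hk
      omega
    have f2 := Bt.concat hd f1 n4 n2
    have f3 : Bt d q a' b' := by
      unfold Bt at *
      omega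
    have hM' := hM.symm hd
    have f4 := Bt.concat hd f3 hM' hne2
    have g1 : Bt d q a' x := by
      unfold Bt at *
      omega
    have g2 : Bt d q b' x := by
      unfold Bt at *
      omega
    obtain ⟨i, rfl⟩ := hq.exists_axp
    have hseg := h.seg hd hiso i.natAbs
    have hlong := h.ax.long hd hiso i.natAbs
    have hfx : ∀ k ∈ MulAction.stabilizer G (τ ^ (-(i.natAbs : ℤ)) • x) ⊓
        MulAction.stabilizer G (τ ^ (i.natAbs : ℤ) • y), k • axp τ x y i = axp τ x y i ∧
        k • x = x ∧ k • y = y := by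
      rintro k ⟨hk1, hk2⟩
      have h1 := long_fix hd hiso h.ax i.natAbs (i := i) (by omega) (by omega) hk1 hk2
      have h2 := long_fix hd hiso h.ax i.natAbs (i := 0) (by omega) (by omega) hk1 hk2
      have h3 := long_fix hd hiso h.ax i.natAbs (i := 1) (by omega) (by omega) hk1 hk2
      rw [axp_zero] at h2
      rw [axp_one] at h3
      exact ⟨h1, h2, h3⟩
    have hle : MulAction.stabilizer G (τ ^ (-(i.natAbs : ℤ)) • x) ⊓
        MulAction.stabilizer G (τ ^ (i.natAbs : ℤ) • y) ≤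
          MulAction.stabilizer G a' ⊓ MulAction.stabilizer G b' := by
      intro k hk
      obtain ⟨q1, q0, _⟩ := hfx k hk
      exact ⟨g1.fix hd hiso q1 q0, g2.fix hd hiso q1 q0⟩
    have hle' : MulAction.stabilizer G (τ ^ (-(i.natAbs : ℤ)) • x) ⊓
        MulAction.stabilizer G (τ ^ (i.natAbs : ℤ) • y) ≤
          MulAction.stabilizer G x ⊓ MulAction.stabilizer G y := by
      intro k hk
      exact (hfx k hk).2
    have h2 := hmin.min _ _ _ hlong hle
    exact Comm2.trans ⟨relIndex_mono_left hle' h2, relIndex_mono_left hle hseg⟩ ⟨hs1, hs2⟩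

/-- **Commensurability of stable segment stabilisers.** -/
theorem MinAx.comm (hd : TreeLike d) (hiso : ∀ (g : G) v w, d (g • v) (g • w) = d v w)
    {τ1 τ2 : G} {x1 y1 x2 y2 : V}
    (h1 : MinAx d τ1 x1 y1) (h2 : MinAx d τ2 x2 y2) :
    Comm2 (MulAction.stabilizer G x1 ⊓ MulAction.stabilizer G y1)
      (MulAction.stabilizer G x2 ⊓ MulAction.stabilizer G y2) := by
  by_contra hcon
  obtain ⟨j2, hj2⟩ := (h1.ends hd hiso h2).resolve_right hcon
  obtain ⟨i2, hi2⟩ := (h1.ends hd hiso (h2.rev hd hiso)).resolve_right (by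
    rw [inf_comm (MulAction.stabilizer G y2)]; exact hcon)
  obtain ⟨j1, hj1⟩ := (h2.ends hd hiso h1).resolve_right (fun h => hcon h.symm)
  obtain ⟨i1, hi1⟩ := (h2.ends hd hiso (h1.rev hd hiso)).resolve_right (by
    rw [inf_comm (MulAction.stabilizer G y1)]; exact fun h => hcon h.symm)
  have einv : ∀ (τ : G) (i : ℤ) (v : V), τ⁻¹ ^ i • v = τ ^ (-i) • v := by
    intro τ i v
    rw [inv_zpow']
  simp only [einv] at hi1 hi2
  have m2 := h2.zpow hiso j2
  have m1 := h1.zpow hiso (-i1)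
  have c2 : Comm2 (MulAction.stabilizer G (τ2 ^ j2 • x2) ⊓ MulAction.stabilizer G (τ2 ^ j2 • y2))
      (MulAction.stabilizer G x2 ⊓ MulAction.stabilizer G y2) :=
    ⟨h2.shift hd hiso j2, h2.shift' hd hiso j2⟩
  have c1 : Comm2 (MulAction.stabilizer G (τ1 ^ (-i1) • x1) ⊓
      MulAction.stabilizer G (τ1 ^ (-i1) • y1))
      (MulAction.stabilizer G x1 ⊓ MulAction.stabilizer G y1) :=
    ⟨h1.shift hd hiso (-i1), h1.shift' hd hiso (-i1)⟩
  set u2 := τ2 ^ j2 • x2 with hu2
  set v2 := τ2 ^ j2 • y2 with hv2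
  set u2' := τ2 ^ (-i2 + 1) • x2 with hu2'
  set v2' := τ2 ^ (-i2 + 1) • y2 with hv2'
  set u1 := τ1 ^ j1 • x1 with hu1
  set v1 := τ1 ^ j1 • y1 with hv1
  set u1' := τ1 ^ (-i1) • x1 with hu1'
  set v1' := τ1 ^ (-i1) • y1 with hv1'
  have o1 : OnAx τ1 x1 y1 v1 := ⟨j1, Or.inr rfl⟩
  have o2 : OnAx τ1 x1 y1 u1' := ⟨-i1, Or.inl rfl⟩
  have o3 : OnAx τ1 x1 y1 v1' := ⟨-i1, Or.inr rfl⟩
  have o4 : OnAx τ2 x2 y2 u2 := ⟨j2, Or.inl rfl⟩
  have o5 : OnAx τ2 x2 y2 u2' := ⟨-i2 + 1, Or.inl rfl⟩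
  have F1 : Bt d u2 u1' v1' := hi1 u2 o4
  have F2 : Bt d v1' v2 u2 := hj2 v1' o3
  have F2' : Bt d u1' v2 u2 := hj2 u1' o2
  have F3 : Bt d u2' v1 u1 := hj1 u2' o5
  have F4 := h2.ax.step_zpow hd hiso (-i2) (hi2 v1 o1)
  rw [← hu2', ← hv2'] at F4
  obtain ⟨F4, F4'⟩ := F4
  -- the new translation
  set n : ℤ := -i1 - j1 with hn
  set m : ℤ := -i2 + 1 - j2 with hm
  set τ3 := τ1 ^ n * τ2 ^ m with hτ3
  have t1 : ∀ v : V, τ1 ^ n • τ1 ^ j1 • v = τ1 ^ (-i1) • v := by
    intro v
    rw [smul_smul, ← zpow_add, hn, sub_add_cancel]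
  have t2 : ∀ v : V, τ2 ^ m • τ2 ^ j2 • v = τ2 ^ (-i2 + 1) • v := by
    intro v
    rw [smul_smul, ← zpow_add, hm, sub_add_cancel]
  have e1 : τ1 ^ n • u1 = u1' := t1 x1
  have e2 : τ1 ^ n • v1 = v1' := t1 y1
  have e3 : τ3 • u2 = τ1 ^ n • u2' := by rw [hτ3, mul_smul, hu2, t2]
  have e4 : τ3 • v2 = τ1 ^ n • v2' := by rw [hτ3, mul_smul, hv2, t2]
  have hne1 : u1' ≠ v1' := fun he => h1.ax.ne (MulAction.injective _ he)
  have hne2 : u2 ≠ v2 := fun he => h2.ax.ne (MulAction.injective _ he)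
  have hne3 : τ3 • u2 ≠ τ3 • v2 := fun he => hne2 (MulAction.injective _ he)
  have G3 : Bt d (τ3 • u2) v1' u1' := by
    have := F3.smul hiso (τ1 ^ n)
    rwa [e1, e2, ← e3] at this
  have G3' := G3.symm hd
  have G4 : Bt d v1' (τ3 • u2) (τ3 • v2) := by
    have := F4.smul hiso (τ1 ^ n)
    rwa [e2, ← e3, ← e4] at this
  have K1 := Bt.concat hd F1 G3' hne1
  have F2s := F2.symm hd
  have G2 : Bt d (τ3 • u2) (τ3 • v2) (τ3 • v1') := F2s.smul hiso τ3
  have K2 := Bt.concat hd G4 G2 hne3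
  have hd21 : d v1' (τ3 • u2) = d v1 u2' := by rw [e3, ← e2, hiso]
  have hax3 : TAx d τ3 u2 v1' := by
    refine ⟨?_, ?_, ?_, ?_⟩
    · intro he
      have hpos := hd.pos hne2
      rw [he] at F2
      unfold Bt at F2
      rw [hd.self] at F2
      rw [he, hd.symm] at hpos
      omega
    · intro he
      have : d v1' (τ3 • u2) = 0 := by rw [← he, hd.self]
      omega
    · unfold Bt at *
      omega
    · unfold Bt at *
      omega
  have hle2 : MulAction.stabilizer G u2 ⊓ MulAction.stabilizer G v1' ≤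
      MulAction.stabilizer G u2 ⊓ MulAction.stabilizer G v2 := by
    rintro k ⟨hk1, hk2⟩
    exact ⟨hk1, F2s.fix hd hiso hk1 hk2⟩
  have hle1 : MulAction.stabilizer G u2 ⊓ MulAction.stabilizer G v1' ≤
      MulAction.stabilizer G u1' ⊓ MulAction.stabilizer G v1' := by
    rintro k ⟨hk1, hk2⟩
    exact ⟨F1.fix hd hiso hk1 hk2, hk2⟩
  have r2 := m2.min _ _ _ hax3 hle2
  have r1 := m1.min _ _ _ hax3 hle1
  have d2 : Comm2 (MulAction.stabilizer G u2 ⊓ MulAction.stabilizer G v1')
      (MulAction.stabilizer G u2 ⊓ MulAction.stabilizer G v2) :=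
    ⟨r2, relIndex_mono_left hle2 (by rw [Subgroup.relIndex_self]; exact one_ne_zero)⟩
  have d1 : Comm2 (MulAction.stabilizer G u2 ⊓ MulAction.stabilizer G v1')
      (MulAction.stabilizer G u1' ⊓ MulAction.stabilizer G v1') :=
    ⟨r1, relIndex_mono_left hle1 (by rw [Subgroup.relIndex_self]; exact one_ne_zero)⟩
  exact hcon ((c1.symm.trans d1.symm).trans (d2.trans c2))

end Min

section Main

variable {G : Type*} {X : Type u} [Group G] [MetricSpace X] [IsCAT0 X] [ProperSpace X]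
  [MulAction G X] [IsIsometricSMul G X] [ProperlyDiscontinuousSMul G X]

/-- The abstract criterion: a stable segment whose stabiliser virtually centralises an element
acting nontrivially. -/
theorem rankOne_of_minAx [Nonempty X] {V : Type*} [MulAction G V] {d : V → V → ℕ}
    (hgc : GeodesicallyComplete X) (hcoc : Cocompact G X)
    (hirr : MetricIrreducible X) (hd : TreeLike d)
    (hiso : ∀ (g : G) v w, d (g • v) (g • w) = d v w)
    (hfin : ∀ (σ : G) (z w : V), TAx d σ z w → {g : G | g • z = z ∧ g • w = w}.Finite →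
      IsRankOne (X := X) σ)
    {τ : G} {x y : V} (h : MinAx d τ x y) {b : G} (hb : ∃ p : X, b • p ≠ p)
    (hcen : (Subgroup.centralizer {b}).relIndex
      (MulAction.stabilizer G x ⊓ MulAction.stabilizer G y) ≠ 0) :
    ∃ g : G, IsRankOne (X := X) g := by
  classical
  by_contra hcon
  push Not at hcon
  have hinf : ((MulAction.stabilizer G x ⊓ MulAction.stabilizer G y : Subgroup G) :
      Set G).Infinite := fun hf => hcon _ (hfin τ x y h.ax hf)
  obtain ⟨c, hc, l, hl, hcl⟩ := exists_axis (X := X) hcoc (h.ax.pow_ne_one hd hiso)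
  obtain ⟨c', hc', hsurj⟩ := line_of_centralizers hgc hcoc hirr hb (by
    intro R hR
    have h1 : (Subgroup.centralizer (R : Set G)).relIndex
        (MulAction.stabilizer G x ⊓ MulAction.stabilizer G y) ≠ 0 := by
      apply relIndex_centralizer_finset _ R
      intro ρ hρ
      obtain ⟨g, rfl⟩ := hR ρ hρ
      have h2 := (h.comm hd hiso (h.conj hiso g)).2
      have h3 := hcen
      rw [← relIndex_conj g, map_centralizer, map_stab] at h3
      exact Subgroup.relIndex_ne_zero_trans h3 h2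
    exact (infinite_inf_of_relIndex h1 hinf).mono (fun k hk => hk.2))
  exact hcon _ ⟨c, hc, ⟨l, hl.ne', hcl⟩, not_boundsHalfPlane_of_surjective hc' hsurj c⟩

end Main

end Pool.Agent.H29
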