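import Pool.Agent.H29.Axis
import Pool.Agent.H29.Wall
import Pool.Agent.H29.TreeLike

/-!
# Star systems

A star system on an index set is a family of partial equivalence relations, one for each index
`κ`, on the indices different from `κ` (being on the same side of the wall `κ`), such that the
walls do not cross. It defines a tree-like metric.
-/

open Set Filter Topology Metric

set_option linter.unusedSectionVars false

namespace Pool.Agent.H29

section Star

variable {ι : Type*}

/-- `R κ i j`: the walls `i` and `j` are on the same side of the wall `κ`. -/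
structure StarSys (R : ι → ι → ι → Prop) : Prop where
  symm : ∀ {κ i j}, R κ i j → R κ j i
  trans : ∀ {κ i j k}, R κ i j → R κ j k → R κ i k
  refl : ∀ {κ i}, i ≠ κ → R κ i i
  irr : ∀ κ i, ¬ R κ κ i
  comp : ∀ {κ κ'}, κ ≠ κ' → ∀ i, R κ i κ' ∨ R κ' i κ
  fin : ∀ i j, {κ | ¬ R κ i j}.Finite

open scoped Classical in
/-- the indicator of `i ≠ κ` -/
noncomputable def cst (κ i : ι) : ℕ := if i = κ then 0 else 1

open scoped Classical in
/-- the contribution of the wall `κ` to the distance of `i` and `j` -/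
noncomputable def wst (R : ι → ι → ι → Prop) (κ i j : ι) : ℕ :=
  if R κ i j then 0 else cst κ i + cst κ j

/-- the distance defined by a star system -/
noncomputable def dst (R : ι → ι → ι → Prop) (i j : ι) : ℕ := ∑ᶠ κ, wst R κ i j

variable {R : ι → ι → ι → Prop}

lemma cst_self (κ : ι) : cst κ κ = 0 := by simp [cst]

lemma cst_ne {κ i : ι} (h : i ≠ κ) : cst κ i = 1 := by simp [cst, h]

lemma wst_pos {κ i j : ι} (h : R κ i j) : wst R κ i j = 0 := by simp [wst, h]

lemma wst_neg {κ i j : ι} (h : ¬ R κ i j) : wst R κ i j = cst κ i + cst κ j := by simp [wst, h]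

lemma StarSys.ne_left (hR : StarSys R) {κ i j : ι} (h : R κ i j) : i ≠ κ := by
  rintro rfl
  exact hR.irr _ _ h

lemma StarSys.ne_right (hR : StarSys R) {κ i j : ι} (h : R κ i j) : j ≠ κ :=
  hR.ne_left (hR.symm h)

lemma StarSys.supp (hR : StarSys R) (i j : ι) : (Function.support (fun κ => wst R κ i j)).Finite := by
  apply (hR.fin i j).subset
  intro κ hκ hcon
  exact hκ (wst_pos hcon)

lemma wst_self (hR : StarSys R) (κ i : ι) : wst R κ i i = 0 := by
  by_cases h : i = κ
  · subst h
    rw [wst_neg (hR.irr _ _), cst_self]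
  · exact wst_pos (hR.refl h)

lemma wst_symm (hR : StarSys R) (κ i j : ι) : wst R κ i j = wst R κ j i := by
  by_cases h : R κ i j
  · rw [wst_pos h, wst_pos (hR.symm h)]
  · rw [wst_neg h, wst_neg (fun h' => h (hR.symm h')), add_comm]

lemma wst_tri (hR : StarSys R) (κ i j k : ι) : wst R κ i k ≤ wst R κ i j + wst R κ j k := by
  by_cases h : R κ i k
  · rw [wst_pos h]; exact Nat.zero_le _
  rw [wst_neg h]
  by_cases h1 : R κ i j
  · by_cases h2 : R κ j k
    · exact absurd (hR.trans h1 h2) h
    · rw [wst_pos h1, wst_neg h2, cst_ne (hR.ne_left h1), cst_ne (hR.ne_right h1), zero_add]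
  · by_cases h2 : R κ j k
    · rw [wst_neg h1, wst_pos h2, cst_ne (hR.ne_left h2), cst_ne (hR.ne_right h2), add_zero]
    · rw [wst_neg h1, wst_neg h2]
      omega

lemma dst_eq_sum (_hR : StarSys R) {i j : ι} {S : Finset ι}
    (hS : Function.support (fun κ => wst R κ i j) ⊆ S) : dst R i j = ∑ κ ∈ S, wst R κ i j :=
  finsum_eq_sum_of_support_subset _ hS

/-- a finite set supporting the distances of finitely many pairs -/
lemma StarSys.exists_finset (hR : StarSys R) (P : Finset (ι × ι)) :
    ∃ S : Finset ι, ∀ p ∈ P, Function.support (fun κ => wst R κ p.1 p.2) ⊆ S := by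
  classical
  refine ⟨P.biUnion (fun p => (hR.supp p.1 p.2).toFinset), fun p hp κ hκ => ?_⟩
  rw [Finset.coe_biUnion]
  exact mem_biUnion hp ((hR.supp p.1 p.2).mem_toFinset.mpr hκ)

lemma star_four_aux (hR : StarSys R) {κ κ' x y z w : ι}
    (h : wst R κ x z + wst R κ y w < wst R κ x y + wst R κ z w)
    (h' : wst R κ' x w + wst R κ' y z < wst R κ' x y + wst R κ' z w) : False := by
  have key : ∀ {κ x y z w : ι}, wst R κ x z + wst R κ y w < wst R κ x y + wst R κ z w →
      (R κ x z ∨ R κ y w) ∧ ¬ R κ x y ∧ ¬ R κ z w := by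
    intro κ x y z w h
    by_cases hxz : R κ x z <;> by_cases hyw : R κ y w <;> by_cases hxy : R κ x y <;>
      by_cases hzw : R κ z w
    · rw [wst_pos hxz, wst_pos hyw, wst_pos hxy, wst_pos hzw] at h; omega
    · exact absurd (hR.trans (hR.symm hxz) (hR.trans hxy hyw)) hzw
    · exact absurd (hR.trans hxz (hR.trans hzw (hR.symm hyw))) hxy
    · exact ⟨Or.inl hxz, hxy, hzw⟩
    · rw [wst_pos hxz, wst_neg hyw, wst_pos hxy, wst_pos hzw] at h; omega
    · rw [wst_pos hxz, wst_neg hyw, wst_pos hxy, wst_neg hzw, cst_ne (hR.ne_right hxy),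
        cst_ne (hR.ne_right hxz)] at h
      omega
    · rw [wst_pos hxz, wst_neg hyw, wst_neg hxy, wst_pos hzw, cst_ne (hR.ne_left hxz),
        cst_ne (hR.ne_right hzw)] at h
      omega
    · exact ⟨Or.inl hxz, hxy, hzw⟩
    · rw [wst_neg hxz, wst_pos hyw, wst_pos hxy, wst_pos hzw] at h; omega
    · rw [wst_neg hxz, wst_pos hyw, wst_pos hxy, wst_neg hzw, cst_ne (hR.ne_left hxy),
        cst_ne (hR.ne_right hyw)] at h
      omega
    · rw [wst_neg hxz, wst_pos hyw, wst_neg hxy, wst_pos hzw, cst_ne (hR.ne_left hyw),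
        cst_ne (hR.ne_left hzw)] at h
      omega
    · exact ⟨Or.inr hyw, hxy, hzw⟩
    · rw [wst_neg hxz, wst_neg hyw, wst_pos hxy, wst_pos hzw] at h; omega
    · rw [wst_neg hxz, wst_neg hyw, wst_pos hxy, wst_neg hzw] at h; omega
    · rw [wst_neg hxz, wst_neg hyw, wst_neg hxy, wst_pos hzw] at h; omega
    · rw [wst_neg hxz, wst_neg hyw, wst_neg hxy, wst_neg hzw] at h; omega
  obtain ⟨h1, h2, h3⟩ := key h
  have h'' : wst R κ' x w + wst R κ' y z < wst R κ' x y + wst R κ' w z := by
    rw [wst_symm hR κ' w z]; exact h'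
  obtain ⟨h4, h5, h6⟩ := key h''
  by_cases hκ : κ = κ'
  · subst hκ
    rcases h1 with h1 | h1 <;> rcases h4 with h4 | h4
    · exact h3 (hR.trans (hR.symm h1) h4)
    · exact h2 (hR.trans h1 (hR.symm h4))
    · exact h2 (hR.trans h4 (hR.symm h1))
    · exact h3 (hR.trans (hR.symm h4) h1)
  · have cx := hR.comp hκ x
    have cy := hR.comp hκ y
    have cz := hR.comp hκ z
    have cw := hR.comp hκ w
    have T : ∀ {i j}, R κ i κ' → R κ j κ' → R κ i j := fun a b => hR.trans a (hR.symm b)
    have T' : ∀ {i j}, R κ' i κ → R κ' j κ → R κ' i j := fun a b => hR.trans a (hR.symm b)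
    have M : ∀ {i j}, R κ i j → R κ j κ' → R κ i κ' := fun a b => hR.trans a b
    have M' : ∀ {i j}, R κ' i j → R κ' j κ → R κ' i κ := fun a b => hR.trans a b
    rcases h1 with h1 | h1 <;> rcases h4 with h4 | h4
    · -- x z at κ, x w at κ'
      by_cases hx : R κ x κ'
      · have hz : R κ z κ' := M (hR.symm h1) hx
        have hy : R κ' y κ := cy.resolve_left (fun hy => h2 (T hx hy))
        have hw : R κ' w κ := cw.resolve_left (fun hw => h3 (T hz hw))
        exact h5 (hR.trans h4 (T' hw hy))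
      · have hx' := cx.resolve_left hx
        have hw' : R κ' w κ := M' (hR.symm h4) hx'
        have hz : R κ z κ' := cz.resolve_right (fun hz => h6 (T' hw' hz))
        exact hx (M h1 hz)
    · -- x z at κ, y z at κ'
      by_cases hz : R κ z κ'
      · have hx : R κ x κ' := M h1 hz
        have hy : R κ' y κ := cy.resolve_left (fun hy => h2 (T hx hy))
        have hw : R κ' w κ := cw.resolve_left (fun hw => h3 (T hz hw))
        exact h6 (hR.trans (T' hw hy) h4)
      · have hz' := cz.resolve_left hz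
        have hy' : R κ' y κ := M' h4 hz'
        have hx : R κ x κ' := cx.resolve_right (fun hx => h5 (T' hx hy'))
        exact hz (M (hR.symm h1) hx)
    · -- y w at κ, x w at κ'
      by_cases hw : R κ w κ'
      · have hy : R κ y κ' := M h1 hw
        have hx : R κ' x κ := cx.resolve_left (fun hx => h2 (T hx hy))
        have hz : R κ' z κ := cz.resolve_left (fun hz => h3 (T hz hw))
        exact h6 (hR.trans (hR.symm h4) (T' hx hz))
      · have hw' := cw.resolve_left hw
        have hx' : R κ' x κ := M' h4 hw'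
        have hy : R κ y κ' := cy.resolve_right (fun hy => h5 (T' hx' hy))
        exact hw (M (hR.symm h1) hy)
    · -- y w at κ, y z at κ'
      by_cases hy : R κ y κ'
      · have hw : R κ w κ' := M (hR.symm h1) hy
        have hx : R κ' x κ := cx.resolve_left (fun hx => h2 (T hx hy))
        have hz : R κ' z κ := cz.resolve_left (fun hz => h3 (T hz hw))
        exact h5 (hR.trans (T' hx hz) (hR.symm h4))
      · have hy' := cy.resolve_left hy
        have hz' : R κ' z κ := M' (hR.symm h4) hy'
        have hw : R κ w κ' := cw.resolve_right (fun hw => h6 (T' hw hz'))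
        exact hy (M h1 hw)

theorem StarSys.treeLike (hR : StarSys R) : TreeLike (dst R) where
  self := fun i => by
    rw [dst, finsum_congr (fun κ => wst_self hR κ i), finsum_zero]
  symm := fun i j => by
    rw [dst, dst, finsum_congr (fun κ => wst_symm hR κ i j)]
  eq_of := fun i j h => by
    by_contra hne
    obtain ⟨S, hS⟩ := hR.exists_finset {(i, j)}
    rw [dst_eq_sum hR (hS (i, j) (Finset.mem_singleton_self _)), Finset.sum_eq_zero_iff] at h
    have hi : wst R i i j = 1 := by
      rw [wst_neg (hR.irr _ _), cst_self, cst_ne (fun h => hne h.symm)]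
    have hiS : i ∈ S := hS (i, j) (Finset.mem_singleton_self _) (by
      show wst R i i j ≠ 0
      rw [hi]; exact one_ne_zero)
    have h0 : wst R i i j = 0 := h i hiS
    rw [hi] at h0
    exact one_ne_zero h0
  tri := fun i j k => by
    classical
    obtain ⟨S, hS⟩ := hR.exists_finset {(i, j), (j, k), (i, k)}
    rw [dst_eq_sum hR (hS (i, j) (by simp)), dst_eq_sum hR (hS (j, k) (by simp)),
      dst_eq_sum hR (hS (i, k) (by simp)), ← Finset.sum_add_distrib]
    exact Finset.sum_le_sum (fun κ _ => wst_tri hR κ i j k)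
  four := fun x y z w => by
    classical
    obtain ⟨S, hS⟩ := hR.exists_finset {(x, y), (z, w), (x, z), (y, w), (x, w), (y, z)}
    rw [dst_eq_sum hR (hS (x, y) (by simp)), dst_eq_sum hR (hS (z, w) (by simp)),
      dst_eq_sum hR (hS (x, z) (by simp)), dst_eq_sum hR (hS (y, w) (by simp)),
      dst_eq_sum hR (hS (x, w) (by simp)), dst_eq_sum hR (hS (y, z) (by simp)),
      ← Finset.sum_add_distrib, ← Finset.sum_add_distrib, ← Finset.sum_add_distrib]
    by_contra hcon
    push Not at hcon
    obtain ⟨h1, h2⟩ := max_lt_iff.mp hcon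
    obtain ⟨κ, _, hκ⟩ := Finset.exists_lt_of_sum_lt h1
    obtain ⟨κ', _, hκ'⟩ := Finset.exists_lt_of_sum_lt h2
    exact star_four_aux hR hκ hκ'

lemma StarSys.wst_add (hR : StarSys R) {a b c : ι} (h : ¬ R b a c) (κ : ι) :
    wst R κ a b + wst R κ b c = wst R κ a c := by
  by_cases hκ : κ = b
  · subst hκ
    rw [wst_neg h, wst_neg (fun h' => hR.irr _ _ (hR.symm h')), wst_neg (hR.irr _ _), cst_self]
    omega
  · have hab : R κ a b ∨ R κ c b := by
      rcases hR.comp hκ a with h1 | h1
      · exact Or.inl h1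
      rcases hR.comp hκ c with h2 | h2
      · exact Or.inr h2
      exact absurd (hR.trans h1 (hR.symm h2)) h
    rcases hab with hab | hab
    · rw [wst_pos hab, zero_add]
      by_cases h3 : R κ b c
      · rw [wst_pos h3, wst_pos (hR.trans hab h3)]
      · rw [wst_neg h3, wst_neg (fun h4 => h3 (hR.trans (hR.symm hab) h4)),
          cst_ne (hR.ne_left hab), cst_ne (hR.ne_right hab)]
    · rw [wst_pos (hR.symm hab), add_zero]
      by_cases h3 : R κ a b
      · rw [wst_pos h3, wst_pos (hR.trans h3 (hR.symm hab))]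
      · rw [wst_neg h3, wst_neg (fun h4 => h3 (hR.trans h4 hab)),
          cst_ne (hR.ne_left hab), cst_ne (hR.ne_right hab)]

/-- a separating wall lies between -/
lemma StarSys.bt_of_sep (hR : StarSys R) {a b c : ι} (h : ¬ R b a c) : Bt (dst R) a b c := by
  classical
  obtain ⟨S, hS⟩ := hR.exists_finset {(a, b), (b, c), (a, c)}
  unfold Bt
  rw [dst_eq_sum hR (hS (a, b) (by simp)), dst_eq_sum hR (hS (b, c) (by simp)),
    dst_eq_sum hR (hS (a, c) (by simp)), ← Finset.sum_add_distrib]
  exact Finset.sum_congr rfl (fun κ _ => hR.wst_add h κ)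

/-- a wall strictly between separates -/
lemma StarSys.sep_of_bt (hR : StarSys R) {a b c : ι} (h : Bt (dst R) a b c) (hab : a ≠ b) :
    ¬ R b a c := by
  classical
  intro hcon
  obtain ⟨S, hS⟩ := hR.exists_finset {(a, b), (b, c), (a, c)}
  unfold Bt at h
  rw [dst_eq_sum hR (hS (a, b) (by simp)), dst_eq_sum hR (hS (b, c) (by simp)),
    dst_eq_sum hR (hS (a, c) (by simp)), ← Finset.sum_add_distrib] at h
  have h1 : wst R b a b = 1 := by
    rw [wst_symm hR, wst_neg (hR.irr _ _), cst_self, cst_ne hab]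
  have hb : b ∈ S := hS (a, b) (by simp) (by
    show wst R b a b ≠ 0
    rw [h1]; exact one_ne_zero)
  have hlt : ∑ κ ∈ S, wst R κ a c < ∑ κ ∈ S, (wst R κ a b + wst R κ b c) := by
    apply Finset.sum_lt_sum (fun κ _ => wst_tri hR κ a b c)
    refine ⟨b, hb, ?_⟩
    rw [wst_pos hcon, h1]
    omega
  have h' : ∑ κ ∈ S, (wst R κ a b + wst R κ b c) = ∑ κ ∈ S, wst R κ a c := h
  omega

lemma dst_smul {G : Type*} [Group G] [MulAction G ι]
    (hinv : ∀ (g : G) κ i j, R (g • κ) (g • i) (g • j) ↔ R κ i j) (g : G) (i j : ι) :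
    dst R (g • i) (g • j) = dst R i j := by
  unfold dst
  rw [← finsum_comp_equiv (MulAction.toPerm g)]
  apply finsum_congr
  intro κ
  show wst R (g • κ) (g • i) (g • j) = wst R κ i j
  by_cases h : R κ i j
  · rw [wst_pos h, wst_pos ((hinv g κ i j).mpr h)]
  · rw [wst_neg h, wst_neg (fun h' => h ((hinv g κ i j).mp h'))]
    have e : ∀ k : ι, cst (g • κ) (g • k) = cst κ k := by
      intro k
      by_cases hk : k = κ
      · rw [hk, cst_self, cst_self]
      · rw [cst_ne hk, cst_ne (fun he => hk (MulAction.injective g he))]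
    rw [e, e]

end Star

section Rank

open Pointwise

variable {ι G X : Type*} [Group G] [MetricSpace X] [IsCAT0 X] [ProperSpace X]
  [MulAction G X] [IsIsometricSMul G X] [ProperlyDiscontinuousSMul G X] [MulAction G ι]
  {R : ι → ι → ι → Prop}

/-- A translation of a star system with finite stabiliser of a segment of the axis is rank one. -/
theorem StarSys.rankOne [Nonempty X] (hcoc : Cocompact G X) (hR : StarSys R)
    (hinv : ∀ (g : G) κ i j, R (g • κ) (g • i) (g • j) ↔ R κ i j) {σ : G} {z w : ι}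
    (h : TAx (dst R) σ z w) (hf : {g : G | g • z = z ∧ g • w = w}.Finite) :
    IsRankOne (X := X) σ := by
  classical
  have hd := hR.treeLike
  have hiso := dst_smul (G := G) hinv
  obtain ⟨c, hc, l, hl, hcl⟩ := exists_axis (X := X) hcoc (h.pow_ne_one hd hiso)
  refine ⟨c, hc, ⟨l, hl.ne', hcl⟩, ?_⟩
  -- order facts
  have hzσz : z ≠ σ • z := by
    intro he
    have e1 := h.a1
    unfold Bt at e1
    rw [← he, hd.self] at e1
    exact h.ne (hd.eq_of _ _ (by omega))
  have s1 : ¬ R w z (σ • z) := hR.sep_of_bt h.a1 h.ne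
  have s2 : R z (σ • z) w := by
    rcases hR.comp h.ne (σ • z) with h1 | h1
    · exact h1
    · exact absurd (hR.symm h1) s1
  have b2 : Bt (dst R) z (σ • z) (σ • w) := by
    have c1 := Bt.concat hd h.a1 h.a2 h.ne'
    have e1 := h.a1
    have e2 := h.a2
    unfold Bt at *
    omega
  have s3 : ¬ R (σ • z) z (σ • w) := hR.sep_of_bt b2 hzσz
  let E := ι × Set ι
  have hmemset : ∀ (g : G) (i j : ι), g • {k : ι | ¬ R i k j} = {k : ι | ¬ R (g • i) k (g • j)} := by
    intro g i j
    ext k
    rw [mem_smul_set_iff_inv_smul_mem]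
    show ¬ R i (g⁻¹ • k) j ↔ ¬ R (g • i) k (g • j)
    rw [← hinv g i (g⁻¹ • k) j, smul_inv_smul]
  apply not_boundsHalfPlane_of_sep (G := G) (V := ι) (E := E) hcoc (fun e => e.2)
    (fun g e v => by
      show g • v ∈ g • e.2 ↔ v ∈ e.2
      exact smul_mem_smul_set_iff) z σ (z, {k | ¬ R z k w}) ?_ ?_ ?_ ?_ ?_ hc hl hcl
  · intro g
    apply ((hR.fin z (g • z)).image (fun κ => (κ, {k | ¬ R κ k (g • z)}))).subset
    rintro e' ⟨⟨a, rfl⟩, h1, h2⟩
    have he : a • ((z, {k | ¬ R z k w}) : E) = (a • z, {k | ¬ R (a • z) k (a • w)}) := by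
      show (a • z, a • {k | ¬ R z k w}) = _
      rw [hmemset]
    rw [he] at h1 h2 ⊢
    have h1' : ¬ R (a • z) z (a • w) := h1
    have h2' : R (a • z) (g • z) (a • w) := by
      by_contra hcon
      exact h2 hcon
    refine ⟨a • z, fun hcon => h1' (hR.trans hcon h2'), ?_⟩
    show (a • z, {k | ¬ R (a • z) k (g • z)}) = (a • z, {k | ¬ R (a • z) k (a • w)})
    congr 1
    ext k
    show ¬ R (a • z) k (g • z) ↔ ¬ R (a • z) k (a • w)
    exact not_congr ⟨fun h => hR.trans h h2', fun h => hR.trans h (hR.symm h2')⟩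
  · intro k hk
    have hk' : ¬ R z k w := hk
    show k ∈ σ • {k | ¬ R z k w}
    rw [hmemset]
    intro hcon
    rcases hR.comp hzσz k with h1 | h1
    · exact hk' (hR.trans h1 s2)
    · exact s3 (hR.trans (hR.symm h1) hcon)
  · refine ⟨0, ?_⟩
    show z ∈ σ ^ (0 : ℤ) • {k | ¬ R z k w}
    rw [zpow_zero, one_smul]
    exact hR.irr _ _
  · refine ⟨-1, ?_⟩
    show z ∉ σ ^ (-1 : ℤ) • {k | ¬ R z k w}
    rw [hmemset, zpow_neg_one]
    intro hcon
    apply hcon
    rw [← hinv σ, smul_inv_smul, smul_inv_smul]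
    exact s2
  · apply hf.subset
    rintro g ⟨h1, h2⟩
    have h1' : g • z = z := congrArg Prod.fst h1
    have h2' : g • σ • z = σ • z := congrArg Prod.fst h2
    exact ⟨h1', Bt.fix hd hiso h.a1 h1' h2'⟩

end Rank

end Pool.Agent.H29
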