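import Mathlib

/-!
# Metric facts about simplicial trees
-/

open Set

set_option linter.unusedSectionVars false

namespace Pool.Agent.H29

section Tree

variable {V : Type*} {T : SimpleGraph V}

lemma tree_parent_unique (hT : T.IsTree) {x y y1 y2 : V} (h1 : T.Adj y1 y) (h2 : T.Adj y2 y)
    (e1 : T.dist x y1 + 1 = T.dist x y) (e2 : T.dist x y2 + 1 = T.dist x y) : y1 = y2 := by
  obtain ⟨p1, hp1⟩ := hT.connected.exists_walk_length_eq_dist x y1
  obtain ⟨p2, hp2⟩ := hT.connected.exists_walk_length_eq_dist x y2
  have i1 : (p1.concat h1).IsPath := by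
    apply SimpleGraph.Walk.isPath_of_length_eq_dist
    rw [SimpleGraph.Walk.length_concat, hp1, e1]
  have i2 : (p2.concat h2).IsPath := by
    apply SimpleGraph.Walk.isPath_of_length_eq_dist
    rw [SimpleGraph.Walk.length_concat, hp2, e2]
  have hs := hT.isAcyclic.subsingleton_path x y
  have heq : (⟨p1.concat h1, i1⟩ : T.Path x y) = ⟨p2.concat h2, i2⟩ := Subsingleton.elim _ _
  have heq' : p1.concat h1 = p2.concat h2 := congrArg Subtype.val heq
  obtain ⟨hv, _⟩ := SimpleGraph.Walk.concat_inj heq'
  exact hv

lemma tree_adj_dist_ne (hT : T.IsTree) (x : V) {v w : V} (h : T.Adj v w) :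
    T.dist x v ≠ T.dist x w := by
  classical
  intro heq
  obtain ⟨p, hp⟩ := hT.connected.exists_walk_length_eq_dist x v
  have hpp := p.isPath_of_length_eq_dist hp
  by_cases hw : w ∈ p.support
  · have h1 := congrArg SimpleGraph.Walk.length (p.take_spec hw)
    rw [SimpleGraph.Walk.length_append] at h1
    have h2 := SimpleGraph.dist_le (p.takeUntil w hw)
    have h3 := SimpleGraph.dist_le (p.dropUntil w hw)
    have h4 : T.dist w v = 1 := SimpleGraph.dist_eq_one_iff_adj.mpr h.symm
    omega
  · have i1 : (p.concat h).IsPath := (SimpleGraph.Walk.concat_isPath_iff h).mpr ⟨hpp, hw⟩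
    obtain ⟨q, hq⟩ := hT.connected.exists_walk_length_eq_dist x w
    have hqp := q.isPath_of_length_eq_dist hq
    have hs := hT.isAcyclic.subsingleton_path x w
    have heq' : (⟨p.concat h, i1⟩ : T.Path x w) = ⟨q, hqp⟩ := Subsingleton.elim _ _
    have h5 := congrArg (fun r : T.Path x w => r.1.length) heq'
    simp only [SimpleGraph.Walk.length_concat] at h5
    omega

lemma tree_adj_dist (hT : T.IsTree) (x : V) {v w : V} (h : T.Adj v w) :
    T.dist x v = T.dist x w + 1 ∨ T.dist x w = T.dist x v + 1 := by
  have h1 := tree_adj_dist_ne hT x h
  have h2 : T.dist v w = 1 := SimpleGraph.dist_eq_one_iff_adj.mpr h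
  have h3 := hT.connected.dist_triangle (u := x) (v := v) (w := w)
  have h4 := hT.connected.dist_triangle (u := x) (v := w) (w := v)
  rw [SimpleGraph.dist_comm (u := w) (v := v)] at h4
  omega

/-- the neighbour in the direction of another vertex -/
lemma tree_exists_step (hT : T.IsTree) {x y : V} (h : x ≠ y) :
    ∃ z, T.Adj z y ∧ T.dist x z + 1 = T.dist x y := by
  obtain ⟨p, hp⟩ := hT.connected.exists_walk_length_eq_dist y x
  cases p with
  | nil => exact absurd rfl h
  | cons hadj q =>
    rename_i z
    refine ⟨z, hadj.symm, ?_⟩
    rw [SimpleGraph.Walk.length_cons] at hp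
    have h1 := SimpleGraph.dist_le q
    rw [SimpleGraph.dist_comm (u := z) (v := x)] at h1
    rw [SimpleGraph.dist_comm (u := y) (v := x)] at hp
    have h3 := hT.connected.dist_triangle (u := x) (v := z) (w := y)
    have h2 : T.dist z y = 1 := SimpleGraph.dist_eq_one_iff_adj.mpr hadj.symm
    omega

lemma tree_edge_sep (hT : T.IsTree) {v w x y : V} (h : T.Adj v w)
    (hx : T.dist x w = T.dist x v + 1) (hy : T.dist y v = T.dist y w + 1) :
    T.dist x y = T.dist x v + 1 + T.dist w y := by
  have key : ∀ (k : ℕ) (y : V), T.dist w y = k → T.dist y v = T.dist y w + 1 →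
      T.dist x y = T.dist x v + 1 + T.dist w y := by
    intro k
    induction k with
    | zero =>
      intro y hk _
      have : w = y := hT.connected.dist_eq_zero_iff.mp hk
      subst this
      rw [hx, SimpleGraph.dist_self]
    | succ k ih =>
      intro y hk hyv
      have hwy : w ≠ y := by
        rintro rfl
        rw [SimpleGraph.dist_self] at hk
        omega
      obtain ⟨y', hadj, hy'⟩ := tree_exists_step hT hwy
      have hk' : T.dist w y' = k := by omega
      -- y' satisfies the hypothesis
      have h1 : T.dist y' v = T.dist y' w + 1 := by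
        have a1 := hT.connected.dist_triangle (u := y) (v := y') (w := v)
        have a2 := hT.connected.dist_triangle (u := y') (v := w) (w := v)
        have a3 : T.dist w v = 1 := SimpleGraph.dist_eq_one_iff_adj.mpr h.symm
        have a4 : T.dist y y' = 1 := SimpleGraph.dist_eq_one_iff_adj.mpr hadj.symm
        rw [SimpleGraph.dist_comm (u := y) (v := w)] at hyv
        rw [SimpleGraph.dist_comm (u := y') (v := w)] at a2 ⊢
        omega
      have h2 := ih y' hk' h1
      rcases tree_adj_dist hT x hadj with h3 | h3
      · -- y is the parent of y'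
        exfalso
        by_cases hk0 : k = 0
        · have hwy' : w = y' := hT.connected.dist_eq_zero_iff.mp (by omega)
          subst hwy'
          have h4 := tree_parent_unique hT (x := x) hadj.symm h h3.symm hx.symm
          subst h4
          rw [SimpleGraph.dist_self] at hyv
          omega
        · have hwy' : w ≠ y' := by
            rintro rfl
            rw [SimpleGraph.dist_self] at hk'
            exact hk0 hk'.symm
          obtain ⟨y'', hadj', hy''⟩ := tree_exists_step hT hwy'
          have h5 : T.dist y'' v = T.dist y'' w + 1 := by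
            have a1 := hT.connected.dist_triangle (u := y') (v := y'') (w := v)
            have a2 := hT.connected.dist_triangle (u := y'') (v := w) (w := v)
            have a3 : T.dist w v = 1 := SimpleGraph.dist_eq_one_iff_adj.mpr h.symm
            have a4 : T.dist y' y'' = 1 := SimpleGraph.dist_eq_one_iff_adj.mpr hadj'.symm
            rw [SimpleGraph.dist_comm (u := y') (v := w)] at h1
            rw [SimpleGraph.dist_comm (u := y'') (v := w)] at a2 ⊢
            omega
          -- T.dist x y'' + 1 = T.dist x y'
          have h6 : T.dist x y'' + 1 = T.dist x y' := by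
            -- induct: use strong form through the same argument on y''
            have b1 : T.dist x y'' ≤ T.dist x v + 1 + T.dist w y'' := by
              have c1 := hT.connected.dist_triangle (u := x) (v := v) (w := y'')
              rw [SimpleGraph.dist_comm (u := v) (v := y''), h5,
                SimpleGraph.dist_comm (u := y'') (v := w)] at c1
              omega
            rcases tree_adj_dist hT x hadj' with b2 | b2
            · omega
            · omega
          have h7 := tree_parent_unique hT (x := x) hadj.symm hadj' h3.symm h6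
          subst h7
          omega
      · omega
  exact key _ y rfl hy

/-- four point condition -/
lemma tree_four (hT : T.IsTree) (x y z w : V) :
    T.dist x y + T.dist z w ≤ max (T.dist x z + T.dist y w) (T.dist x w + T.dist y z) := by
  have key : ∀ (k : ℕ) (x : V), T.dist x y = k →
      T.dist x y + T.dist z w ≤ max (T.dist x z + T.dist y w) (T.dist x w + T.dist y z) := by
    intro k
    induction k with
    | zero =>
      intro x hk
      have : x = y := hT.connected.dist_eq_zero_iff.mp hk
      subst this
      have h1 := hT.connected.dist_triangle (u := z) (v := x) (w := w)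
      rw [SimpleGraph.dist_comm (u := z) (v := x)] at h1
      rw [SimpleGraph.dist_self]
      omega
    | succ k ih =>
      intro x hk
      have hxy : y ≠ x := by
        rintro rfl
        rw [SimpleGraph.dist_self] at hk
        omega
      obtain ⟨x', hadj, hx'⟩ := tree_exists_step hT hxy
      rw [SimpleGraph.dist_comm (u := y) (v := x'), SimpleGraph.dist_comm (u := y) (v := x)] at hx'
      have h0 := ih x' (by omega)
      have hside : ∀ u : V, T.dist x u + 1 = T.dist x' u →
          T.dist u y = T.dist u x + 1 + T.dist x' y := by
        intro u hu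
        apply tree_edge_sep hT hadj.symm
        · rw [SimpleGraph.dist_comm (u := u) (v := x'), SimpleGraph.dist_comm (u := u) (v := x)]
          omega
        · rw [SimpleGraph.dist_comm (u := y) (v := x), SimpleGraph.dist_comm (u := y) (v := x')]
          omega
      have hz := tree_adj_dist hT z hadj
      have hw := tree_adj_dist hT w hadj
      rw [SimpleGraph.dist_comm (u := z) (v := x'), SimpleGraph.dist_comm (u := z) (v := x)] at hz
      rw [SimpleGraph.dist_comm (u := w) (v := x'), SimpleGraph.dist_comm (u := w) (v := x)] at hw
      rcases hz with hz | hz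
      · have h1 := hside z hz.symm
        have h2 := hT.connected.dist_triangle (u := z) (v := x) (w := w)
        rw [SimpleGraph.dist_comm (u := z) (v := y)] at h1
        omega
      · rcases hw with hw | hw
        · have h1 := hside w hw.symm
          have h2 := hT.connected.dist_triangle (u := z) (v := x) (w := w)
          rw [SimpleGraph.dist_comm (u := w) (v := y), SimpleGraph.dist_comm (u := w) (v := x)] at h1
          rw [SimpleGraph.dist_comm (u := z) (v := x)] at h2
          omega
        · omega
  exact key _ x rfl

/-- betweenness -/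
def Btw (T : SimpleGraph V) (x y z : V) : Prop := T.dist x y + T.dist y z = T.dist x z

lemma Btw.symm {x y z : V} (h : Btw T x y z) : Btw T z y x := by
  unfold Btw at *
  rw [SimpleGraph.dist_comm (u := z) (v := y), SimpleGraph.dist_comm (u := y) (v := x),
    SimpleGraph.dist_comm (u := z) (v := x)]
  omega

lemma btw_self_left (x y : V) : Btw T x x y := by
  unfold Btw; rw [SimpleGraph.dist_self]; omega

lemma btw_self_right (x y : V) : Btw T x y y := by
  unfold Btw; rw [SimpleGraph.dist_self]; omega

/-- a point at given distance on a segment is unique -/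
lemma Btw.unique (hT : T.IsTree) {x y z z' : V} (h : Btw T x z y) (h' : Btw T x z' y)
    (he : T.dist x z = T.dist x z') : z = z' := by
  unfold Btw at *
  have h4 := tree_four hT x y z z'
  rw [SimpleGraph.dist_comm (u := y) (v := z'), SimpleGraph.dist_comm (u := y) (v := z)] at h4
  apply hT.connected.dist_eq_zero_iff.mp
  omega

/-- concatenation of overlapping segments -/
lemma Btw.concat (hT : T.IsTree) {x y z w : V} (h1 : Btw T x y z) (h2 : Btw T y z w)
    (hne : y ≠ z) : T.dist x w = T.dist x y + T.dist y z + T.dist z w := by
  unfold Btw at *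
  have h4 := tree_four hT x z y w
  have hpos : 0 < T.dist y z := hT.connected.pos_dist_of_ne hne
  have t1 := hT.connected.dist_triangle (u := x) (v := y) (w := w)
  rw [SimpleGraph.dist_comm (u := z) (v := y)] at h4
  omega

lemma btw_finite (hT : T.IsTree) (x y : V) : {z | Btw T x z y}.Finite := by
  apply Set.Finite.of_finite_image (f := fun z => T.dist x z)
  · apply (Set.finite_Iic (T.dist x y)).subset
    rintro _ ⟨z, hz, rfl⟩
    have hz' : T.dist x z + T.dist z y = T.dist x y := hz
    show T.dist x z ≤ T.dist x y
    omega
  · intro z hz z' hz' h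
    exact Btw.unique hT hz hz' h

lemma btw_step (hT : T.IsTree) {x y : V} (h : x ≠ y) : ∃ z, T.Adj z y ∧ Btw T x z y := by
  obtain ⟨z, h1, h2⟩ := tree_exists_step hT h
  refine ⟨z, h1, ?_⟩
  unfold Btw
  rw [SimpleGraph.dist_eq_one_iff_adj.mpr h1]
  exact h2

end Tree

/-! ### actions on trees -/

section TreeAction

variable {G V : Type*} [Group G] [MulAction G V] {T : SimpleGraph V}

lemma dist_smul_tree (hT : T.IsTree) (hadj : ∀ (g : G) v w, T.Adj v w → T.Adj (g • v) (g • w))
    (g : G) (v w : V) : T.dist (g • v) (g • w) = T.dist v w := by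
  have key : ∀ (g : G) (v w : V), T.dist (g • v) (g • w) ≤ T.dist v w := by
    intro g v w
    obtain ⟨p, hp⟩ := hT.connected.exists_walk_length_eq_dist v w
    let f : T →g T := ⟨fun v => g • v, fun {a b} h => hadj g a b h⟩
    have := SimpleGraph.dist_le (p.map f)
    rw [SimpleGraph.Walk.length_map, hp] at this
    exact this
  apply le_antisymm (key g v w)
  have := key g⁻¹ (g • v) (g • w)
  rwa [inv_smul_smul, inv_smul_smul] at this

lemma Btw.smul (hT : T.IsTree) (hadj : ∀ (g : G) v w, T.Adj v w → T.Adj (g • v) (g • w))
    {x y z : V} (h : Btw T x y z) (g : G) : Btw T (g • x) (g • y) (g • z) := by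
  unfold Btw at *
  rw [dist_smul_tree hT hadj, dist_smul_tree hT hadj, dist_smul_tree hT hadj]
  exact h

/-- an element fixing the end points fixes the segment -/
lemma Btw.fix (hT : T.IsTree) (hadj : ∀ (g : G) v w, T.Adj v w → T.Adj (g • v) (g • w))
    {x y z : V} (h : Btw T x y z) {g : G} (hx : g • x = x) (hz : g • z = z) : g • y = y := by
  have h1 := h.smul hT hadj g
  rw [hx, hz] at h1
  apply Btw.unique hT h1 h
  have := dist_smul_tree hT hadj g x y
  rw [hx] at this
  exact this

/-- an element fixing `s` and moving the neighbour of `s` towards `x` opens an angle at `s` -/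
lemma btw_of_move (hT : T.IsTree) (hadj : ∀ (g : G) v w, T.Adj v w → T.Adj (g • v) (g • w))
    {s : V} {b : G} (hb : b • s = s) {w x : V} (hw : T.Adj w s) (hxw : Btw T x w s)
    (hne : b • w ≠ w) : Btw T (b • x) s x := by
  -- w is the neighbour of s towards x
  have hw' : T.Adj (b • w) s := by
    have := hadj b w s hw
    rwa [hb] at this
  have hd1 : T.dist w s = 1 := SimpleGraph.dist_eq_one_iff_adj.mpr hw
  have hd2 : T.dist (b • w) s = 1 := SimpleGraph.dist_eq_one_iff_adj.mpr hw'
  -- dist w (b w) = 2
  have hd3 : Btw T w s (b • w) := by
    unfold Btw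
    have t1 := hT.connected.dist_triangle (u := w) (v := s) (w := b • w)
    have hpos : 0 < T.dist w (b • w) := hT.connected.pos_dist_of_ne (Ne.symm hne)
    have hn1 : T.dist w (b • w) ≠ 1 := by
      intro h1
      have ha : T.Adj w (b • w) := SimpleGraph.dist_eq_one_iff_adj.mp h1
      have := tree_adj_dist_ne hT s ha
      rw [SimpleGraph.dist_comm (u := s) (v := w), SimpleGraph.dist_comm (u := s) (v := b • w)] at this
      omega
    rw [SimpleGraph.dist_comm (u := s) (v := b • w)] at *
    omega
  have hws : w ≠ s := hw.ne
  have hbws : s ≠ b • w := hw'.ne.symm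
  have c1 := Btw.concat hT hxw hd3 hws
  have hxs : T.dist x w + T.dist w s = T.dist x s := hxw
  have c2 : Btw T x s (b • w) := by
    unfold Btw
    omega
  have c3 : Btw T s (b • w) (b • x) := by
    have := (hxw.smul hT hadj b).symm
    rwa [hb] at this
  have c4 := Btw.concat hT c2 c3 hbws
  have c5 : T.dist s (b • w) + T.dist (b • w) (b • x) = T.dist s (b • x) := c3
  have c6 : Btw T x s (b • x) := by
    unfold Btw
    omega
  exact c6.symm

end TreeAction

end Pool.Agent.H29
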