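import Pool.Agent.H29.Star
import Mathlib.Topology.Connected.PathConnected

/-!
# Locally finite families of disjoint convex walls

A locally finite family of pairwise disjoint convex sets defines a star system: the relation is
being in the same path component of the complement.
-/

open Set Filter Topology Metric

set_option linter.unusedSectionVars false

namespace Pool.Agent.H29

section WF

variable {ι X : Type*} [MetricSpace X] [IsCAT0 X]

/-- geodesic segments inside a set join their end points -/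
lemma joinedIn_of_pt {F : Set X} {x y : X} (h : ∀ t ∈ Icc (0 : ℝ) 1, pt x y t ∈ F) :
    JoinedIn F x y := by
  apply JoinedIn.ofLine (f := fun t => pt x y t) _ (pt_zero x y) (pt_one x y)
  · rintro _ ⟨t, ht, rfl⟩
    exact h t ht
  · have hL : LipschitzOnWith (Real.toNNReal (dist x y)) (fun t => pt x y t) (Icc (0 : ℝ) 1) := by
      apply LipschitzOnWith.of_dist_le_mul
      intro s hs t ht
      rw [dist_pt_pt x y hs ht, Real.dist_eq, Real.coe_toNNReal _ dist_nonneg, mul_comm]
    exact hL.continuousOn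

/-- a locally finite family of pairwise disjoint nonempty convex sets -/
structure WallFam (H : ι → Set X) : Prop where
  conv : ∀ i, GConvex (H i)
  ne : ∀ i, (H i).Nonempty
  disj : ∀ i j x, x ∈ H i → x ∈ H j → i = j
  lf : ∀ (p : X) (r : ℝ), {i | ∃ y ∈ H i, dist p y ≤ r}.Finite

/-- the walls `i` and `j` are on the same side of `κ` -/
def sameSide (H : ι → Set X) (κ i j : ι) : Prop :=
  i ≠ κ ∧ j ≠ κ ∧ ∃ x ∈ H i, ∃ y ∈ H j, JoinedIn (H κ)ᶜ x y

variable {H : ι → Set X}

lemma WallFam.joined (hH : WallFam H) {κ i : ι} (hi : i ≠ κ) {x y : X} (hx : x ∈ H i)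
    (hy : y ∈ H i) : JoinedIn (H κ)ᶜ x y :=
  joinedIn_of_pt (fun t ht hcon => hi (hH.disj _ _ _ (hH.conv i x hx y hy t ht) hcon))

lemma WallFam.joined_of_sameSide (hH : WallFam H) {κ i j : ι} (h : sameSide H κ i j) {x y : X}
    (hx : x ∈ H i) (hy : y ∈ H j) : JoinedIn (H κ)ᶜ x y := by
  obtain ⟨hi, hj, x', hx', y', hy', hxy⟩ := h
  exact ((hH.joined hi hx hx').trans hxy).trans (hH.joined hj hy' hy)

/-- two distinct disjoint convex walls do not cross -/
lemma WallFam.comp_pt (hH : WallFam H) {κ κ' : ι} (hκ : κ ≠ κ') (x : X)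
    {a b : X} (ha : a ∈ H κ) (hb : b ∈ H κ') :
    JoinedIn (H κ)ᶜ x b ∨ JoinedIn (H κ')ᶜ x a := by
  by_cases hmeet : ∀ t ∈ Icc (0 : ℝ) 1, pt x a t ∈ (H κ')ᶜ
  · exact Or.inr (joinedIn_of_pt hmeet)
  · push Not at hmeet
    obtain ⟨t, ht, hpt⟩ := hmeet
    have hpt' : pt x a t ∈ H κ' := not_not.mp hpt
    left
    have h1 : JoinedIn (H κ)ᶜ x (pt x a t) := by
      apply joinedIn_of_pt
      intro s hs hcon
      -- pt x (pt x a t) s = pt x a (s t); the segment from it to a lies in H κ and contains pt x a t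
      rw [pt_pt x a hs ht] at hcon
      have hst : s * t ∈ Icc (0 : ℝ) 1 :=
        ⟨mul_nonneg hs.1 ht.1, mul_le_one₀ hs.2 ht.1 ht.2⟩
      have hle : s * t ≤ t := mul_le_of_le_one_left ht.1 hs.2
      apply hκ
      apply hH.disj _ _ (pt x a t) _ hpt'
      rcases eq_or_lt_of_le hst.2 with h1 | h1
      · have ht1 : t = 1 := le_antisymm ht.2 (by linarith)
        rw [ht1, pt_one]
        exact ha
      · have hpos : 0 < 1 - s * t := by linarith
        have hr : (t - s * t) / (1 - s * t) ∈ Icc (0 : ℝ) 1 := by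
          refine ⟨div_nonneg (by linarith) hpos.le, ?_⟩
          rw [div_le_one hpos]
          linarith [ht.2]
        have h2 := hH.conv κ _ hcon _ ha _ hr
        have h3 := pt_pt_pt x a hst one_mem_I hr
        rw [pt_one] at h3
        rw [h3] at h2
        have h4 : ∀ u : ℝ, 1 - u ≠ 0 → (1 - (t - u) / (1 - u)) * u + (t - u) / (1 - u) * 1 = t := by
          intro u hu
          field_simp
          ring
        rwa [h4 _ hpos.ne'] at h2
    exact h1.trans (hH.joined hκ.symm hpt' hb)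

theorem WallFam.starSys (hH : WallFam H) : StarSys (sameSide H) where
  symm := fun {κ i j} ⟨hi, hj, x, hx, y, hy, h⟩ => ⟨hj, hi, y, hy, x, hx, h.symm⟩
  trans := fun {κ i j k} h1 h2 => by
    obtain ⟨x, hx⟩ := hH.ne i
    obtain ⟨y, hy⟩ := hH.ne j
    obtain ⟨z, hz⟩ := hH.ne k
    exact ⟨h1.1, h2.2.1, x, hx, z, hz,
      (hH.joined_of_sameSide h1 hx hy).trans (hH.joined_of_sameSide h2 hy hz)⟩
  refl := fun {κ i} hi => by
    obtain ⟨x, hx⟩ := hH.ne i
    exact ⟨hi, hi, x, hx, x, hx, hH.joined hi hx hx⟩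
  irr := fun κ i h => h.1 rfl
  comp := fun {κ κ'} hκ i => by
    obtain ⟨a, ha⟩ := hH.ne κ
    obtain ⟨b, hb⟩ := hH.ne κ'
    obtain ⟨x, hx⟩ := hH.ne i
    by_cases h1 : i = κ
    · subst h1
      exact Or.inr ⟨hκ, hκ, x, hx, x, hx, hH.joined hκ hx hx⟩
    by_cases h2 : i = κ'
    · subst h2
      exact Or.inl ⟨hκ.symm, hκ.symm, x, hx, x, hx, hH.joined hκ.symm hx hx⟩
    rcases hH.comp_pt hκ x ha hb with h | h
    · exact Or.inl ⟨h1, hκ.symm, x, hx, b, hb, h⟩
    · exact Or.inr ⟨h2, hκ, x, hx, a, ha, h⟩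
  fin := fun i j => by
    obtain ⟨x, hx⟩ := hH.ne i
    obtain ⟨y, hy⟩ := hH.ne j
    apply (((hH.lf x (dist x y)).insert i).insert j).subset
    intro κ hκ
    by_contra hcon
    simp only [mem_insert_iff, not_or] at hcon
    obtain ⟨hj, hi, hκ'⟩ := hcon
    apply hκ
    refine ⟨fun h => hi h.symm, fun h => hj h.symm, x, hx, y, hy, joinedIn_of_pt ?_⟩
    intro t ht hmem
    apply hκ'
    refine ⟨pt x y t, hmem, ?_⟩
    rw [dist_left_pt x y ht]
    exact mul_le_of_le_one_left dist_nonneg ht.2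

lemma sameSide_smul {G : Type*} [Group G] [MulAction G X] [IsIsometricSMul G X] [MulAction G ι]
    (hinv : ∀ (g : G) (i : ι) (x : X), g • x ∈ H (g • i) ↔ x ∈ H i) (g : G) (κ i j : ι) :
    sameSide H (g • κ) (g • i) (g • j) ↔ sameSide H κ i j := by
  have key : ∀ (g : G) (κ i j : ι), sameSide H κ i j → sameSide H (g • κ) (g • i) (g • j) := by
    rintro g κ i j ⟨hi, hj, x, hx, y, hy, h⟩
    refine ⟨fun he => hi (MulAction.injective g he), fun he => hj (MulAction.injective g he),
      g • x, (hinv g i x).mpr hx, g • y, (hinv g j y).mpr hy, ?_⟩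
    have h1 := JoinedIn.map h (f := fun z : X => g • z) (isometry_smul X g).continuous
    apply h1.mono
    rintro _ ⟨z, hz, rfl⟩
    intro hcon
    exact hz ((hinv g κ z).mp hcon)
  refine ⟨fun h => ?_, key g κ i j⟩
  have := key g⁻¹ _ _ _ h
  rwa [inv_smul_smul, inv_smul_smul, inv_smul_smul] at this

end WF

end Pool.Agent.H29
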